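import Pool.Agent.V7H23.AK.Coord2

set_option autoImplicit false

/-!
# Digits from arbitrary alphabets
-/

open Finset

namespace Pool.Agent.V7H23.AK

/-- a common denominator -/
theorem common_den (C : Finset ℚ) : ∃ m N : ℕ, 0 < m ∧
    ∀ c ∈ C, ∃ z : ℤ, (z : ℚ) = m * c ∧ |z| ≤ (N : ℤ) := by
  classical
  induction C using Finset.induction_on with
  | empty => exact ⟨1, 0, one_pos, fun c hc => absurd hc (Finset.notMem_empty c)⟩
  | insert a C _ ih =>
    obtain ⟨m, N, hm, h⟩ := ih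
    refine ⟨m * a.den, N * a.den + m * a.num.natAbs, Nat.mul_pos hm a.den_pos, fun c hc => ?_⟩
    rcases Finset.mem_insert.1 hc with rfl | hc
    · refine ⟨m * c.num, ?_, ?_⟩
      · push_cast
        rw [mul_assoc, mul_comm (c.den : ℚ) c, Rat.mul_den_eq_num]
      · rw [abs_mul, Nat.abs_cast, Int.abs_eq_natAbs]
        push_cast
        have h1 : (0 : ℤ) ≤ (N : ℤ) * (c.den : ℤ) := by positivity
        linarith
    · obtain ⟨z, hz1, hz2⟩ := h c hc
      refine ⟨z * a.den, ?_, ?_⟩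
      · push_cast
        rw [hz1]
        ring
      · rw [abs_mul, Nat.abs_cast]
        push_cast
        have h1 : |z| * (a.den : ℤ) ≤ N * a.den :=
          mul_le_mul_of_nonneg_right hz2 (Int.natCast_nonneg _)
        have h2 : (0 : ℤ) ≤ (m : ℤ) * |a.num| := by positivity
        linarith

/-- **Digits from alphabets with at most `M` elements.** -/
theorem alphabets (M r : ℕ) (S : Finset ℚ) (hS : (r + 1) * M ^ (2 * r) ≤ S.card) (q : ℕ) :
    ∃ L : ℕ, ∀ (V : Type) [AddCommGroup V] [Module ℚ V] [DecidableEq V] (n : ℕ) (g : Fin n → V),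
      (∀ c : Fin n → ℤ, (∀ i, |c i| ≤ (L : ℤ)) → ∑ i, (c i : ℚ) • g i = 0 → c = 0) →
      ∀ E : Fin n → Finset ℤ, (∀ i, (E i).card ≤ M) → (∀ i, ∀ x ∈ E i, |x| ≤ (q : ℤ)) →
        ∀ A : Finset (V × V), A.Nonempty →
          (∀ a ∈ A, ∃ e : Fin n → ℤ, (∀ i, e i ∈ E i) ∧ a.1 - a.2 = ∑ i, (e i : ℚ) • g i) →
          (A.image fun a => a.1 - a.2).card ^ (r ^ 2) ≤ (max (A.image fun a => a.2).card
            (S.sup fun t => (A.image fun a => a.1 + t • a.2).card)) ^ ((r + 1) ^ 2) := by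
  classical
  obtain ⟨m, N, hm, hz⟩ := common_den ((param S ×ˢ param S).image fun x => x.1 - x.2)
  refine ⟨r * (N * (2 * q)), ?_⟩
  intro V _ _ _ n g hg E hE hq A hA hdig
  have h1 : ∀ d : V, ∃ e : Fin n → ℤ, d ∈ (A.image fun a => a.1 - a.2) →
      (∀ i, e i ∈ E i) ∧ d = ∑ i, (e i : ℚ) • g i := by
    intro d
    by_cases hd : d ∈ A.image fun a => a.1 - a.2
    · obtain ⟨a, ha, rfl⟩ := Finset.mem_image.1 hd
      obtain ⟨e, he1, he2⟩ := hdig a ha
      exact ⟨e, fun _ => ⟨he1, he2⟩⟩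
    · exact ⟨0, fun h => absurd h hd⟩
  choose e he using h1
  refine coordinate_bound' (W := ℚ) (n := n) M r S hS A (fun d i => (e d i : ℚ)) hA ?_ ?_ ?_
  · intro d hd d' hd' hdd
    rw [(he d hd).2, (he d' hd').2]
    exact Finset.sum_congr rfl fun i _ => by rw [show (e d i : ℚ) = (e d' i : ℚ) from congrFun hdd i]
  · intro i
    have h2 : (A.image fun a => ((e (a.1 - a.2) i : ℤ) : ℚ)) ⊆ (E i).image fun x : ℤ => (x : ℚ) := by
      intro y hy
      obtain ⟨a, ha, rfl⟩ := Finset.mem_image.1 hy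
      exact Finset.mem_image.2 ⟨_, (he _ (Finset.mem_image.2 ⟨a, ha, rfl⟩)).1 i, rfl⟩
    exact (Finset.card_le_card h2).trans (Finset.card_image_le.trans (hE i))
  · intro h hh x x' hx hx' heq i
    have h3 : ∀ j : Fin r, ∃ z : ℤ, (z : ℚ) = m * (h j.castSucc - h j.succ) ∧ |z| ≤ (N : ℤ) :=
      fun j => hz _ (Finset.mem_image.2 ⟨(h j.castSucc, h j.succ),
        Finset.mem_product.2 ⟨hh _, hh _⟩, rfl⟩)
    choose z hz1 hz2 using h3
    have h4 := hg (fun i => ∑ j, z j * (e (x j) i - e (x' j) i)) (fun i => by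
      refine (Finset.abs_sum_le_sum_abs _ _).trans ?_
      have h5 : ∀ j ∈ (univ : Finset (Fin r)), |z j * (e (x j) i - e (x' j) i)| ≤
          ((N * (2 * q) : ℕ) : ℤ) := by
        intro j _
        rw [abs_mul]
        have h6 := hq i _ ((he _ (hx j)).1 i)
        have h7 := hq i _ ((he _ (hx' j)).1 i)
        have h8 : |e (x j) i - e (x' j) i| ≤ 2 * q := (abs_sub _ _).trans (by linarith)
        push_cast
        exact mul_le_mul (hz2 j) h8 (abs_nonneg _) (Int.natCast_nonneg _)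
      refine (Finset.sum_le_sum h5).trans ?_
      rw [Finset.sum_const, Finset.card_univ, Fintype.card_fin, nsmul_eq_mul]
      push_cast
      exact le_rfl) (by
      have h5 : ∀ y : Fin r → V, (∀ j, y j ∈ A.image fun a => a.1 - a.2) →
          (m : ℚ) • ∑ j, (h j.castSucc - h j.succ) • y j =
          ∑ i, (∑ j, (z j : ℚ) * (e (y j) i : ℚ)) • g i := by
        intro y hy
        rw [Finset.smul_sum]
        have h6 : ∀ j, (m : ℚ) • (h j.castSucc - h j.succ) • y j =
            ∑ i, ((z j : ℚ) * (e (y j) i : ℚ)) • g i := by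
          intro j
          rw [smul_smul, ← hz1, Finset.sum_congr rfl fun i _ => mul_smul (z j : ℚ) _ (g i),
            ← Finset.smul_sum, ← (he _ (hy j)).2]
        rw [Finset.sum_congr rfl fun j _ => h6 j, Finset.sum_comm]
        exact Finset.sum_congr rfl fun i _ => (Finset.sum_smul).symm
      have h6 := h5 x hx
      rw [heq, h5 x' hx'] at h6
      have h7 : ∑ i, ((∑ j, z j * (e (x j) i - e (x' j) i) : ℤ) : ℚ) • g i =
          ∑ i, (∑ j, (z j : ℚ) * (e (x j) i : ℚ)) • g i -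
          ∑ i, (∑ j, (z j : ℚ) * (e (x' j) i : ℚ)) • g i := by
        rw [← Finset.sum_sub_distrib]
        refine Finset.sum_congr rfl fun i _ => ?_
        rw [← sub_smul, ← Finset.sum_sub_distrib]
        push_cast
        congr 1
        exact Finset.sum_congr rfl fun j _ => by ring
      rw [h7, h6, sub_self])
    have h8 : ∑ j, z j * (e (x j) i - e (x' j) i) = 0 := congrFun h4 i
    have hm0 : (m : ℚ) ≠ 0 := by exact_mod_cast hm.ne'
    have h9 : (m : ℚ) * ∑ j, (h j.castSucc - h j.succ) • (e (x j) i : ℚ) =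
        m * ∑ j, (h j.castSucc - h j.succ) • (e (x' j) i : ℚ) := by
      rw [Finset.mul_sum, Finset.mul_sum, ← sub_eq_zero, ← Finset.sum_sub_distrib]
      have h10 : ((∑ j, z j * (e (x j) i - e (x' j) i) : ℤ) : ℚ) = 0 := by rw [h8, Int.cast_zero]
      rw [← h10]
      push_cast
      refine Finset.sum_congr rfl fun j _ => ?_
      rw [hz1 j, smul_eq_mul, smul_eq_mul]
      ring
    exact mul_left_cancel₀ hm0 h9

end Pool.Agent.V7H23.AK
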