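import Pool.Agent.V7H23.AK.Main

set_option autoImplicit false

/-!
# From rearrangements of vectors to sets
-/

open Finset Filter

namespace Pool.Agent.V7H23.AK

/-- growth: exponential against polynomial -/
theorem le_of_pow_le {a b : ℝ} (ha : 0 < a) (hb : 0 < b) (n : ℕ)
    (h : ∀ N : ℕ, a ^ N ≤ ((N : ℝ) + 1) ^ n * b ^ N) : a ≤ b := by
  by_contra hab
  push Not at hab
  have hr : 1 < a / b := (one_lt_div hb).2 hab
  have h1 := tendsto_pow_const_div_const_pow_of_one_lt n hr
  have h2 : ∀ N : ℕ, b / a ≤ (((N + 1 : ℕ) : ℝ)) ^ n / (a / b) ^ (N + 1) := by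
    intro N
    have h3 := h N
    rw [le_div_iff₀ (by positivity)]
    have h4 : b / a * (a / b) ^ (N + 1) = a ^ N / b ^ N := by
      rw [pow_succ, div_pow]
      field_simp
    rw [h4, div_le_iff₀ (by positivity)]
    push_cast
    exact h3
  have h3 : Tendsto (fun N : ℕ => (((N + 1 : ℕ) : ℝ)) ^ n / (a / b) ^ (N + 1)) atTop (nhds 0) :=
    h1.comp (tendsto_add_atTop_nat 1)
  have h4 := ge_of_tendsto' h3 h2
  have : 0 < b / a := by positivity
  linarith

/-- two words with the same numbers of letters are rearrangements of each other -/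
theorem exists_perm {X : Type*} [DecidableEq X] {N : ℕ} (u w : Fin N → X)
    (h : ∀ x, (univ.filter fun i => u i = x).card = (univ.filter fun i => w i = x).card) :
    ∃ σ : Equiv.Perm (Fin N), ∀ i, u (σ i) = w i := by
  have hequiv : ∀ x, Nonempty ({i // w i = x} ≃ {i // u i = x}) := by
    intro x
    refine Finite.card_eq.1 ?_
    rw [Nat.card_eq_fintype_card, Nat.card_eq_fintype_card, Fintype.card_subtype,
      Fintype.card_subtype]
    exact (h x).symm
  exact ⟨Equiv.ofFiberEquiv (f := w) (g := u) fun x => Classical.choice (hequiv x), fun i =>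
    Equiv.ofFiberEquiv_map _ i⟩

/-- The level with `n` children and the symmetric group. -/
abbrev sym (n : ℕ) : Level := ⟨n, ⊤⟩

theorem bound_of_tree {S : Finset ℚ} {κ : ℝ} (hκ : 0 ≤ κ) (h : ∀ n, TreeBound S κ [sym n]) :
    Bound S κ := by
  classical
  intro A
  obtain ⟨big, hbig⟩ : ∃ big, big = (insertNone S).sup fun t => (A.image (val t)).card := ⟨_, rfl⟩
  rw [← hbig]
  rcases A.eq_empty_or_nonempty with hA | hA
  · rw [hA, Finset.image_empty, Finset.card_empty]
    push_cast
    exact Real.rpow_nonneg (Nat.cast_nonneg _) _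
  obtain ⟨X, hX⟩ : ∃ X, X = A.image (val (some (-1))) := ⟨_, rfl⟩
  rw [← hX]
  have hXne : X.Nonempty := hX ▸ hA.image _
  have hXpos : 0 < X.card := Finset.card_pos.2 hXne
  have hle : ∀ t ∈ insertNone S, (A.image (val t)).card ≤ big := fun t ht =>
    hbig ▸ Finset.le_sup (f := fun t => (A.image (val t)).card) ht
  have hbpos : 0 < big := by
    have h1 := hle none (by simp)
    have h2 : 0 < (A.image (val none)).card := Finset.card_pos.2 (hA.image _)
    omega
  -- a point of `A` above each element of `X`
  have hsec : ∀ x : X, ∃ a ∈ A, val (some (-1)) a = x := by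
    rintro ⟨x, hx⟩
    rw [hX, Finset.mem_image] at hx
    obtain ⟨a, ha, h1⟩ := hx
    exact ⟨a, ha, h1⟩
  choose sec hsecA hsecv using hsec
  have hXc : (0 : ℝ) < X.card := by exact_mod_cast hXpos
  have hbc : (0 : ℝ) < (big : ℝ) ^ κ := Real.rpow_pos_of_pos (by exact_mod_cast hbpos) _
  refine le_of_pow_le hXc hbc X.card fun N => ?_
  -- a large class of words
  have hpig : ∃ τ ∈ (Finset.univ : Finset (X → Fin (N + 1))), (Finset.univ : Finset (Fin N → X)).card ≤
      (Finset.univ : Finset (X → Fin (N + 1))).card *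
        ((Finset.univ : Finset (Fin N → X)).filter fun w => (fun x : X =>
          (⟨(univ.filter fun i => w i = x).card, by
            have := Finset.card_filter_le (univ : Finset (Fin N)) (fun i => w i = x)
            rw [Finset.card_univ, Fintype.card_fin] at this
            omega⟩ : Fin (N + 1))) = τ).card := by
    by_contra hcon
    push Not at hcon
    have h1 := Finset.card_eq_sum_card_fiberwise (s := (Finset.univ : Finset (Fin N → X)))
      (t := (Finset.univ : Finset (X → Fin (N + 1)))) (f := fun w => (fun x : X =>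
          (⟨(univ.filter fun i => w i = x).card, by
            have := Finset.card_filter_le (univ : Finset (Fin N)) (fun i => w i = x)
            rw [Finset.card_univ, Fintype.card_fin] at this
            omega⟩ : Fin (N + 1)))) (fun _ _ => Finset.mem_coe.2 (Finset.mem_univ _))
    have hne : (Finset.univ : Finset (X → Fin (N + 1))).Nonempty := ⟨fun _ => 0, mem_univ _⟩
    have h2 : ∑ τ ∈ (Finset.univ : Finset (X → Fin (N + 1))),
        ((Finset.univ : Finset (X → Fin (N + 1))).card *
        ((Finset.univ : Finset (Fin N → X)).filter fun w => (fun x : X =>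
          (⟨(univ.filter fun i => w i = x).card, by
            have := Finset.card_filter_le (univ : Finset (Fin N)) (fun i => w i = x)
            rw [Finset.card_univ, Fintype.card_fin] at this
            omega⟩ : Fin (N + 1))) = τ).card) <
        ∑ _τ ∈ (Finset.univ : Finset (X → Fin (N + 1))), (Finset.univ : Finset (Fin N → X)).card :=
      Finset.sum_lt_sum_of_nonempty hne hcon
    rw [← Finset.mul_sum, ← h1, Finset.sum_const, smul_eq_mul] at h2
    exact lt_irrefl _ h2
  obtain ⟨τ, _, hτ⟩ := hpig
  have hcu : (Finset.univ : Finset (Fin N → X)).card = X.card ^ N := by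
    rw [Finset.card_univ, Fintype.card_fun, Fintype.card_fin, Fintype.card_coe]
  have hct : (Finset.univ : Finset (X → Fin (N + 1))).card = (N + 1) ^ X.card := by
    rw [Finset.card_univ, Fintype.card_fun, Fintype.card_fin, Fintype.card_coe]
  rw [hcu, hct] at hτ
  set cl := (Finset.univ : Finset (Fin N → X)).filter fun w => (fun x : X =>
          (⟨(univ.filter fun i => w i = x).card, by
            have := Finset.card_filter_le (univ : Finset (Fin N)) (fun i => w i = x)
            rw [Finset.card_univ, Fintype.card_fin] at this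
            omega⟩ : Fin (N + 1))) = τ with hcl
  have hclne : cl.Nonempty := by
    rw [Finset.nonempty_iff_ne_empty]
    intro h0
    rw [h0, Finset.card_empty, mul_zero] at hτ
    have : 0 < X.card ^ N := pow_pos hXpos N
    omega
  obtain ⟨w₀, hw₀⟩ := hclne
  -- the labelled sequence
  obtain ⟨z, hz⟩ : ∃ z : Tr (ℤ × ℤ) [sym N], z = fun i => sec (w₀ i) := ⟨_, rfl⟩
  have hT := h N z
  -- lower bound
  have hlow : cl.card ≤ cnt [sym N] (Tr.map (val (some (-1))) [sym N] z) := by
    rw [cnt_eq]
    refine Finset.card_le_card_of_injOn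
      (fun w : Fin N → X => (fun i => ((w i : X) : ℚ) : Tr ℚ [sym N])) ?_ ?_
    · intro w hw
      have hw' := (Finset.mem_filter.1 (Finset.mem_coe.1 hw)).2
      have hw₀' := (Finset.mem_filter.1 hw₀).2
      have h1 : ∀ x, (univ.filter fun i => w₀ i = x).card = (univ.filter fun i => w i = x).card := by
        intro x
        have h2 := congrFun (hw₀'.trans hw'.symm) x
        exact congrArg Fin.val h2
      obtain ⟨σ, hσ⟩ := exists_perm w₀ w h1
      refine Finset.mem_coe.2 (mem_orb.2 ⟨σ, Subgroup.mem_top _, fun i => ?_⟩)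
      change val (some (-1)) (z (σ i)) = ((w i : X) : ℚ)
      rw [hz]
      change val (some (-1)) (sec (w₀ (σ i))) = _
      rw [hσ, hsecv]
    · intro w _ w' _ hww
      funext i
      exact Subtype.ext (congrFun hww i)
  -- upper bound
  have hup : ∀ t ∈ insertNone S, cnt [sym N] (Tr.map (val t) [sym N] z) ≤ big ^ N := by
    intro t ht
    rw [cnt_eq]
    have h1 : (orb [sym N] (Tr.map (val t) [sym N] z) : Finset (Fin N → ℚ)) ⊆
        Fintype.piFinset fun _ : Fin N => A.image (val t) := by
      intro w hw
      obtain ⟨σ, _, hσ⟩ := (mem_orb (z := Tr.map (val t) [sym N] z) (z' := w)).1 hw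
      rw [Fintype.mem_piFinset]
      intro i
      have h2 : val t (z (σ i)) = w i := hσ i
      rw [← h2, hz]
      exact Finset.mem_image_of_mem _ (hsecA _)
    refine (Finset.card_le_card h1).trans ?_
    rw [Fintype.card_piFinset]
    simp only [Finset.prod_const, Finset.card_univ, Fintype.card_fin]
    exact Nat.pow_le_pow_left (hle t ht) N
  have hup' : ((insertNone S).sup fun t => cnt [sym N] (Tr.map (val t) [sym N] z)) ≤ big ^ N :=
    Finset.sup_le hup
  have h1 : (X.card : ℝ) ^ N ≤ ((N : ℝ) + 1) ^ X.card * cl.card := by exact_mod_cast hτ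
  have h2 : (cl.card : ℝ) ≤ ((big : ℝ) ^ κ) ^ N := by
    have h3 : (cl.card : ℝ) ≤ (cnt [sym N] (Tr.map (val (some (-1))) [sym N] z) : ℝ) := by
      exact_mod_cast hlow
    refine h3.trans (hT.trans ?_)
    have h4 : ((((insertNone S).sup fun t => cnt [sym N] (Tr.map (val t) [sym N] z)) : ℕ) : ℝ) ≤
        (big : ℝ) ^ N := by exact_mod_cast hup'
    refine (Real.rpow_le_rpow (Nat.cast_nonneg _) h4 hκ).trans (le_of_eq ?_)
    rw [← Real.rpow_natCast, ← Real.rpow_natCast, ← Real.rpow_mul (Nat.cast_nonneg _),
      ← Real.rpow_mul (Nat.cast_nonneg _), mul_comm]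
  exact h1.trans (mul_le_mul_of_nonneg_left h2 (by positivity))

end Pool.Agent.V7H23.AK
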