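import Pool.Agent.V7H23.AK.Prod

set_option autoImplicit false

/-!
# All finite sets with few differences in every coordinate
-/

open Finset

namespace Pool.Agent.V7H23.AK

/-- **Few differences in every coordinate.** -/
theorem coordinate_bound {W : Type*} [AddCommGroup W] [Module ℚ W] [DecidableEq W] (M r : ℕ)
    (S : Finset ℚ) (hS : (r + 1) * M ^ (2 * r) ≤ S.card) (n : ℕ)
    (A : Finset ((Fin n → W) × (Fin n → W))) (hA : A.Nonempty)
    (hM : ∀ i, (A.image fun a => a.1 i - a.2 i).card ≤ M) :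
    (A.image fun a => a.1 - a.2).card ^ (r ^ 2) ≤
      (max (A.image fun a => a.2).card (S.sup fun t => (A.image fun a => a.1 + t • a.2).card)) ^
        ((r + 1) ^ 2) := by
  classical
  obtain ⟨big, hbig⟩ : ∃ big, big = max (A.image fun a => a.2).card
    (S.sup fun t => (A.image fun a => a.1 + t • a.2).card) := ⟨_, rfl⟩
  rw [← hbig]
  obtain ⟨D, hD⟩ : ∃ D : Finset (Fin n → W), D = A.image fun a => a.1 - a.2 := ⟨_, rfl⟩
  rw [← hD]
  -- one pair for each difference
  obtain ⟨A', hA'sub, hA'D, hinj⟩ : ∃ A' : Finset ((Fin n → W) × (Fin n → W)), A' ⊆ A ∧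
      (A'.image fun a => a.1 - a.2) = D ∧
      ∀ a ∈ A', ∀ b ∈ A', a.1 - a.2 = b.1 - b.2 → a = b := by
    obtain ⟨g, hg⟩ : ∃ g : (Fin n → W) → (Fin n → W) × (Fin n → W),
      ∀ d ∈ D, g d ∈ A ∧ (g d).1 - (g d).2 = d := by
      have h1 : ∀ d : Fin n → W, ∃ a : (Fin n → W) × (Fin n → W),
          d ∈ D → a ∈ A ∧ a.1 - a.2 = d := by
        intro d
        by_cases hd : d ∈ D
        · rw [hD] at hd
          obtain ⟨a, ha, had⟩ := Finset.mem_image.1 hd
          exact ⟨a, fun _ => ⟨ha, had⟩⟩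
        · exact ⟨0, fun h => absurd h hd⟩
      exact ⟨fun d => (h1 d).choose, fun d hd => (h1 d).choose_spec hd⟩
    refine ⟨D.image g, ?_, ?_, ?_⟩
    · intro a ha
      obtain ⟨d, hd, rfl⟩ := Finset.mem_image.1 ha
      exact (hg d hd).1
    · rw [Finset.image_image]
      ext d
      rw [Finset.mem_image]
      constructor
      · rintro ⟨e, he, rfl⟩
        show (g e).1 - (g e).2 ∈ D
        rw [(hg e he).2]
        exact he
      · intro hd
        exact ⟨d, hd, (hg d hd).2⟩
    · intro a ha b hb hab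
      obtain ⟨d, hd, rfl⟩ := Finset.mem_image.1 ha
      obtain ⟨e, he, rfl⟩ := Finset.mem_image.1 hb
      rw [(hg d hd).2, (hg e he).2] at hab
      rw [hab]
  have hDne : D.Nonempty := hD ▸ hA.image _
  have hA' : A'.Nonempty := by
    rw [← hA'D] at hDne
    exact Finset.image_nonempty.1 hDne
  have hcard : A'.card = D.card := by
    rw [← hA'D]
    exact (Finset.card_image_of_injOn fun a ha b hb hab => hinj a ha b hb hab).symm
  -- the parameters
  obtain ⟨S', hS'⟩ : ∃ S' : Finset ℚ, S' = S.erase (-1) := ⟨_, rfl⟩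
  have hne1 : ∀ t ∈ S', 1 + t ≠ 0 := by
    intro t ht h
    rw [hS'] at ht
    exact (Finset.mem_erase.1 ht).1 (by linarith)
  obtain ⟨H, hH⟩ : ∃ H : Finset ℚ, H = insert 0 (S'.image fun t => 1 / (1 + t)) := ⟨_, rfl⟩
  have hHc : S.card ≤ H.card := by
    have h1 : (S'.image fun t => 1 / (1 + t)).card = S'.card := by
      refine Finset.card_image_of_injOn fun t _ t' _ h => ?_
      have h2 : 1 / (1 + t) = 1 / (1 + t') := h
      rw [one_div, one_div] at h2
      have := inv_injective h2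
      linarith
    have h2 : (0 : ℚ) ∉ S'.image fun t => 1 / (1 + t) := by
      rw [Finset.mem_image]
      rintro ⟨t, ht, h3⟩
      exact (one_div_ne_zero (hne1 t ht)) h3
    rw [hH, Finset.card_insert_of_notMem h2, h1, hS']
    have h3 := Finset.pred_card_le_card_erase (s := S) (a := (-1 : ℚ))
    omega
  have hle : ∀ h ∈ H, (A'.image (pr h)).card ≤ big := by
    intro h hh
    refine (Finset.card_le_card (Finset.image_subset_image hA'sub)).trans ?_
    rw [hH, Finset.mem_insert] at hh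
    rcases hh with rfl | hh
    · have h1 : (A.image (pr 0)) = A.image fun a => a.2 :=
        Finset.image_congr fun a _ => pr_zero a
      rw [h1, hbig]
      exact le_max_left _ _
    · obtain ⟨t, ht, rfl⟩ := Finset.mem_image.1 hh
      have h2 : 1 / (1 / (1 + t)) - 1 = t := by
        rw [one_div_one_div]
        ring
      rw [card_pr A (one_div_ne_zero (hne1 t ht)), h2, hbig]
      have htS : t ∈ S := by
        rw [hS'] at ht
        exact (Finset.mem_erase.1 ht).2
      exact (Finset.le_sup (f := fun t => (A.image fun a => a.1 + t • a.2).card) htS).trans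
        (le_max_right _ _)
  have hHpos : 0 < H.card := Finset.card_pos.2 ⟨0, by rw [hH]; exact Finset.mem_insert_self _ _⟩
  have hbpos : 0 < big := by
    have := hle 0 (by rw [hH]; exact Finset.mem_insert_self _ _)
    exact (Finset.card_pos.2 (hA'.image _)).trans_le this
  obtain ⟨T, hT⟩ : ∃ T : Finset (Fin (r + 1) → ℚ), T = Fintype.piFinset fun _ => H := ⟨_, rfl⟩
  have hTc : T.card = H.card ^ (r + 1) := by
    rw [hT, Fintype.card_piFinset, Finset.prod_const, Finset.card_univ, Fintype.card_fin]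
  obtain ⟨P, hP⟩ : ∃ P : Fin n → Finset W, P = fun i => A.image fun a => a.1 i - a.2 i := ⟨_, rfl⟩
  obtain ⟨B, hB⟩ : ∃ B : (Fin (r + 1) → ℚ) → Finset (Fin n),
    B = fun h => univ.filter fun i => ¬ Good h (P i) := ⟨_, rfl⟩
  have hmB : ∀ h i, i ∈ B h ↔ ¬ Good h (P i) := by
    intro h i
    rw [hB]
    simp
  obtain ⟨L, hL⟩ : ∃ L, L = Real.log D.card := ⟨_, rfl⟩
  obtain ⟨b, hb⟩ : ∃ b, b = Real.log big := ⟨_, rfl⟩
  have hL0 : 0 ≤ L := hL ▸ Real.log_natCast_nonneg _
  have hD0 : (0 : ℝ) < D.card := by exact_mod_cast Finset.card_pos.2 hDne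
  have h1 : ∀ h ∈ T, (D.card : ℝ) * (r * L - (r + 1) * b) ≤ r * Ent D (univ \ B h) := by
    intro h hh
    rw [hT, Fintype.mem_piFinset] at hh
    have h2 := ent_bound h A' hA' hinj P (fun a ha i => by
      rw [hP]
      exact Finset.mem_image.2 ⟨a, hA'sub ha, rfl⟩) (B h) (fun i hi => by
      by_contra hcon
      exact hi ((hmB h i).2 hcon))
    rw [hA'D, hcard, ← hL] at h2
    have h3 : ∑ j, Real.log ((A'.image (pr (h j))).card : ℝ) ≤ (r + 1) * b := by
      refine (Finset.sum_le_sum fun j _ => Real.log_le_log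
        (Nat.cast_pos.2 (Finset.card_pos.2 (hA'.image _))) (Nat.cast_le.2 (hle _ (hh j)))).trans ?_
      rw [Finset.sum_const, Finset.card_univ, Fintype.card_fin, nsmul_eq_mul, ← hb]
      push_cast
      exact le_rfl
    refine le_trans (mul_le_mul_of_nonneg_left ?_ hD0.le) h2
    linarith
  have h2 := shearer D T B ((M : ℝ) ^ (2 * r) * (H.card : ℝ) ^ r) fun i => by
    have h3 := card_bad (r := r) H (P i) (M := M) (by rw [hP]; exact hM i)
    have h4 : (T.filter fun t => i ∈ B t).card ≤ M ^ (2 * r) * H.card ^ r := by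
      refine le_trans (Finset.card_le_card fun h hh => ?_) h3
      obtain ⟨h5, h6⟩ := Finset.mem_filter.1 hh
      rw [hT] at h5
      exact Finset.mem_filter.2 ⟨h5, (hmB h i).1 h6⟩
    exact_mod_cast h4
  have h3 := Finset.sum_le_sum h1
  rw [Finset.sum_const, nsmul_eq_mul, hTc, ← Finset.mul_sum] at h3
  rw [← hL] at h2
  have hr0 : (0 : ℝ) ≤ r := Nat.cast_nonneg r
  have h4 := h3.trans (mul_le_mul_of_nonneg_left h2 hr0)
  push_cast at h4
  have hs0 : (0 : ℝ) < H.card := Nat.cast_pos.2 hHpos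
  have hsr : (0 : ℝ) < (H.card : ℝ) ^ r := pow_pos hs0 r
  have h5 : ((H.card : ℝ) * (r * L - (r + 1) * b)) * ((H.card : ℝ) ^ r * D.card) ≤
      (r * (M : ℝ) ^ (2 * r) * L) * ((H.card : ℝ) ^ r * D.card) := by
    calc _ = (H.card : ℝ) ^ (r + 1) * ((D.card : ℝ) * (r * L - (r + 1) * b)) := by ring
      _ ≤ _ := h4
      _ = _ := by ring
  have h6 := le_of_mul_le_mul_right h5 (mul_pos hsr hD0)
  have h7 : ((r : ℝ) + 1) * (M : ℝ) ^ (2 * r) ≤ H.card := by
    have : (r + 1) * M ^ (2 * r) ≤ H.card := hS.trans hHc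
    exact_mod_cast this
  have h8 : (H.card : ℝ) * ((r + 1) * (r * L - (r + 1) * b)) ≤ H.card * (r * L) := by
    have h9 : (r * L) * (((r : ℝ) + 1) * (M : ℝ) ^ (2 * r)) ≤ (r * L) * H.card :=
      mul_le_mul_of_nonneg_left h7 (mul_nonneg hr0 hL0)
    have h10 := mul_le_mul_of_nonneg_left h6 (by linarith : (0 : ℝ) ≤ (r : ℝ) + 1)
    linarith
  have h9 := le_of_mul_le_mul_left h8 hs0
  have h10 : (r : ℝ) ^ 2 * L ≤ ((r : ℝ) + 1) ^ 2 * b := by nlinarith
  have hb0 : (0 : ℝ) < big := Nat.cast_pos.2 hbpos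
  have h11 : (D.card : ℝ) ^ (r ^ 2) ≤ (big : ℝ) ^ ((r + 1) ^ 2) := by
    rw [← Real.log_le_log_iff (pow_pos hD0 _) (pow_pos hb0 _), Real.log_pow, Real.log_pow, ← hL,
      ← hb]
    push_cast
    exact h10
  exact_mod_cast h11

end Pool.Agent.V7H23.AK
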