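import Pool.Agent.V7H23.AK.Coord

set_option autoImplicit false

/-!
# Coordinates of the differences only
-/

open Finset

namespace Pool.Agent.V7H23.AK

section ent

variable {V : Type*} [AddCommGroup V] [Module ℚ V] [DecidableEq V]
  {W : Type*} [AddCommGroup W] [Module ℚ W] [DecidableEq W] {n : ℕ}

theorem ent_bound' {r : ℕ} (h : Fin (r + 1) → ℚ) (A : Finset (V × V)) (κ : V → Fin n → W)
    (hA : A.Nonempty) (hinj : ∀ a ∈ A, ∀ b ∈ A, κ (a.1 - a.2) = κ (b.1 - b.2) → a = b)
    (P : Fin n → Finset W) (hP : ∀ a ∈ A, ∀ i, κ (a.1 - a.2) i ∈ P i) (B : Finset (Fin n))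
    (hB : ∀ i, i ∉ B → Good h (P i))
    (hlin : ∀ e e' : Fin r → V, (∀ j, e j ∈ A.image fun a => a.1 - a.2) →
      (∀ j, e' j ∈ A.image fun a => a.1 - a.2) →
      ∑ j, (h j.castSucc - h j.succ) • e j = ∑ j, (h j.castSucc - h j.succ) • e' j →
      ∀ i, ∑ j, (h j.castSucc - h j.succ) • κ (e j) i =
        ∑ j, (h j.castSucc - h j.succ) • κ (e' j) i) :
    A.card * (r * Real.log A.card - ∑ j, Real.log ((A.image (pr (h j))).card : ℝ)) ≤
      r * Ent (A.image fun a => κ (a.1 - a.2)) (univ \ B) := by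
  classical
  obtain ⟨D, hD⟩ : ∃ D : Finset (Fin n → W), D = A.image fun a => κ (a.1 - a.2) := ⟨_, rfl⟩
  obtain ⟨F, hF⟩ : ∃ F : Finset (Fin n), F = univ \ B := ⟨_, rfl⟩
  rw [← hD, ← hF]
  have hmem : ∀ a ∈ A, κ (a.1 - a.2) ∈ D := fun a ha => hD ▸ Finset.mem_image.2 ⟨a, ha, rfl⟩
  obtain ⟨w, hw⟩ : ∃ w : (Fin n → W) → ℝ, w = fun d => 1 / (cls D (rest F) d : ℝ) := ⟨_, rfl⟩
  have hwpos : ∀ d ∈ D, 0 < w d := by
    intro d hd
    rw [hw]
    exact one_div_pos.2 (cls_posR _ hd)
  obtain ⟨v, hv⟩ : ∃ v : Fin (r + 1) → V × V → ℝ,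
    v = fun j a => if j = Fin.last r then 1 else w (κ (a.1 - a.2)) := ⟨_, rfl⟩
  have hvl : ∀ a, v (Fin.last r) a = 1 := by
    intro a
    rw [hv]
    exact if_pos rfl
  have hvc : ∀ (j : Fin r) a, v j.castSucc a = w (κ (a.1 - a.2)) := by
    intro j a
    rw [hv]
    exact if_neg (Fin.castSucc_lt_last j).ne
  have hvpos : ∀ j, ∀ a ∈ A, 0 < v j a := by
    intro j a ha
    refine Fin.lastCases ?_ (fun j => ?_) j
    · rw [hvl]
      exact one_pos
    · rw [hvc]
      exact hwpos _ (hmem a ha)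
  obtain ⟨hpos, hlog⟩ := wsum_log A hA (r + 1) (fun j => pr (h j)) v hvpos
  have hA0 : (0 : ℝ) < A.card := by exact_mod_cast Finset.card_pos.2 hA
  -- the total weight
  have htot : ∑ a ∈ A, wsum A (r + 1) (fun j => pr (h j)) v a ≤ (A.card : ℝ) ^ 2 := by
    have h1 : ∑ a ∈ A, wsum A (r + 1) (fun j => pr (h j)) v a =
        ∑ p ∈ Paths A (r + 1) (fun j => pr (h j)), ∏ j, v j (p j.succ) := by
      unfold wsum
      exact Finset.sum_fiberwise_of_maps_to (g := fun p : Fin (r + 1 + 1) → _ => p 0)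
        (fun p hp => (mem_paths.1 hp).1 0) _
    have h2 : ∑ p ∈ Paths A (r + 1) (fun j => pr (h j)), ∏ j, v j (p j.succ) =
        ∑ y ∈ A ×ˢ A, ∑ p ∈ (Paths A (r + 1) (fun j => pr (h j))).filter
          (fun p => (p 0, p (Fin.last (r + 1))) = y), ∏ j, v j (p j.succ) :=
      (Finset.sum_fiberwise_of_maps_to
        (fun p hp => Finset.mem_product.2 ⟨(mem_paths.1 hp).1 _, (mem_paths.1 hp).1 _⟩) _).symm
    rw [h1, h2]
    have h3 : ∀ y ∈ A ×ˢ A, ∑ p ∈ (Paths A (r + 1) (fun j => pr (h j))).filter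
          (fun p => (p 0, p (Fin.last (r + 1))) = y), ∏ j, v j (p j.succ) ≤ 1 := by
      intro y _
      rcases ((Paths A (r + 1) (fun j => pr (h j))).filter
          (fun p => (p 0, p (Fin.last (r + 1))) = y)).eq_empty_or_nonempty with he | ⟨p₀, hp₀⟩
      · rw [he, Finset.sum_empty]
        exact zero_le_one
      · obtain ⟨hp₀1, hp₀2⟩ := Finset.mem_filter.1 hp₀
        obtain ⟨δ, hδ⟩ : ∃ δ : (Fin (r + 1 + 1) → V × V) → Fin r → Fin n → W,
          δ = fun p j => κ ((p (Fin.castSucc (Fin.succ j))).1 -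
            (p (Fin.castSucc (Fin.succ j))).2) := ⟨_, rfl⟩
        have h4 : ∀ p, ∏ j, v j (p j.succ) = ∏ j : Fin r, w (δ p j) := by
          intro p
          rw [Fin.prod_univ_castSucc, hvl, mul_one]
          refine Finset.prod_congr rfl fun j _ => ?_
          rw [hvc, Fin.succ_castSucc, hδ]
        have h5 : ∀ p ∈ (Paths A (r + 1) (fun j => pr (h j))).filter
            (fun p => (p 0, p (Fin.last (r + 1))) = y), ∀ j, rest F (δ p j) = rest F (δ p₀ j) := by
          intro p hp j
          obtain ⟨hp1, hp2⟩ := Finset.mem_filter.1 hp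
          have h6 := telescope h p (mem_paths.1 hp1).2
          have h7 := telescope h p₀ (mem_paths.1 hp₀1).2
          have h8 := Prod.ext_iff.1 (hp2.trans hp₀2.symm)
          have h9 : p 0 = p₀ 0 := h8.1
          have h10 : p (Fin.last (r + 1)) = p₀ (Fin.last (r + 1)) := h8.2
          rw [h9, h10, ← h7] at h6
          rw [rest_eq_iff]
          intro i hi
          have hiB : i ∉ B := by
            rw [hF] at hi
            exact (Finset.mem_sdiff.1 hi).2
          have h11 := hB i hiB (fun j => δ p j i) (fun j => δ p₀ j i)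
            (fun j => by
              rw [hδ]
              exact hP _ ((mem_paths.1 hp1).1 _) i)
            (fun j => by
              rw [hδ]
              exact hP _ ((mem_paths.1 hp₀1).1 _) i)
            (by
              rw [hδ]
              exact hlin _ _
                (fun j => Finset.mem_image.2 ⟨_, (mem_paths.1 hp1).1 _, rfl⟩)
                (fun j => Finset.mem_image.2 ⟨_, (mem_paths.1 hp₀1).1 _, rfl⟩) h6 i)
          exact congrFun h11 j
        rw [Finset.sum_congr rfl fun p _ => h4 p]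
        have hinj2 : Set.InjOn δ ((Paths A (r + 1) (fun j => pr (h j))).filter
            (fun p => (p 0, p (Fin.last (r + 1))) = y)) := by
          intro p hp q hq hpq
          obtain ⟨hp1, hp2⟩ := Finset.mem_filter.1 (Finset.mem_coe.1 hp)
          obtain ⟨hq1, hq2⟩ := Finset.mem_filter.1 (Finset.mem_coe.1 hq)
          have h8 := Prod.ext_iff.1 (hp2.trans hq2.symm)
          refine path_inj h hp1 hq1 h8.1 h8.2 fun j => ?_
          have := congrFun hpq j
          rw [hδ] at this
          rw [hinj _ ((mem_paths.1 hp1).1 _) _ ((mem_paths.1 hq1).1 _) this]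
        rw [← Finset.sum_image (f := fun e : Fin r → Fin n → W => ∏ j : Fin r, w (e j)) hinj2]
        have h13 : ((Paths A (r + 1) (fun j => pr (h j))).filter
            (fun p => (p 0, p (Fin.last (r + 1))) = y)).image δ ⊆
            Fintype.piFinset fun j => D.filter fun d => rest F d = rest F (δ p₀ j) := by
          intro e he
          obtain ⟨p, hp, rfl⟩ := Finset.mem_image.1 he
          rw [Fintype.mem_piFinset]
          intro j
          refine Finset.mem_filter.2 ⟨?_, h5 p hp j⟩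
          rw [hδ]
          exact hmem _ ((mem_paths.1 (Finset.mem_filter.1 hp).1).1 _)
        refine (Finset.sum_le_sum_of_subset_of_nonneg h13 fun e he _ => ?_).trans ?_
        · refine Finset.prod_nonneg fun j _ => ?_
          rw [Fintype.mem_piFinset] at he
          exact (hwpos _ (Finset.mem_filter.1 (he j)).1).le
        · rw [← Finset.prod_univ_sum]
          refine Finset.prod_le_one (fun j _ => ?_) fun j _ => ?_
          · exact Finset.sum_nonneg fun d hd => (hwpos _ (Finset.mem_filter.1 hd).1).le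
          · rw [hw]
            exact sum_inv_cls D (rest F) _
    refine (Finset.sum_le_sum h3).trans ?_
    rw [Finset.sum_const, nsmul_eq_mul, mul_one, Finset.card_product, sq]
    push_cast
    exact le_rfl
  have hsum := sum_log_le hA (fun a => wsum A (r + 1) (fun j => pr (h j)) v a) hpos
  have h20 : Real.log (∑ a ∈ A, wsum A (r + 1) (fun j => pr (h j)) v a) ≤ 2 * Real.log A.card := by
    have := Real.log_le_log (Finset.sum_pos hpos hA) htot
    rwa [Real.log_pow] at this
  have h21 : ∑ j, ∑ a ∈ A, Real.log (v j a) = -(r * Ent D F) := by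
    rw [Fin.sum_univ_castSucc]
    have h22 : ∑ a ∈ A, Real.log (v (Fin.last r) a) = 0 :=
      Finset.sum_eq_zero fun a _ => by rw [hvl, Real.log_one]
    have h23 : ∀ j : Fin r, ∑ a ∈ A, Real.log (v j.castSucc a) = -Ent D F := by
      intro j
      unfold Ent
      rw [hD, Finset.sum_image fun a ha b hb hab => hinj a ha b hb hab, ← hD,
        ← Finset.sum_neg_distrib]
      refine Finset.sum_congr rfl fun a _ => ?_
      rw [hvc, hw]
      show Real.log (1 / _) = _
      rw [one_div, Real.log_inv]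
    rw [h22, Finset.sum_congr rfl fun j _ => h23 j, Finset.sum_const, nsmul_eq_mul, Finset.card_univ,
      Fintype.card_fin, add_zero]
    ring
  rw [h21] at hlog
  push_cast at hlog
  have h24 : (A.card : ℝ) * (Real.log (∑ a ∈ A, wsum A (r + 1) (fun j => pr (h j)) v a) -
      Real.log A.card) ≤ A.card * Real.log A.card :=
    mul_le_mul_of_nonneg_left (by linarith) hA0.le
  have h25 : (A.card : ℝ) * (r * Real.log A.card -
      ∑ j, Real.log ((A.image (pr (h j))).card : ℝ)) =
      A.card * ((r + 1) * Real.log A.card -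
      ∑ j, Real.log ((A.image (pr (h j))).card : ℝ)) - A.card * Real.log A.card := by ring
  rw [h25]
  linarith

/-- the parameters of the slopes -/
def param (S : Finset ℚ) : Finset ℚ := insert 0 ((S.erase (-1)).image fun t => 1 / (1 + t))

/-- **Few differences in every coordinate.** -/
theorem coordinate_bound' (M r : ℕ) (S : Finset ℚ) (hS : (r + 1) * M ^ (2 * r) ≤ S.card)
    (A : Finset (V × V)) (κ : V → Fin n → W) (hA : A.Nonempty)
    (hκ : ∀ d ∈ A.image fun a => a.1 - a.2, ∀ e ∈ A.image fun a => a.1 - a.2, κ d = κ e → d = e)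
    (hM : ∀ i, (A.image fun a => κ (a.1 - a.2) i).card ≤ M)
    (hlin : ∀ h : Fin (r + 1) → ℚ, (∀ j, h j ∈ param S) → ∀ e e' : Fin r → V,
      (∀ j, e j ∈ A.image fun a => a.1 - a.2) → (∀ j, e' j ∈ A.image fun a => a.1 - a.2) →
      ∑ j, (h j.castSucc - h j.succ) • e j = ∑ j, (h j.castSucc - h j.succ) • e' j →
      ∀ i, ∑ j, (h j.castSucc - h j.succ) • κ (e j) i =
        ∑ j, (h j.castSucc - h j.succ) • κ (e' j) i) :
    (A.image fun a => a.1 - a.2).card ^ (r ^ 2) ≤
      (max (A.image fun a => a.2).card (S.sup fun t => (A.image fun a => a.1 + t • a.2).card)) ^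
        ((r + 1) ^ 2) := by
  classical
  obtain ⟨big, hbig⟩ : ∃ big, big = max (A.image fun a => a.2).card
    (S.sup fun t => (A.image fun a => a.1 + t • a.2).card) := ⟨_, rfl⟩
  rw [← hbig]
  obtain ⟨D, hD⟩ : ∃ D : Finset V, D = A.image fun a => a.1 - a.2 := ⟨_, rfl⟩
  rw [← hD]
  rw [← hD] at hκ hlin
  -- one pair for each difference
  obtain ⟨A', hA'sub, hA'D, hinj⟩ : ∃ A' : Finset (V × V), A' ⊆ A ∧
      (A'.image fun a => a.1 - a.2) = D ∧
      ∀ a ∈ A', ∀ b ∈ A', a.1 - a.2 = b.1 - b.2 → a = b := by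
    obtain ⟨g, hg⟩ : ∃ g : V → V × V,
      ∀ d ∈ D, g d ∈ A ∧ (g d).1 - (g d).2 = d := by
      have h1 : ∀ d : V, ∃ a : V × V,
          d ∈ D → a ∈ A ∧ a.1 - a.2 = d := by
        intro d
        by_cases hd : d ∈ D
        · rw [hD] at hd
          obtain ⟨a, ha, had⟩ := Finset.mem_image.1 hd
          exact ⟨a, fun _ => ⟨ha, had⟩⟩
        · exact ⟨0, fun h => absurd h hd⟩
      exact ⟨fun d => (h1 d).choose, fun d hd => (h1 d).choose_spec hd⟩
    refine ⟨D.image g, ?_, ?_, ?_⟩
    · intro a ha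
      obtain ⟨d, hd, rfl⟩ := Finset.mem_image.1 ha
      exact (hg d hd).1
    · rw [Finset.image_image]
      ext d
      rw [Finset.mem_image]
      constructor
      · rintro ⟨e, he, rfl⟩
        show (g e).1 - (g e).2 ∈ D
        rw [(hg e he).2]
        exact he
      · intro hd
        exact ⟨d, hd, (hg d hd).2⟩
    · intro a ha b hb hab
      obtain ⟨d, hd, rfl⟩ := Finset.mem_image.1 ha
      obtain ⟨e, he, rfl⟩ := Finset.mem_image.1 hb
      rw [(hg d hd).2, (hg e he).2] at hab
      rw [hab]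
  have hDne : D.Nonempty := hD ▸ hA.image _
  have hA' : A'.Nonempty := by
    rw [← hA'D] at hDne
    exact Finset.image_nonempty.1 hDne
  have hcard : A'.card = D.card := by
    rw [← hA'D]
    exact (Finset.card_image_of_injOn fun a ha b hb hab => hinj a ha b hb hab).symm
  -- the parameters
  obtain ⟨S', hS'⟩ : ∃ S' : Finset ℚ, S' = S.erase (-1) := ⟨_, rfl⟩
  have hne1 : ∀ t ∈ S', 1 + t ≠ 0 := by
    intro t ht h
    rw [hS'] at ht
    exact (Finset.mem_erase.1 ht).1 (by linarith)
  obtain ⟨H, hH⟩ : ∃ H : Finset ℚ, H = insert 0 (S'.image fun t => 1 / (1 + t)) := ⟨_, rfl⟩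
  have hHp : param S = H := by
    rw [hH, hS']
    rfl
  rw [hHp] at hlin
  have hHc : S.card ≤ H.card := by
    have h1 : (S'.image fun t => 1 / (1 + t)).card = S'.card := by
      refine Finset.card_image_of_injOn fun t _ t' _ h => ?_
      have h2 : 1 / (1 + t) = 1 / (1 + t') := h
      rw [one_div, one_div] at h2
      have := inv_injective h2
      linarith
    have h2 : (0 : ℚ) ∉ S'.image fun t => 1 / (1 + t) := by
      rw [Finset.mem_image]
      rintro ⟨t, ht, h3⟩
      exact (one_div_ne_zero (hne1 t ht)) h3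
    rw [hH, Finset.card_insert_of_notMem h2, h1, hS']
    have h3 := Finset.pred_card_le_card_erase (s := S) (a := (-1 : ℚ))
    omega
  have hle : ∀ h ∈ H, (A'.image (pr h)).card ≤ big := by
    intro h hh
    refine (Finset.card_le_card (Finset.image_subset_image hA'sub)).trans ?_
    rw [hH, Finset.mem_insert] at hh
    rcases hh with rfl | hh
    · have h1 : (A.image (pr 0)) = A.image fun a => a.2 :=
        Finset.image_congr fun a _ => pr_zero a
      rw [h1, hbig]
      exact le_max_left _ _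
    · obtain ⟨t, ht, rfl⟩ := Finset.mem_image.1 hh
      have h2 : 1 / (1 / (1 + t)) - 1 = t := by
        rw [one_div_one_div]
        ring
      rw [card_pr A (one_div_ne_zero (hne1 t ht)), h2, hbig]
      have htS : t ∈ S := by
        rw [hS'] at ht
        exact (Finset.mem_erase.1 ht).2
      exact (Finset.le_sup (f := fun t => (A.image fun a => a.1 + t • a.2).card) htS).trans
        (le_max_right _ _)
  have hHpos : 0 < H.card := Finset.card_pos.2 ⟨0, by rw [hH]; exact Finset.mem_insert_self _ _⟩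
  have hbpos : 0 < big := by
    have := hle 0 (by rw [hH]; exact Finset.mem_insert_self _ _)
    exact (Finset.card_pos.2 (hA'.image _)).trans_le this
  obtain ⟨T, hT⟩ : ∃ T : Finset (Fin (r + 1) → ℚ), T = Fintype.piFinset fun _ => H := ⟨_, rfl⟩
  have hTc : T.card = H.card ^ (r + 1) := by
    rw [hT, Fintype.card_piFinset, Finset.prod_const, Finset.card_univ, Fintype.card_fin]
  obtain ⟨P, hP⟩ : ∃ P : Fin n → Finset W, P = fun i => A.image fun a => κ (a.1 - a.2) i := ⟨_, rfl⟩
  obtain ⟨E, hE⟩ : ∃ E : Finset (Fin n → W), E = D.image κ := ⟨_, rfl⟩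
  have hEc : E.card = D.card := by
    rw [hE]
    exact Finset.card_image_of_injOn fun d hd e he hde => hκ d hd e he hde
  have hA'E : (A'.image fun a => κ (a.1 - a.2)) = E := by
    rw [hE, ← hA'D, Finset.image_image]
    rfl
  have hmemD : ∀ a ∈ A', a.1 - a.2 ∈ D := fun a ha => hA'D ▸ Finset.mem_image.2 ⟨a, ha, rfl⟩
  obtain ⟨B, hB⟩ : ∃ B : (Fin (r + 1) → ℚ) → Finset (Fin n),
    B = fun h => univ.filter fun i => ¬ Good h (P i) := ⟨_, rfl⟩
  have hmB : ∀ h i, i ∈ B h ↔ ¬ Good h (P i) := by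
    intro h i
    rw [hB]
    simp
  obtain ⟨L, hL⟩ : ∃ L, L = Real.log D.card := ⟨_, rfl⟩
  obtain ⟨b, hb⟩ : ∃ b, b = Real.log big := ⟨_, rfl⟩
  have hL0 : 0 ≤ L := hL ▸ Real.log_natCast_nonneg _
  have hD0 : (0 : ℝ) < D.card := by exact_mod_cast Finset.card_pos.2 hDne
  have h1 : ∀ h ∈ T, (D.card : ℝ) * (r * L - (r + 1) * b) ≤ r * Ent E (univ \ B h) := by
    intro h hh
    rw [hT, Fintype.mem_piFinset] at hh
    have h2 := ent_bound' h A' κ hA'
      (fun a ha b hb hab => hinj a ha b hb (hκ _ (hmemD a ha) _ (hmemD b hb) hab))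
      P (fun a ha i => by
      rw [hP]
      exact Finset.mem_image.2 ⟨a, hA'sub ha, rfl⟩) (B h) (fun i hi => by
      by_contra hcon
      exact hi ((hmB h i).2 hcon)) (by
      rw [hA'D]
      exact hlin h hh)
    rw [hA'E, hcard, ← hL] at h2
    have h3 : ∑ j, Real.log ((A'.image (pr (h j))).card : ℝ) ≤ (r + 1) * b := by
      refine (Finset.sum_le_sum fun j _ => Real.log_le_log
        (Nat.cast_pos.2 (Finset.card_pos.2 (hA'.image _))) (Nat.cast_le.2 (hle _ (hh j)))).trans ?_
      rw [Finset.sum_const, Finset.card_univ, Fintype.card_fin, nsmul_eq_mul, ← hb]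
      push_cast
      exact le_rfl
    refine le_trans (mul_le_mul_of_nonneg_left ?_ hD0.le) h2
    linarith
  have h2 := shearer E T B ((M : ℝ) ^ (2 * r) * (H.card : ℝ) ^ r) fun i => by
    have h3 := card_bad (r := r) H (P i) (M := M) (by rw [hP]; exact hM i)
    have h4 : (T.filter fun t => i ∈ B t).card ≤ M ^ (2 * r) * H.card ^ r := by
      refine le_trans (Finset.card_le_card fun h hh => ?_) h3
      obtain ⟨h5, h6⟩ := Finset.mem_filter.1 hh
      rw [hT] at h5
      exact Finset.mem_filter.2 ⟨h5, (hmB h i).1 h6⟩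
    exact_mod_cast h4
  have h3 := Finset.sum_le_sum h1
  rw [Finset.sum_const, nsmul_eq_mul, hTc, ← Finset.mul_sum] at h3
  rw [hEc, ← hL] at h2
  have hr0 : (0 : ℝ) ≤ r := Nat.cast_nonneg r
  have h4 := h3.trans (mul_le_mul_of_nonneg_left h2 hr0)
  push_cast at h4
  have hs0 : (0 : ℝ) < H.card := Nat.cast_pos.2 hHpos
  have hsr : (0 : ℝ) < (H.card : ℝ) ^ r := pow_pos hs0 r
  have h5 : ((H.card : ℝ) * (r * L - (r + 1) * b)) * ((H.card : ℝ) ^ r * D.card) ≤
      (r * (M : ℝ) ^ (2 * r) * L) * ((H.card : ℝ) ^ r * D.card) := by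
    calc _ = (H.card : ℝ) ^ (r + 1) * ((D.card : ℝ) * (r * L - (r + 1) * b)) := by ring
      _ ≤ _ := h4
      _ = _ := by ring
  have h6 := le_of_mul_le_mul_right h5 (mul_pos hsr hD0)
  have h7 : ((r : ℝ) + 1) * (M : ℝ) ^ (2 * r) ≤ H.card := by
    have : (r + 1) * M ^ (2 * r) ≤ H.card := hS.trans hHc
    exact_mod_cast this
  have h8 : (H.card : ℝ) * ((r + 1) * (r * L - (r + 1) * b)) ≤ H.card * (r * L) := by
    have h9 : (r * L) * (((r : ℝ) + 1) * (M : ℝ) ^ (2 * r)) ≤ (r * L) * H.card :=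
      mul_le_mul_of_nonneg_left h7 (mul_nonneg hr0 hL0)
    have h10 := mul_le_mul_of_nonneg_left h6 (by linarith : (0 : ℝ) ≤ (r : ℝ) + 1)
    linarith
  have h9 := le_of_mul_le_mul_left h8 hs0
  have h10 : (r : ℝ) ^ 2 * L ≤ ((r : ℝ) + 1) ^ 2 * b := by nlinarith
  have hb0 : (0 : ℝ) < big := Nat.cast_pos.2 hbpos
  have h11 : (D.card : ℝ) ^ (r ^ 2) ≤ (big : ℝ) ^ ((r + 1) ^ 2) := by
    rw [← Real.log_le_log_iff (pow_pos hD0 _) (pow_pos hb0 _), Real.log_pow, Real.log_pow, ← hL,
      ← hb]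
    push_cast
    exact h10
  exact_mod_cast h11


end ent

end Pool.Agent.V7H23.AK
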