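import Pool.Agent.V7H23.AK.Node
import Mathlib.GroupTheory.Perm.DomMulAct

set_option autoImplicit false

/-!
# Colourings under the symmetric group: few values of one projection
-/

open Finset

namespace Pool.Agent.V7H23.AK

variable {n : ℕ} {X Y : Type*} [DecidableEq X] [DecidableEq Y]

/-- the product of the factorials of the sizes of the colour classes in `s` -/
def fac (s : Finset (Fin n)) (f : Fin n → X) : ℕ :=
  ∏ a ∈ s.image f, (Nat.factorial (s.filter fun i => f i = a).card)

theorem fac_pos (s : Finset (Fin n)) (f : Fin n → X) : 0 < fac s f :=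
  Finset.prod_pos fun _ _ => Nat.factorial_pos _

theorem fac_insert {s : Finset (Fin n)} {j : Fin n} (hj : j ∉ s) (f : Fin n → X) :
    fac (insert j s) f = fac s f * ((s.filter fun i => f i = f j).card + 1) := by
  have h1 : fac s f = ∏ a ∈ insert (f j) (s.image f),
      (Nat.factorial (s.filter fun i => f i = a).card) := by
    unfold fac
    by_cases h : f j ∈ s.image f
    · rw [Finset.insert_eq_of_mem h]
    · rw [Finset.prod_insert h]
      have h2 : (s.filter fun i => f i = f j) = ∅ := by
        rw [Finset.filter_eq_empty_iff]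
        intro i hi hij
        exact h (Finset.mem_image.2 ⟨i, hi, hij⟩)
      rw [h2, Finset.card_empty, Nat.factorial_zero, one_mul]
  have h2 : f j ∈ insert (f j) (s.image f) := Finset.mem_insert_self _ _
  rw [h1, ← Finset.mul_prod_erase _ _ h2]
  unfold fac
  rw [Finset.image_insert, ← Finset.mul_prod_erase _ _ h2]
  have h3 : ((insert j s).filter fun i => f i = f j).card =
      (s.filter fun i => f i = f j).card + 1 := by
    rw [Finset.filter_insert, if_pos rfl, Finset.card_insert_of_notMem]
    intro h
    exact hj (Finset.mem_filter.1 h).1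
  have h4 : ∏ a ∈ (insert (f j) (s.image f)).erase (f j),
      (Nat.factorial ((insert j s).filter fun i => f i = a).card) =
      ∏ a ∈ (insert (f j) (s.image f)).erase (f j),
      (Nat.factorial (s.filter fun i => f i = a).card) := by
    refine Finset.prod_congr rfl fun a ha => ?_
    rw [Finset.filter_insert, if_neg]
    exact (Finset.ne_of_mem_erase ha).symm
  rw [h3, h4, Nat.factorial_succ]
  ring

/-- the logarithm of the product of the factorials -/
noncomputable def lf (s : Finset (Fin n)) (f : Fin n → X) : ℝ := Real.log (fac s f)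

theorem lf_insert {s : Finset (Fin n)} {j : Fin n} (hj : j ∉ s) (f : Fin n → X) :
    lf (insert j s) f = lf s f + Real.log (((s.filter fun i => f i = f j).card : ℝ) + 1) := by
  unfold lf
  rw [fac_insert hj]
  push_cast
  rw [Real.log_mul]
  · exact_mod_cast (fac_pos s f).ne'
  · positivity

theorem rearr_fac (f : Fin n → X) :
    rearr (⊤ : Subgroup (Equiv.Perm (Fin n))) f * fac univ f = Nat.factorial n := by
  rw [rearr_eq, Subgroup.relIndex_top_right]
  have h1 : Nat.card (st (⊤ : Subgroup (Equiv.Perm (Fin n))) f univ (invt_univ _)) =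
      fac univ f := by
    unfold fac
    have h2 := DomMulAct.stabilizer_card' f
    have h3 : ∀ a, Fintype.card {i // f i = a} = (univ.filter fun i => f i = a).card := fun a =>
      Fintype.card_subtype _
    simp only [h3] at h2
    rw [← h2, ← Nat.card_eq_fintype_card]
    refine Nat.card_congr (Equiv.subtypeEquivRight fun σ => ?_)
    constructor
    · intro h
      funext i
      exact h.2 i (mem_univ i)
    · intro h
      exact ⟨Subgroup.mem_top σ, fun i _ => congrFun h i⟩
  rw [← h1, mul_comm, Subgroup.card_mul_index, Nat.card_eq_fintype_card, Fintype.card_perm,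
    Fintype.card_fin]

theorem log_rearr (f : Fin n → X) :
    Real.log (rearr (⊤ : Subgroup (Equiv.Perm (Fin n))) f) =
      Real.log (Nat.factorial n) - lf univ f := by
  have h1 := rearr_fac f
  have h2 : Real.log (Nat.factorial n) =
      Real.log (rearr (⊤ : Subgroup (Equiv.Perm (Fin n))) f) + lf univ f := by
    rw [← h1]
    push_cast
    rw [Real.log_mul]
    · rfl
    · exact_mod_cast (rearr_pos f).ne'
    · exact_mod_cast (fac_pos univ f).ne'
  linarith

/-- **The main induction.** -/
theorem steps {ι : Type*} {D : Fin n → X} {U : ι → Fin n → Y} {T : Finset ι} {M : ℕ}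
    (hM1 : 1 ≤ M) (hM : (univ.image D).card ≤ M) (hv : Fin n → Prop) [DecidablePred hv] {Q : ℝ}
    (hQ0 : 0 ≤ Q)
    (hQ : ∀ i j, D i ≠ D j → ¬ (hv i ∧ hv j) → ((T.filter fun t => U t i = U t j).card : ℝ) ≤ Q) :
    ∀ (m : ℕ) (s : Finset (Fin n)), s.card = m →
      ∑ t ∈ T, lf s (U t) ≤ T.card * lf s D + Q * M * (Real.log (Nat.factorial m) - lf s D) +
        T.card * Real.log M * (((s.filter hv).card - 1 : ℕ) : ℝ) := by
  classical
  have hlM : 0 ≤ Real.log (M : ℝ) := Real.log_natCast_nonneg _
  intro m
  induction m with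
  | zero =>
    intro s hs
    have hs0 : s = ∅ := Finset.card_eq_zero.1 hs
    subst hs0
    simp [lf, fac]
  | succ m ih =>
    intro s' hs'
    -- the most frequent value of `D`
    obtain ⟨d, hd, hdE⟩ : ∃ d ∈ s'.image D, s'.card ≤ M * (s'.filter fun i => D i = d).card := by
      by_contra hcon
      push Not at hcon
      have h1 : s'.card = ∑ d ∈ s'.image D, (s'.filter fun i => D i = d).card :=
        Finset.card_eq_sum_card_image D s'
      have hne : (s'.image D).Nonempty := by
        rw [Finset.image_nonempty]
        exact Finset.card_pos.1 (by omega)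
      have h2 := Finset.sum_lt_sum_of_nonempty hne hcon
      rw [← Finset.mul_sum, ← h1, Finset.sum_const, smul_eq_mul] at h2
      have h3 : (s'.image D).card ≤ M :=
        (Finset.card_le_card (Finset.image_subset_image (Finset.subset_univ s'))).trans hM
      have h4 := Nat.mul_le_mul_right s'.card h3
      omega
    obtain ⟨j, hjs', rfl⟩ := Finset.mem_image.1 hd
    obtain ⟨s, hs⟩ : ∃ s, s = s'.erase j := ⟨_, rfl⟩
    have hsc : s.card = m := by
      rw [hs, Finset.card_erase_of_mem hjs']
      omega
    have hjs : j ∉ s := by rw [hs]; exact Finset.notMem_erase _ _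
    have hins : s' = insert j s := by rw [hs, Finset.insert_erase hjs']
    have IH := ih s hsc
    obtain ⟨φ, hφ⟩ : ∃ φ, φ = (s.filter fun i => D i = D j).card := ⟨_, rfl⟩
    obtain ⟨u, hu⟩ : ∃ u : ι → ℕ, u = fun t => (s.filter fun i => U t i = U t j).card := ⟨_, rfl⟩
    obtain ⟨w, hw⟩ : ∃ w : ι → ℕ, w = fun t =>
      (s.filter fun i => D i ≠ D j ∧ U t i = U t j).card := ⟨_, rfl⟩
    have hφ' : (s'.filter fun i => D i = D j).card = φ + 1 := by
      rw [hins, Finset.filter_insert, if_pos rfl, Finset.card_insert_of_notMem, hφ]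
      intro h
      exact hjs (Finset.mem_filter.1 h).1
    rw [hφ', hs'] at hdE
    have hφs : φ ≤ m := by
      rw [hφ, ← hsc]
      exact Finset.card_filter_le _ _
    have hus : ∀ t, u t ≤ m := by
      intro t
      rw [hu, ← hsc]
      exact Finset.card_filter_le _ _
    have huw : ∀ t, u t ≤ φ + w t := by
      intro t
      have h1 : (s.filter fun i => U t i = U t j) ⊆ (s.filter fun i => D i = D j) ∪
          (s.filter fun i => D i ≠ D j ∧ U t i = U t j) := by
        intro i hi
        obtain ⟨h2, h3⟩ := Finset.mem_filter.1 hi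
        by_cases hD : D i = D j
        · exact Finset.mem_union_left _ (Finset.mem_filter.2 ⟨h2, hD⟩)
        · exact Finset.mem_union_right _ (Finset.mem_filter.2 ⟨h2, hD, h3⟩)
      rw [hu, hφ, hw]
      exact (Finset.card_le_card h1).trans (Finset.card_union_le _ _)
    have hφ0 : (0 : ℝ) < (φ : ℝ) + 1 := by positivity
    have hm0 : (0 : ℝ) < (m : ℝ) + 1 := by positivity
    have hM' : (m : ℝ) + 1 ≤ M * ((φ : ℝ) + 1) := by exact_mod_cast hdE
    have hM0 : (0 : ℝ) < M := by exact_mod_cast (by omega : 0 < M)
    have hφm : Real.log ((φ : ℝ) + 1) ≤ Real.log ((m : ℝ) + 1) := by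
      refine Real.log_le_log hφ0 ?_
      exact_mod_cast (by omega : φ + 1 ≤ m + 1)
    have hprog : 0 ≤ Q * M * (Real.log ((m : ℝ) + 1) - Real.log ((φ : ℝ) + 1)) :=
      mul_nonneg (by positivity) (by linarith)
    have hheavy : (((s'.filter hv).card - 1 : ℕ) : ℝ) ≥ (((s.filter hv).card - 1 : ℕ) : ℝ) := by
      have h1 : (s.filter hv).card ≤ (s'.filter hv).card :=
        Finset.card_le_card (Finset.filter_subset_filter _ (by rw [hs]; exact Finset.erase_subset _ _))
      exact_mod_cast (by omega : (s.filter hv).card - 1 ≤ (s'.filter hv).card - 1)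
    have hstep : ∑ t ∈ T, Real.log ((u t : ℝ) + 1) ≤ T.card * Real.log ((φ : ℝ) + 1) +
        Q * M * (Real.log ((m : ℝ) + 1) - Real.log ((φ : ℝ) + 1)) +
        T.card * Real.log M * ((((s'.filter hv).card - 1 : ℕ) : ℝ) -
          (((s.filter hv).card - 1 : ℕ) : ℝ)) := by
      by_cases hjv : hv j ∧ (s.filter hv).Nonempty
      · -- a heavy element after another heavy element
        have h1 : (s'.filter hv).card = (s.filter hv).card + 1 := by
          rw [hins, Finset.filter_insert, if_pos hjv.1, Finset.card_insert_of_notMem]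
          intro h
          exact hjs (Finset.mem_filter.1 h).1
        have h2 : 0 < (s.filter hv).card := Finset.card_pos.2 hjv.2
        have h3 : (((s'.filter hv).card - 1 : ℕ) : ℝ) - (((s.filter hv).card - 1 : ℕ) : ℝ) = 1 := by
          rw [h1]
          have h4 : (((s.filter hv).card - 1 : ℕ) : ℝ) = (s.filter hv).card - 1 := by
            rw [Nat.cast_sub h2]
            simp
          rw [h4]
          simp
        rw [h3, mul_one]
        have h5 : ∀ t ∈ T, Real.log ((u t : ℝ) + 1) ≤ Real.log ((φ : ℝ) + 1) + Real.log M := by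
          intro t _
          rw [← Real.log_mul hφ0.ne' hM0.ne']
          refine Real.log_le_log (by positivity) ?_
          have h6 : (u t : ℝ) ≤ m := by exact_mod_cast hus t
          linarith
        have h6 := Finset.sum_le_sum h5
        rw [Finset.sum_const, nsmul_eq_mul] at h6
        linarith
      · have hlight : ∀ i ∈ s, ¬ (hv i ∧ hv j) := by
          intro i hi h
          exact hjv ⟨h.2, i, Finset.mem_filter.2 ⟨hi, h.1⟩⟩
        have hwsum : ∑ t ∈ T, (w t : ℝ) ≤ Q * ((m : ℝ) - φ) := by
          have h1 : ∑ t ∈ T, w t = ∑ i ∈ s.filter (fun i => D i ≠ D j),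
              (T.filter fun t => U t i = U t j).card := by
            rw [hw]
            simp only [Finset.card_filter]
            rw [Finset.sum_comm, Finset.sum_filter]
            refine Finset.sum_congr rfl fun i _ => ?_
            by_cases hD : D i = D j
            · simp [hD]
            · simp [hD]
          have h2 : ∀ i ∈ s.filter (fun i => D i ≠ D j),
              ((T.filter fun t => U t i = U t j).card : ℝ) ≤ Q := by
            intro i hi
            obtain ⟨h3, h4⟩ := Finset.mem_filter.1 hi
            exact hQ i j h4 (hlight i h3)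
          have h3 := Finset.sum_le_sum h2
          rw [Finset.sum_const, nsmul_eq_mul] at h3
          have h4 : ((s.filter (fun i => D i ≠ D j)).card : ℝ) = m - φ := by
            have h5 := Finset.card_filter_add_card_filter_not (s := s) (fun i => D i = D j)
            rw [← hφ, hsc] at h5
            have h6 : (φ : ℝ) + (s.filter (fun i => ¬ D i = D j)).card = m := by exact_mod_cast h5
            change ((s.filter (fun i => ¬ D i = D j)).card : ℝ) = m - φ
            linarith
          rw [h4] at h3
          have h5 : ∑ t ∈ T, (w t : ℝ) = ∑ i ∈ s.filter (fun i => D i ≠ D j),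
              ((T.filter fun t => U t i = U t j).card : ℝ) := by exact_mod_cast h1
          rw [h5]
          linarith
        have h1 : ∀ t ∈ T, Real.log ((u t : ℝ) + 1) ≤
            Real.log ((φ : ℝ) + 1) + (w t : ℝ) / ((φ : ℝ) + 1) := by
          intro t _
          have h2 : Real.log ((u t : ℝ) + 1) ≤ Real.log (((φ : ℝ) + 1) + w t) := by
            refine Real.log_le_log (by positivity) ?_
            have h3 : (u t : ℝ) ≤ φ + w t := by exact_mod_cast huw t
            linarith
          have h3 : Real.log (((φ : ℝ) + 1) + w t) =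
              Real.log ((φ : ℝ) + 1) + Real.log (1 + (w t : ℝ) / ((φ : ℝ) + 1)) := by
            rw [← Real.log_mul hφ0.ne' (by positivity)]
            congr 1
            field_simp
          have h4 : Real.log (1 + (w t : ℝ) / ((φ : ℝ) + 1)) ≤ (w t : ℝ) / ((φ : ℝ) + 1) := by
            have := Real.log_le_sub_one_of_pos
              (by positivity : 0 < 1 + (w t : ℝ) / ((φ : ℝ) + 1))
            linarith
          linarith
        have h2 := Finset.sum_le_sum h1
        rw [Finset.sum_add_distrib, Finset.sum_const, nsmul_eq_mul, ← Finset.sum_div] at h2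
        have h3 : (∑ t ∈ T, (w t : ℝ)) / ((φ : ℝ) + 1) ≤
            Q * M * (Real.log ((m : ℝ) + 1) - Real.log ((φ : ℝ) + 1)) := by
          have h4 : 1 - ((φ : ℝ) + 1) / ((m : ℝ) + 1) ≤
              Real.log ((m : ℝ) + 1) - Real.log ((φ : ℝ) + 1) := by
            have h5 := Real.log_le_sub_one_of_pos
              (by positivity : 0 < ((φ : ℝ) + 1) / ((m : ℝ) + 1))
            rw [Real.log_div hφ0.ne' hm0.ne'] at h5
            linarith
          have h5 : ((m : ℝ) - φ) / ((φ : ℝ) + 1) ≤ M * (1 - ((φ : ℝ) + 1) / ((m : ℝ) + 1)) := by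
            have h6 : 1 - ((φ : ℝ) + 1) / ((m : ℝ) + 1) = ((m : ℝ) - φ) / ((m : ℝ) + 1) := by
              field_simp
              ring
            have h7 : 0 ≤ (m : ℝ) - φ := by
              have : (φ : ℝ) ≤ m := by exact_mod_cast hφs
              linarith
            rw [h6, ← mul_div_assoc, div_le_div_iff₀ hφ0 hm0]
            have := mul_le_mul_of_nonneg_left hM' h7
            linarith
          have h6 : (∑ t ∈ T, (w t : ℝ)) / ((φ : ℝ) + 1) ≤ Q * (((m : ℝ) - φ) / ((φ : ℝ) + 1)) := by
            rw [← mul_div_assoc]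
            exact div_le_div_of_nonneg_right hwsum hφ0.le
          refine h6.trans ?_
          rw [mul_assoc]
          refine mul_le_mul_of_nonneg_left ?_ hQ0
          exact h5.trans (mul_le_mul_of_nonneg_left h4 hM0.le)
        have h4 : 0 ≤ T.card * Real.log M * ((((s'.filter hv).card - 1 : ℕ) : ℝ) -
          (((s.filter hv).card - 1 : ℕ) : ℝ)) :=
          mul_nonneg (mul_nonneg (Nat.cast_nonneg _) hlM) (by linarith)
        linarith
    have hfs : Real.log (Nat.factorial (m + 1) : ℝ) =
        Real.log (Nat.factorial m) + Real.log ((m : ℝ) + 1) := by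
      rw [Nat.factorial_succ]
      push_cast
      rw [Real.log_mul (by positivity) (by exact_mod_cast (Nat.factorial_pos _).ne')]
      ring
    have hlD : lf s' D = lf s D + Real.log ((φ : ℝ) + 1) := by
      rw [hins, lf_insert hjs, hφ]
    have hlU : ∑ t ∈ T, lf s' (U t) = ∑ t ∈ T, lf s (U t) +
        ∑ t ∈ T, Real.log ((u t : ℝ) + 1) := by
      rw [← Finset.sum_add_distrib]
      refine Finset.sum_congr rfl fun t _ => ?_
      rw [hins, lf_insert hjs, hu]
    rw [hfs, hlD, hlU]
    linarith

/-- **The inequality for colourings of which one has few colours.** -/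
theorem few_colours {ι : Type*} {D : Fin n → X} {U : ι → Fin n → Y} {T : Finset ι} {M : ℕ}
    (hM1 : 1 ≤ M) (hM : (univ.image D).card ≤ M) (hv : Fin n → Prop) [DecidablePred hv] {Q : ℝ}
    (hQ0 : 0 ≤ Q)
    (hQ : ∀ i j, D i ≠ D j → ¬ (hv i ∧ hv j) → ((T.filter fun t => U t i = U t j).card : ℝ) ≤ Q) :
    ((T.card : ℝ) - Q * M) * Real.log (rearr (⊤ : Subgroup (Equiv.Perm (Fin n))) D) ≤
      ∑ t ∈ T, Real.log (rearr (⊤ : Subgroup (Equiv.Perm (Fin n))) (U t)) +
      T.card * Real.log M * (((univ.filter hv).card - 1 : ℕ) : ℝ) := by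
  have h1 := steps hM1 hM hv hQ0 hQ n univ (by rw [Finset.card_univ, Fintype.card_fin])
  have hVl := log_rearr D
  have hUl : ∑ t ∈ T, Real.log (rearr (⊤ : Subgroup (Equiv.Perm (Fin n))) (U t)) =
      T.card * Real.log (Nat.factorial n) - ∑ t ∈ T, lf univ (U t) := by
    rw [Finset.sum_congr rfl fun t _ => log_rearr (U t), Finset.sum_sub_distrib, Finset.sum_const,
      nsmul_eq_mul]
  have h2 : lf univ D = Real.log (Nat.factorial n) -
      Real.log (rearr (⊤ : Subgroup (Equiv.Perm (Fin n))) D) := by linarith
  rw [h2] at h1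
  rw [hUl]
  linarith

end Pool.Agent.V7H23.AK
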