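import Pool.Agent.V7H23.AK.Lin

set_option autoImplicit false

/-!
# Difference sets with bounded digits
-/

open Finset

namespace Pool.Agent.V7H23.AK

theorem digits_zero (q : ℕ) : ∀ (r : ℕ) (f : Fin r → ℤ), (∀ j, |f j| < q) →
    ∑ j : Fin r, (2 * (q : ℤ)) ^ (j : ℕ) * f j = 0 → ∀ j, f j = 0 := by
  intro r
  induction r with
  | zero => exact fun f _ _ j => Fin.elim0 j
  | succ r ih =>
    intro f hf h
    rw [Fin.sum_univ_succ] at h
    simp only [Fin.val_zero, pow_zero, one_mul, Fin.val_succ] at h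
    have h1 : ∑ j : Fin r, (2 * (q : ℤ)) ^ ((j : ℕ) + 1) * f j.succ =
        (2 * q) * ∑ j : Fin r, (2 * (q : ℤ)) ^ (j : ℕ) * f j.succ := by
      rw [Finset.mul_sum]
      refine Finset.sum_congr rfl fun j _ => ?_
      ring
    rw [h1] at h
    have h0 : f 0 = 0 := by
      have h2 : (2 * (q : ℤ)) ∣ f 0 := ⟨-∑ j : Fin r, (2 * (q : ℤ)) ^ (j : ℕ) * f j.succ, by linarith⟩
      have h3 := hf 0
      by_contra hne
      have h4 := Int.le_of_dvd (abs_pos.2 hne) ((dvd_abs _ _).2 h2)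
      have : (0 : ℤ) ≤ q := Int.natCast_nonneg q
      linarith
    have hq : (0 : ℤ) < q := lt_of_le_of_lt (abs_nonneg _) (hf 0)
    have h5 : ∑ j : Fin r, (2 * (q : ℤ)) ^ (j : ℕ) * f j.succ = 0 := by
      rw [h0, zero_add] at h
      exact (mul_eq_zero.1 h).resolve_left (by positivity)
    intro j
    refine Fin.cases h0 (fun j => ?_) j
    exact ih (fun j => f j.succ) (fun j => hf j.succ) h5 j

/-- the parameters of the slopes -/
def hp (q r : ℕ) (j : ℕ) : ℚ := ∑ i ∈ Finset.Ico j r, (2 * (q : ℚ)) ^ i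

theorem hp_sub {q r j : ℕ} (hj : j < r) : hp q r j - hp q r (j + 1) = (2 * (q : ℚ)) ^ j := by
  unfold hp
  rw [Finset.sum_eq_sum_Ico_succ_bot hj]
  ring

theorem hp_pos {q r j : ℕ} (hq : 1 ≤ q) (hj : j < r) : 0 < hp q r j := by
  have hq' : (0 : ℚ) < q := by exact_mod_cast hq
  unfold hp
  exact Finset.sum_pos (fun i _ => by positivity) ⟨j, Finset.mem_Ico.2 ⟨le_rfl, hj⟩⟩

theorem hp_anti {q r : ℕ} (hq : 1 ≤ q) {i j : ℕ} (hij : i < j) (hj : j ≤ r) :
    hp q r j < hp q r i := by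
  have hq' : (0 : ℚ) < q := by exact_mod_cast hq
  unfold hp
  refine Finset.sum_lt_sum_of_subset (i := i) (Finset.Ico_subset_Ico_left hij.le)
    (Finset.mem_Ico.2 ⟨le_rfl, by omega⟩) ?_ (by positivity) fun k _ _ => by positivity
  rw [Finset.mem_Ico]
  omega

section

variable {V : Type*} [AddCommGroup V] [Module ℚ V] [DecidableEq V]

theorem pr_zero (a : V × V) : pr 0 a = a.2 := by
  unfold pr
  rw [zero_smul, add_zero]

theorem card_pr (A : Finset (V × V)) {h : ℚ} (hh : h ≠ 0) :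
    (A.image (pr h)).card = (A.image fun a => a.1 + (1 / h - 1) • a.2).card := by
  have h1 : pr h = (fun v : V => h • v) ∘ fun a : V × V => a.1 + (1 / h - 1) • a.2 := by
    funext a
    have e : h * (1 / h - 1) = 1 - h := by
      field_simp
    have h2 : h • (a.1 + (1 / h - 1) • a.2) = h • a.1 + (1 - h) • a.2 := by
      rw [smul_add, smul_smul, e]
    rw [Function.comp_apply, h2, sub_smul, one_smul]
    unfold pr
    rw [smul_sub]
    abel
  rw [h1, ← Finset.image_image]
  refine Finset.card_image_of_injective _ fun v w hvw => ?_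
  have h2 := congrArg (fun v : V => h⁻¹ • v) hvw
  simp only [smul_smul, inv_mul_cancel₀ hh, one_smul] at h2
  exact h2

theorem digit_bound (q r : ℕ) (hq : 1 ≤ q) {n : ℕ} (g : Fin n → V)
    (hg : ∀ c : Fin n → ℤ, (∀ i, |c i| ≤ ((r * (2 * q) ^ r * q : ℕ) : ℤ)) →
      ∑ i, (c i : ℚ) • g i = 0 → c = 0)
    (A : Finset (V × V)) (hA : A.Nonempty)
    (hD : ∀ a ∈ A, ∃ e : Fin n → ℕ, (∀ i, e i < q) ∧ a.1 - a.2 = ∑ i, (e i : ℚ) • g i) :
    A.card ^ r ≤ ∏ j : Fin (r + 1), (A.image (pr (hp q r j))).card := by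
  have h1 := path_bound r (fun j : Fin (r + 1) => hp q r j) A hA 1 (by
    intro w
    rw [Finset.card_le_one]
    intro d hd d' hd'
    obtain ⟨hd1, hd2⟩ := Finset.mem_filter.1 hd
    obtain ⟨hd1', hd2'⟩ := Finset.mem_filter.1 hd'
    rw [Fintype.mem_piFinset] at hd1 hd1'
    have hex : ∀ j, ∃ e : Fin n → ℕ, (∀ i, e i < q) ∧ d j = ∑ i, (e i : ℚ) • g i := by
      intro j
      obtain ⟨a, ha, h2⟩ := Finset.mem_image.1 (hd1 j)
      obtain ⟨e, h3, h4⟩ := hD a ha
      exact ⟨e, h3, by rw [← h2, h4]⟩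
    have hex' : ∀ j, ∃ e : Fin n → ℕ, (∀ i, e i < q) ∧ d' j = ∑ i, (e i : ℚ) • g i := by
      intro j
      obtain ⟨a, ha, h2⟩ := Finset.mem_image.1 (hd1' j)
      obtain ⟨e, h3, h4⟩ := hD a ha
      exact ⟨e, h3, by rw [← h2, h4]⟩
    choose e he hde using hex
    choose e' he' hde' using hex'
    have hlam : ∀ j : Fin r, hp q r (j.castSucc : Fin (r + 1)) - hp q r (j.succ : Fin (r + 1)) =
        (2 * (q : ℚ)) ^ (j : ℕ) := by
      intro j
      have := hp_sub (q := q) j.2
      simpa using this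
    have h2 : ∑ j : Fin r, (2 * (q : ℚ)) ^ (j : ℕ) • d j =
        ∑ j : Fin r, (2 * (q : ℚ)) ^ (j : ℕ) • d' j := by
      have h3 := hd2.trans hd2'.symm
      simp only [hlam] at h3
      exact h3
    have h3 : ∑ i, ((∑ j : Fin r, (2 * (q : ℤ)) ^ (j : ℕ) * ((e j i : ℤ) - e' j i) : ℤ) : ℚ) • g i =
        0 := by
      have h4 : ∑ i, ((∑ j : Fin r, (2 * (q : ℤ)) ^ (j : ℕ) * ((e j i : ℤ) - e' j i) : ℤ) : ℚ) •
          g i = ∑ j : Fin r, (2 * (q : ℚ)) ^ (j : ℕ) • d j -
            ∑ j : Fin r, (2 * (q : ℚ)) ^ (j : ℕ) • d' j := by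
        rw [← Finset.sum_sub_distrib]
        have h5 : ∀ j : Fin r, (2 * (q : ℚ)) ^ (j : ℕ) • d j - (2 * (q : ℚ)) ^ (j : ℕ) • d' j =
            ∑ i, ((2 * (q : ℚ)) ^ (j : ℕ) * ((e j i : ℚ) - e' j i)) • g i := by
          intro j
          rw [hde j, hde' j, Finset.smul_sum, Finset.smul_sum, ← Finset.sum_sub_distrib]
          refine Finset.sum_congr rfl fun i _ => ?_
          rw [smul_smul, smul_smul, ← sub_smul]
          congr 1
          ring
        rw [Finset.sum_congr rfl fun j _ => h5 j, Finset.sum_comm]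
        refine Finset.sum_congr rfl fun i _ => ?_
        rw [← Finset.sum_smul]
        congr 1
        push_cast
        rfl
      rw [h4, h2, sub_self]
    have h4 := hg (fun i => ∑ j : Fin r, (2 * (q : ℤ)) ^ (j : ℕ) * ((e j i : ℤ) - e' j i)) (by
      intro i
      refine (Finset.abs_sum_le_sum_abs _ _).trans ?_
      have h5 : ∀ j ∈ (univ : Finset (Fin r)),
          |(2 * (q : ℤ)) ^ (j : ℕ) * ((e j i : ℤ) - e' j i)| ≤ (2 * (q : ℤ)) ^ r * q := by
        intro j _
        have hq' : (1 : ℤ) ≤ q := by exact_mod_cast hq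
        have h6 := he j i
        have h7 := he' j i
        rw [abs_mul, abs_of_nonneg (by positivity : (0 : ℤ) ≤ (2 * (q : ℤ)) ^ (j : ℕ))]
        refine mul_le_mul (pow_le_pow_right₀ (by linarith) j.2.le) ?_ (abs_nonneg _) (by positivity)
        rw [abs_le]
        constructor <;> omega
      refine (Finset.sum_le_sum h5).trans (le_of_eq ?_)
      rw [Finset.sum_const, Finset.card_univ, Fintype.card_fin, nsmul_eq_mul]
      push_cast
      ring) h3
    funext j
    rw [hde j, hde' j]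
    refine Finset.sum_congr rfl fun i _ => ?_
    have h5 := digits_zero q r (fun j => (e j i : ℤ) - e' j i) (fun j => by
      have h6 := he j i
      have h7 := he' j i
      rw [abs_lt]
      constructor <;> omega) (congrFun h4 i) j
    have h6 : e j i = e' j i := by
      have : (e j i : ℤ) - e' j i = 0 := h5
      omega
    rw [h6])
  rw [one_mul] at h1
  exact h1

end

/-- **Difference sets with bounded digits.** -/
theorem digit_sets (q r : ℕ) (hq : 1 ≤ q) : ∃ S : Finset ℚ, (-1 : ℚ) ∉ S ∧ S.card = r ∧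
    ∃ L : ℕ, ∀ (V : Type) [AddCommGroup V] [Module ℚ V] [DecidableEq V] (n : ℕ) (g : Fin n → V),
      (∀ c : Fin n → ℤ, (∀ i, |c i| ≤ (L : ℤ)) → ∑ i, (c i : ℚ) • g i = 0 → c = 0) →
      ∀ A : Finset (V × V), A.Nonempty →
        (∀ a ∈ A, ∃ e : Fin n → ℕ, (∀ i, e i < q) ∧ a.1 - a.2 = ∑ i, (e i : ℚ) • g i) →
        A.card ^ r ≤ (A.image fun a => a.2).card *
          ∏ t ∈ S, (A.image fun a => a.1 + t • a.2).card := by
  have hpos : ∀ j : Fin r, 0 < hp q r j := fun j => hp_pos hq j.2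
  have hinj : Function.Injective fun j : Fin r => 1 / hp q r j - 1 := by
    intro i j hij
    have h1 : 1 / hp q r i = 1 / hp q r j := by
      have : 1 / hp q r i - 1 = 1 / hp q r j - 1 := hij
      linarith
    have h2 : hp q r i = hp q r j := by
      rw [one_div, one_div] at h1
      exact inv_injective h1
    by_contra hne
    rcases lt_or_gt_of_ne (fun h => hne (Fin.ext h) : (i : ℕ) ≠ j) with h | h
    · exact absurd h2 (hp_anti hq h j.2.le).ne'
    · exact absurd h2 (hp_anti hq h i.2.le).ne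
  refine ⟨univ.image fun j : Fin r => 1 / hp q r j - 1, ?_, ?_, r * (2 * q) ^ r * q, ?_⟩
  · rw [Finset.mem_image]
    rintro ⟨j, _, h⟩
    have h1 : 1 / hp q r j = 0 := by linarith
    exact (one_div_pos.2 (hpos j)).ne' h1
  · rw [Finset.card_image_of_injective _ hinj, Finset.card_univ, Fintype.card_fin]
  · intro V _ _ _ n g hg A hA hD
    refine (digit_bound q r hq g hg A hA hD).trans (le_of_eq ?_)
    rw [Fin.prod_univ_castSucc, Finset.prod_image fun i _ j _ h => hinj h, mul_comm]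
    congr 1
    · have h1 : hp q r (Fin.last r : Fin (r + 1)) = 0 := by
        unfold hp
        simp
      rw [h1]
      congr 1
      exact Finset.image_congr fun a _ => pr_zero a
    · refine Finset.prod_congr rfl fun j _ => ?_
      exact card_pr A (hpos j).ne'

end Pool.Agent.V7H23.AK
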