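import Pool.Agent.V7H23.AK.Slope

set_option autoImplicit false

/-!
# Generic linear functions of trees
-/

open Finset Polynomial

namespace Pool.Agent.V7H23.AK

theorem exists_generic {e : ℕ} (V : Finset (Fin e → ℚ)) :
    ∃ M : ℕ, Set.InjOn (fun v : Fin e → ℚ => ∑ i : Fin e, (M : ℚ) ^ (i : ℕ) * v i) (V : Set _) := by
  classical
  have hP : ∀ v w : Fin e → ℚ, v ≠ w → ∑ i : Fin e, C (v i - w i) * (X : ℚ[X]) ^ (i : ℕ) ≠ 0 := by
    intro v w hvw h
    apply hvw
    funext i
    have h1 := congrArg (fun p : ℚ[X] => p.coeff i) h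
    simp only [finsetSum_coeff, coeff_C_mul, coeff_X_pow, coeff_zero] at h1
    rw [Finset.sum_eq_single i] at h1
    · rw [if_pos rfl, mul_one] at h1
      linarith
    · intro j _ hj
      rw [if_neg, mul_zero]
      intro h2
      exact hj (Fin.ext h2.symm)
    · intro h2
      exact absurd (mem_univ i) h2
  obtain ⟨F, hF⟩ : ∃ F : Finset ℚ, ∀ v ∈ V, ∀ w ∈ V, v ≠ w → ∀ x : ℚ,
      ∑ i : Fin e, (v i - w i) * x ^ (i : ℕ) = 0 → x ∈ F := by
    refine ⟨(V ×ˢ V).biUnion fun p =>
      (∑ i : Fin e, C (p.1 i - p.2 i) * (X : ℚ[X]) ^ (i : ℕ)).roots.toFinset, ?_⟩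
    intro v hv w hw hvw x hx
    refine Finset.mem_biUnion.2 ⟨(v, w), Finset.mem_product.2 ⟨hv, hw⟩, ?_⟩
    rw [Multiset.mem_toFinset, Polynomial.mem_roots (hP v w hvw), Polynomial.IsRoot.def,
      Polynomial.eval_finsetSum]
    simp only [eval_mul, eval_C, eval_pow, eval_X]
    exact hx
  obtain ⟨M, hM⟩ : ∃ M : ℕ, (M : ℚ) ∉ F := by
    by_contra hcon
    push Not at hcon
    have h1 : (Set.range (fun n : ℕ => (n : ℚ))).Finite :=
      (Finset.finite_toSet F).subset (by
        rintro _ ⟨n, rfl⟩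
        exact hcon n)
    exact Set.infinite_range_of_injective (Nat.cast_injective (R := ℚ)) h1
  refine ⟨M, ?_⟩
  intro v hv w hw hvw
  by_contra hne
  apply hM
  refine hF v hv w hw hne M ?_
  have h1 : ∑ i : Fin e, (M : ℚ) ^ (i : ℕ) * v i = ∑ i : Fin e, (M : ℚ) ^ (i : ℕ) * w i := hvw
  have h2 : ∑ i : Fin e, (v i - w i) * (M : ℚ) ^ (i : ℕ) =
      ∑ i : Fin e, (M : ℚ) ^ (i : ℕ) * v i - ∑ i : Fin e, (M : ℚ) ^ (i : ℕ) * w i := by
    rw [← Finset.sum_sub_distrib]
    exact Finset.sum_congr rfl fun i _ => by ring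
  rw [h2, h1, sub_self]

/-- the sum of the products of the labels -/
def dot : (D : List Level) → Tr ℤ D → Tr ℚ D → ℚ
  | [], c, w => (c : ℚ) * w
  | _ :: D, c, w => ∑ i, dot D (c i) (w i)

/-- the sum of the products of the labels -/
def pt : (D : List Level) → Tr ℤ D → Tr (ℤ × ℤ) D → ℤ × ℤ
  | [], c, z => (c * z.1, c * z.2)
  | _ :: D, c, z => ∑ i, pt D (c i) (z i)

theorem dot_smul (m : ℤ) : ∀ (D : List Level) (c : Tr ℤ D) (w : Tr ℚ D),
    dot D (Tr.map (fun a => m * a) D c) w = m * dot D c w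
  | [], c, w => by
      simp only [dot, Tr.map]
      push_cast
      ring
  | _ :: D, c, w => by
      simp only [dot, Tr.map]
      rw [Finset.mul_sum]
      exact Finset.sum_congr rfl fun i _ => dot_smul m D (c i) (w i)

theorem val_add (t : Option ℚ) (p q : ℤ × ℤ) : val t (p + q) = val t p + val t q := by
  rcases t with _ | r
  · simp [val]
  · simp only [val, Option.elim_some, Prod.fst_add, Prod.snd_add]
    push_cast
    ring

theorem val_zero (t : Option ℚ) : val t 0 = 0 := by
  rcases t with _ | r <;> simp [val]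

theorem val_sum (t : Option ℚ) {ι : Type*} (s : Finset ι) (p : ι → ℤ × ℤ) :
    val t (∑ i ∈ s, p i) = ∑ i ∈ s, val t (p i) := by
  classical
  induction s using Finset.induction_on with
  | empty => simp [val_zero]
  | insert a s ha ih => rw [Finset.sum_insert ha, Finset.sum_insert ha, val_add, ih]

theorem val_pt (t : Option ℚ) : ∀ (D : List Level) (c : Tr ℤ D) (z : Tr (ℤ × ℤ) D),
    val t (pt D c z) = dot D c (Tr.map (val t) D z)
  | [], c, z => by
      rcases t with _ | r
      · simp only [val, Option.elim_none, pt, dot, Tr.map]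
        push_cast
        ring
      · simp only [val, Option.elim_some, pt, dot, Tr.map]
        push_cast
        ring
  | _ :: D, c, z => by
      simp only [pt, dot, Tr.map]
      rw [val_sum]
      exact Finset.sum_congr rfl fun i _ => val_pt t D (c i) (z i)

open Classical in
theorem exists_dot : ∀ (D : List Level) (U : Finset (Tr ℚ D)),
    ∃ c : Tr ℤ D, Set.InjOn (dot D c) (U : Set (Tr ℚ D))
  | [], U => by
      refine ⟨(1 : ℤ), ?_⟩
      intro v _ w _ h
      simpa [dot] using h
  | a :: D, U => by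
      obtain ⟨c, hc⟩ := exists_dot D (Finset.univ.biUnion fun i : Fin a.e => U.image fun u => u i)
      obtain ⟨M, hM⟩ := exists_generic (U.image fun u => fun i : Fin a.e => dot D c (u i))
      refine ⟨fun i => Tr.map (fun a => ((M : ℤ) ^ (i : ℕ)) * a) D c, ?_⟩
      intro v hv w hw h
      have h1 : ∀ u : Tr ℚ (a :: D),
          dot (a :: D) (fun i => Tr.map (fun a => ((M : ℤ) ^ (i : ℕ)) * a) D c) u =
          ∑ i : Fin a.e, (M : ℚ) ^ (i : ℕ) * dot D c (u i) := by
        intro u
        simp only [dot]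
        refine Finset.sum_congr rfl fun i _ => ?_
        rw [dot_smul]
        push_cast
        rfl
      rw [h1, h1] at h
      have h2 := hM (Finset.mem_coe.2 (Finset.mem_image_of_mem _ hv))
        (Finset.mem_coe.2 (Finset.mem_image_of_mem _ hw)) h
      funext i
      refine hc ?_ ?_ (congrFun h2 i)
      · exact Finset.mem_coe.2 (Finset.mem_biUnion.2 ⟨i, mem_univ i,
          Finset.mem_image_of_mem _ hv⟩)
      · exact Finset.mem_coe.2 (Finset.mem_biUnion.2 ⟨i, mem_univ i,
          Finset.mem_image_of_mem _ hw⟩)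


open Classical in
theorem exists_pt (D : List Level) (U : Finset (Tr (ℤ × ℤ) D)) :
    ∃ c : Tr ℤ D, Set.InjOn (pt D c) (U : Set (Tr (ℤ × ℤ) D)) := by
  obtain ⟨c, hc⟩ := exists_dot D (U.image (Tr.map (val none) D) ∪ U.image (Tr.map (val (some 0)) D))
  refine ⟨c, ?_⟩
  intro z hz w hw h
  have h1 : Tr.map (val none) D z = Tr.map (val none) D w := by
    refine hc ?_ ?_ ?_
    · exact Finset.mem_coe.2 (Finset.mem_union_left _ (Finset.mem_image_of_mem _ hz))
    · exact Finset.mem_coe.2 (Finset.mem_union_left _ (Finset.mem_image_of_mem _ hw))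
    · rw [← val_pt, ← val_pt, h]
  have h2 : Tr.map (val (some 0)) D z = Tr.map (val (some 0)) D w := by
    refine hc ?_ ?_ ?_
    · exact Finset.mem_coe.2 (Finset.mem_union_right _ (Finset.mem_image_of_mem _ hz))
    · exact Finset.mem_coe.2 (Finset.mem_union_right _ (Finset.mem_image_of_mem _ hw))
    · rw [← val_pt, ← val_pt, h]
  exact pj_inj (by simp) D z w h1 h2

end Pool.Agent.V7H23.AK
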