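import Pool.Agent.V7H23.AK.Diff

set_option autoImplicit false

/-!
# Colourings under the symmetric group: few values of one projection, the sharp form
-/

open Finset

namespace Pool.Agent.V7H23.AK

variable {n : ℕ} {X Y : Type*} [DecidableEq X] [DecidableEq Y]

/-- the chord of the graph of a power -/
theorem chord {M R η : ℝ} (hM : 1 < M) (hR1 : 1 ≤ R) (hRM : R ≤ M) (hη : 0 ≤ η) (hη1 : η ≤ 1) :
    1 + (R - 1) * ((M ^ η - 1) / (M - 1)) ≤ R ^ η := by
  have hM1 : 0 < M - 1 := by linarith
  have hc := Real.concaveOn_rpow hη hη1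
  obtain ⟨l, hl⟩ : ∃ l, l = (R - 1) / (M - 1) := ⟨_, rfl⟩
  have hl0 : 0 ≤ l := by rw [hl]; exact div_nonneg (by linarith) hM1.le
  have hl1 : l ≤ 1 := by rw [hl, div_le_one hM1]; linarith
  have h1 := hc.2 (Set.mem_Ici.2 (by norm_num : (0 : ℝ) ≤ 1))
    (Set.mem_Ici.2 (by linarith : (0 : ℝ) ≤ M)) (by linarith : 0 ≤ 1 - l) hl0 (by ring)
  simp only [smul_eq_mul, Real.one_rpow, mul_one] at h1
  have h2 : 1 - l + l * M = R := by
    rw [hl]
    field_simp
    ring
  rw [h2] at h1
  have h3 : (R - 1) * ((M ^ η - 1) / (M - 1)) = l * (M ^ η - 1) := by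
    rw [hl]
    ring
  rw [h3]
  linarith

theorem aux1 (k a b : ℝ) (hk : k ≠ 0) : k * (a + b / k) = k * a + b := by
  field_simp

theorem aux2 (m f k : ℝ) (hf : f + 1 ≠ 0) (hk : k ≠ 0) :
    f + 1 + (m - f) / k = (f + 1) * (1 + ((m + 1) / (f + 1) - 1) / k) := by
  field_simp
  ring

/-- **The main induction.** -/
theorem steps_sharp {ι : Type*} {D : Fin n → X} {U : ι → Fin n → Y} {T : Finset ι} {M : ℕ}
    (hM2 : 2 ≤ M) (hM : (univ.image D).card ≤ M)
    (hQ : ∀ i j, D i ≠ D j → (T.filter fun t => U t i = U t j).card ≤ 1) {η : ℝ} (hη : 0 ≤ η)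
    (hη1 : η ≤ 1) (hk : (M : ℝ) - 1 ≤ T.card * ((M : ℝ) ^ η - 1)) :
    ∀ (m : ℕ) (s : Finset (Fin n)), s.card = m →
      ∑ t ∈ T, lf s (U t) ≤ T.card * lf s D +
        T.card * η * (Real.log (Nat.factorial m) - lf s D) := by
  classical
  have hM2' : (2 : ℝ) ≤ M := by exact_mod_cast hM2
  have hk0 : (0 : ℝ) < T.card := by
    rcases Nat.eq_zero_or_pos T.card with h | h
    · rw [h, Nat.cast_zero, zero_mul] at hk
      linarith
    · exact_mod_cast h
  intro m
  induction m with
  | zero =>
    intro s hs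
    have hs0 : s = ∅ := Finset.card_eq_zero.1 hs
    subst hs0
    simp [lf, fac]
  | succ m ih =>
    intro s' hs'
    -- the most frequent value of `D`
    obtain ⟨d, hd, hdE⟩ : ∃ d ∈ s'.image D, s'.card ≤ M * (s'.filter fun i => D i = d).card := by
      by_contra hcon
      push Not at hcon
      have h1 : s'.card = ∑ d ∈ s'.image D, (s'.filter fun i => D i = d).card :=
        Finset.card_eq_sum_card_image D s'
      have hne : (s'.image D).Nonempty := by
        rw [Finset.image_nonempty]
        exact Finset.card_pos.1 (by omega)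
      have h2 := Finset.sum_lt_sum_of_nonempty hne hcon
      rw [← Finset.mul_sum, ← h1, Finset.sum_const, smul_eq_mul] at h2
      have h3 : (s'.image D).card ≤ M :=
        (Finset.card_le_card (Finset.image_subset_image (Finset.subset_univ s'))).trans hM
      have h4 := Nat.mul_le_mul_right s'.card h3
      omega
    obtain ⟨j, hjs', rfl⟩ := Finset.mem_image.1 hd
    obtain ⟨s, hs⟩ : ∃ s, s = s'.erase j := ⟨_, rfl⟩
    have hsc : s.card = m := by
      rw [hs, Finset.card_erase_of_mem hjs']
      omega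
    have hjs : j ∉ s := by rw [hs]; exact Finset.notMem_erase _ _
    have hins : s' = insert j s := by rw [hs, Finset.insert_erase hjs']
    have IH := ih s hsc
    obtain ⟨φ, hφ⟩ : ∃ φ, φ = (s.filter fun i => D i = D j).card := ⟨_, rfl⟩
    obtain ⟨u, hu⟩ : ∃ u : ι → ℕ, u = fun t => (s.filter fun i => U t i = U t j).card := ⟨_, rfl⟩
    obtain ⟨w, hw⟩ : ∃ w : ι → ℕ, w = fun t =>
      (s.filter fun i => D i ≠ D j ∧ U t i = U t j).card := ⟨_, rfl⟩
    have hφ' : (s'.filter fun i => D i = D j).card = φ + 1 := by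
      rw [hins, Finset.filter_insert, if_pos rfl, Finset.card_insert_of_notMem, hφ]
      intro h
      exact hjs (Finset.mem_filter.1 h).1
    rw [hφ', hs'] at hdE
    have hφs : φ ≤ m := by
      rw [hφ, ← hsc]
      exact Finset.card_filter_le _ _
    have huw : ∀ t, u t ≤ φ + w t := by
      intro t
      have h1 : (s.filter fun i => U t i = U t j) ⊆ (s.filter fun i => D i = D j) ∪
          (s.filter fun i => D i ≠ D j ∧ U t i = U t j) := by
        intro i hi
        obtain ⟨h2, h3⟩ := Finset.mem_filter.1 hi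
        by_cases hD : D i = D j
        · exact Finset.mem_union_left _ (Finset.mem_filter.2 ⟨h2, hD⟩)
        · exact Finset.mem_union_right _ (Finset.mem_filter.2 ⟨h2, hD, h3⟩)
      rw [hu, hφ, hw]
      exact (Finset.card_le_card h1).trans (Finset.card_union_le _ _)
    have hφ0 : (0 : ℝ) < (φ : ℝ) + 1 := by positivity
    have hm0 : (0 : ℝ) < (m : ℝ) + 1 := by positivity
    have hM' : (m : ℝ) + 1 ≤ M * ((φ : ℝ) + 1) := by exact_mod_cast hdE
    have hφm : (φ : ℝ) ≤ m := by exact_mod_cast hφs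
    have hwsum : ∑ t ∈ T, (w t : ℝ) ≤ (m : ℝ) - φ := by
      have h1 : ∑ t ∈ T, w t = ∑ i ∈ s.filter (fun i => D i ≠ D j),
          (T.filter fun t => U t i = U t j).card := by
        rw [hw]
        simp only [Finset.card_filter]
        rw [Finset.sum_comm, Finset.sum_filter]
        refine Finset.sum_congr rfl fun i _ => ?_
        by_cases hD : D i = D j
        · simp [hD]
        · simp [hD]
      have h2 : ∀ i ∈ s.filter (fun i => D i ≠ D j),
          (T.filter fun t => U t i = U t j).card ≤ 1 := by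
        intro i hi
        exact hQ i j (Finset.mem_filter.1 hi).2
      have h3 := Finset.sum_le_sum h2
      rw [Finset.sum_const, smul_eq_mul, mul_one, ← h1] at h3
      have h5 := Finset.card_filter_add_card_filter_not (s := s) (fun i => D i = D j)
      rw [← hφ, hsc] at h5
      have h6 : ∑ t ∈ T, w t + φ ≤ m := by
        have h7 : (s.filter (fun i => D i ≠ D j)).card = (s.filter (fun i => ¬ D i = D j)).card :=
          rfl
        omega
      have h8 : (∑ t ∈ T, (w t : ℝ)) + φ ≤ m := by exact_mod_cast h6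
      linarith
    -- the average
    obtain ⟨A, hA⟩ : ∃ A : ℝ, A = ((φ : ℝ) + 1) + ((m : ℝ) - φ) / T.card := ⟨_, rfl⟩
    have hA0 : 0 < A := by
      have : 0 ≤ ((m : ℝ) - φ) / T.card := div_nonneg (by linarith) hk0.le
      rw [hA]
      linarith
    have hstep : ∑ t ∈ T, Real.log ((u t : ℝ) + 1) ≤ T.card * Real.log A := by
      have h1 : ∀ t ∈ T, Real.log ((u t : ℝ) + 1) ≤
          Real.log A + ((((φ : ℝ) + 1) + w t) / A - 1) := by
        intro t _
        have h2 : Real.log ((u t : ℝ) + 1) ≤ Real.log (((φ : ℝ) + 1) + w t) := by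
          refine Real.log_le_log (by positivity) ?_
          have h3 : (u t : ℝ) ≤ φ + w t := by exact_mod_cast huw t
          linarith
        have hx : (0 : ℝ) < ((φ : ℝ) + 1) + w t := by positivity
        have h3 := Real.log_le_sub_one_of_pos (div_pos hx hA0)
        rw [Real.log_div hx.ne' hA0.ne'] at h3
        linarith
      have h2 := Finset.sum_le_sum h1
      rw [Finset.sum_add_distrib, Finset.sum_sub_distrib, ← Finset.sum_div,
        Finset.sum_add_distrib, Finset.sum_const, Finset.sum_const, Finset.sum_const,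
        nsmul_eq_mul, nsmul_eq_mul, nsmul_eq_mul, mul_one] at h2
      have h3 : ((T.card : ℝ) * ((φ : ℝ) + 1) + ∑ t ∈ T, (w t : ℝ)) / A ≤ T.card := by
        rw [div_le_iff₀ hA0]
        have h4 : (T.card : ℝ) * A = T.card * ((φ : ℝ) + 1) + ((m : ℝ) - φ) := by
          rw [hA, aux1 _ _ _ hk0.ne']
        linarith
      linarith
    have hlogA : Real.log A ≤ Real.log ((φ : ℝ) + 1) +
        η * (Real.log ((m : ℝ) + 1) - Real.log ((φ : ℝ) + 1)) := by
      obtain ⟨R, hR⟩ : ∃ R : ℝ, R = ((m : ℝ) + 1) / ((φ : ℝ) + 1) := ⟨_, rfl⟩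
      have hR1 : 1 ≤ R := by
        rw [hR, one_le_div hφ0]
        linarith
      have hRM : R ≤ M := by
        rw [hR, div_le_iff₀ hφ0]
        exact hM'
      have h1 := chord (by linarith : (1 : ℝ) < M) hR1 hRM hη hη1
      have h2 : 1 + (R - 1) / T.card ≤ R ^ η := by
        refine le_trans ?_ h1
        have h3 : 1 / (T.card : ℝ) ≤ ((M : ℝ) ^ η - 1) / (M - 1) := by
          rw [div_le_div_iff₀ hk0 (by linarith)]
          linarith
        have h4 := mul_le_mul_of_nonneg_left h3 (by linarith : 0 ≤ R - 1)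
        rw [mul_one_div] at h4
        linarith
      have h3 : A = ((φ : ℝ) + 1) * (1 + (R - 1) / T.card) := by
        rw [hA, hR]
        exact aux2 _ _ _ hφ0.ne' hk0.ne'
      have h4 : 0 < 1 + (R - 1) / T.card := by
        have : 0 ≤ (R - 1) / T.card := div_nonneg (by linarith) hk0.le
        linarith
      have h5 := Real.log_le_log h4 h2
      rw [Real.log_rpow (by linarith)] at h5
      rw [h3, Real.log_mul hφ0.ne' h4.ne']
      have h6 : Real.log R = Real.log ((m : ℝ) + 1) - Real.log ((φ : ℝ) + 1) := by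
        rw [hR, Real.log_div hm0.ne' hφ0.ne']
      rw [h6] at h5
      linarith
    have hfs : Real.log (Nat.factorial (m + 1) : ℝ) =
        Real.log (Nat.factorial m) + Real.log ((m : ℝ) + 1) := by
      rw [Nat.factorial_succ]
      push_cast
      rw [Real.log_mul (by positivity) (by exact_mod_cast (Nat.factorial_pos _).ne')]
      ring
    have hlD : lf s' D = lf s D + Real.log ((φ : ℝ) + 1) := by
      rw [hins, lf_insert hjs, hφ]
    have hlU : ∑ t ∈ T, lf s' (U t) = ∑ t ∈ T, lf s (U t) +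
        ∑ t ∈ T, Real.log ((u t : ℝ) + 1) := by
      rw [← Finset.sum_add_distrib]
      refine Finset.sum_congr rfl fun t _ => ?_
      rw [hins, lf_insert hjs, hu]
    have hfin := mul_le_mul_of_nonneg_left hlogA hk0.le
    rw [hfs, hlD, hlU]
    linarith

/-- **The inequality for colourings of which one has few colours.** -/
theorem few_sharp {ι : Type*} {D : Fin n → X} {U : ι → Fin n → Y} {T : Finset ι} {M : ℕ}
    (hM2 : 2 ≤ M) (hM : (univ.image D).card ≤ M)
    (hQ : ∀ i j, D i ≠ D j → (T.filter fun t => U t i = U t j).card ≤ 1) {η : ℝ} (hη : 0 ≤ η)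
    (hη1 : η ≤ 1) (hk : (M : ℝ) - 1 ≤ T.card * ((M : ℝ) ^ η - 1)) :
    (T.card : ℝ) * (1 - η) * Real.log (rearr (⊤ : Subgroup (Equiv.Perm (Fin n))) D) ≤
      ∑ t ∈ T, Real.log (rearr (⊤ : Subgroup (Equiv.Perm (Fin n))) (U t)) := by
  have h1 := steps_sharp hM2 hM hQ hη hη1 hk n univ (by rw [Finset.card_univ, Fintype.card_fin])
  have hVl := log_rearr D
  have hUl : ∑ t ∈ T, Real.log (rearr (⊤ : Subgroup (Equiv.Perm (Fin n))) (U t)) =
      T.card * Real.log (Nat.factorial n) - ∑ t ∈ T, lf univ (U t) := by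
    rw [Finset.sum_congr rfl fun t _ => log_rearr (U t), Finset.sum_sub_distrib, Finset.sum_const,
      nsmul_eq_mul]
  have h2 : lf univ D = Real.log (Nat.factorial n) -
      Real.log (rearr (⊤ : Subgroup (Equiv.Perm (Fin n))) D) := by linarith
  rw [h2] at h1
  rw [hUl]
  linarith

end Pool.Agent.V7H23.AK
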