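import Pool.Agent.V7H23.AK.Conv
import Pool.Agent.V7H23.AK.Sharp

set_option autoImplicit false

/-!
# The symmetric group: maps with few values
-/

open Finset

namespace Pool.Agent.V7H23.AK

theorem cnt_sym {X : Type*} {n : ℕ} (w : Tr X [sym n]) :
    cnt [sym n] w = rearr (⊤ : Subgroup (Equiv.Perm (Fin n))) w := by
  rw [cnt_cons]
  have h1 : ∏ i : Fin n, cnt [] (w i) = 1 := Finset.prod_eq_one fun i _ => cnt_nil _
  have h2 : rearr (⊤ : Subgroup (Equiv.Perm (Fin n))) (fun i => orb [] (w i)) =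
      rearr (⊤ : Subgroup (Equiv.Perm (Fin n))) w := by
    rw [rearr_eq, rearr_eq]
    congr 1
    ext σ
    constructor
    · intro h
      exact ⟨h.1, fun i hi => orb_eq_iff.1 (h.2 i hi)⟩
    · intro h
      exact ⟨h.1, fun i hi => orb_eq_iff.2 (h.2 i hi)⟩
  change rearr (⊤ : Subgroup (Equiv.Perm (Fin n))) (fun i => orb [] (w i)) *
    ∏ i : Fin n, cnt [] (w i) = _
  rw [h1, mul_one, h2]

theorem few_eta {Y : Type} (g : ℤ × ℤ → Y) (T : Finset (Option ℚ)) {M n : ℕ} (hM2 : 2 ≤ M)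
    (z : Tr (ℤ × ℤ) [sym n]) (hM : (Set.range fun i : Fin n => g (z i)).ncard ≤ M)
    {η : ℝ} (hη : 0 ≤ η) (hη1 : η ≤ 1) (hk : (M : ℝ) - 1 ≤ T.card * ((M : ℝ) ^ η - 1)) :
    (T.card : ℝ) * (1 - η) * Real.log (cnt [sym n] (Tr.map g [sym n] z)) ≤
      ∑ t ∈ T, Real.log (cnt [sym n] (Tr.map (val t) [sym n] z)) := by
  classical
  have himg : ((univ.image fun i : Fin n => g (z i)).card) ≤ M := by
    refine le_trans (le_of_eq ?_) hM
    rw [← Set.ncard_coe_finset, Finset.coe_image, Finset.coe_univ, Set.image_univ]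
  have h1 := few_sharp (D := fun i : Fin n => g (z i)) (U := fun t (i : Fin n) => val t (z i))
    (T := T) hM2 himg (by
      intro i j hij
      rw [Finset.card_le_one]
      intro t ht t' ht'
      by_contra hne
      exact hij (congrArg g (val_inj hne (Finset.mem_filter.1 ht).2 (Finset.mem_filter.1 ht').2)))
    hη hη1 hk
  rw [cnt_sym]
  simp only [cnt_sym]
  exact h1

/-- **Maps with few values.** -/
theorem few_values (Y : Type) (g : ℤ × ℤ → Y) (T : Finset (Option ℚ)) (M : ℕ) (hM2 : 2 ≤ M) (n : ℕ)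
    (z : Tr (ℤ × ℤ) [sym n]) (hM : (Set.range fun i : Fin n => g (z i)).ncard ≤ M) :
    (T.card : ℝ) * (1 - Real.log (1 + ((M : ℝ) - 1) / T.card) / Real.log M) *
      Real.log (cnt [sym n] (Tr.map g [sym n] z)) ≤
      ∑ t ∈ T, Real.log (cnt [sym n] (Tr.map (val t) [sym n] z)) := by
  have hM2' : (2 : ℝ) ≤ M := by exact_mod_cast hM2
  have hM0 : (0 : ℝ) < M := by linarith
  have hlM : 0 < Real.log (M : ℝ) := Real.log_pos (by linarith)
  rcases Nat.eq_zero_or_pos T.card with h0 | h0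
  · rw [h0, Nat.cast_zero, zero_mul, zero_mul]
    exact Finset.sum_nonneg fun t _ => Real.log_natCast_nonneg _
  have hk1 : (1 : ℝ) ≤ T.card := by exact_mod_cast h0
  have hk0 : (0 : ℝ) < T.card := by linarith
  have hq0 : 0 ≤ ((M : ℝ) - 1) / T.card := div_nonneg (by linarith) hk0.le
  have hq1 : ((M : ℝ) - 1) / T.card ≤ M - 1 := div_le_self (by linarith) hk1
  refine few_eta g T hM2 z hM ?_ ?_ ?_
  · exact div_nonneg (Real.log_nonneg (by linarith)) hlM.le
  · rw [div_le_one hlM]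
    exact Real.log_le_log (by linarith) (by linarith)
  · have h1 : (M : ℝ) ^ (Real.log (1 + ((M : ℝ) - 1) / T.card) / Real.log M) =
        1 + ((M : ℝ) - 1) / T.card := by
      rw [Real.rpow_def_of_pos hM0, mul_div_cancel₀ _ hlM.ne', Real.exp_log (by linarith)]
    rw [h1]
    have h2 : (T.card : ℝ) * (1 + ((M : ℝ) - 1) / T.card - 1) = M - 1 := by
      rw [add_sub_cancel_left, mul_div_cancel₀ _ hk0.ne']
    rw [h2]

/-- **The inequality for the symmetric group if `x - y` has few values.** -/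
theorem few_differences (M : ℕ) (hM2 : 2 ≤ M) (κ : ℝ) (hκ : 1 ≤ κ) (S : Finset ℚ)
    (hS : (M : ℝ) - 1 ≤ ((S.card : ℝ) + 1) * ((M : ℝ) ^ (1 - 1 / κ) - 1)) (n : ℕ)
    (z : Tr (ℤ × ℤ) [sym n]) (hM : (Set.range fun i : Fin n => val (some (-1)) (z i)).ncard ≤ M) :
    (cnt [sym n] (Tr.map (val (some (-1))) [sym n] z) : ℝ) ≤
      (((insertNone S).sup fun t => cnt [sym n] (Tr.map (val t) [sym n] z) : ℕ) : ℝ) ^ κ := by
  obtain ⟨T, hT⟩ : ∃ T, T = insertNone S := ⟨_, rfl⟩
  have hTc : T.card = S.card + 1 := by rw [hT, Finset.card_insertNone]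
  have hk : (T.card : ℝ) = S.card + 1 := by exact_mod_cast hTc
  have hκ0 : 0 < κ := by linarith
  have hκ1 : 1 / κ ≤ 1 := by rw [div_le_one hκ0]; exact hκ
  have hκ2 : 0 < 1 / κ := by positivity
  have h1 := few_eta (val (some (-1))) T hM2 z hM (η := 1 - 1 / κ) (by linarith) (by linarith)
    (by rw [hk]; exact hS)
  obtain ⟨V, hV⟩ : ∃ V, V = Real.log (cnt [sym n] (Tr.map (val (some (-1))) [sym n] z)) := ⟨_, rfl⟩
  rw [← hV, show 1 - (1 - 1 / κ) = 1 / κ by ring] at h1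
  obtain ⟨t, ht, h5⟩ : ∃ t ∈ T, V ≤ κ * Real.log (cnt [sym n] (Tr.map (val t) [sym n] z)) := by
    by_contra hcon
    push Not at hcon
    have hne : T.Nonempty := Finset.card_pos.1 (by omega)
    have h6 := Finset.sum_lt_sum_of_nonempty hne hcon
    rw [Finset.sum_const, nsmul_eq_mul, ← Finset.mul_sum] at h6
    have h7 := mul_le_mul_of_nonneg_left h1 hκ0.le
    have h8 : κ * ((T.card : ℝ) * (1 / κ) * V) = T.card * V := by
      have : κ * (1 / κ) = 1 := mul_one_div_cancel hκ0.ne'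
      linear_combination ((T.card : ℝ) * V) * this
    linarith
  have hpos1 : (0 : ℝ) < cnt [sym n] (Tr.map (val (some (-1))) [sym n] z) := by
    exact_mod_cast cnt_pos _ _
  have hpos2 : (0 : ℝ) < cnt [sym n] (Tr.map (val t) [sym n] z) := by exact_mod_cast cnt_pos _ _
  have h8 : (cnt [sym n] (Tr.map (val (some (-1))) [sym n] z) : ℝ) ≤
      (cnt [sym n] (Tr.map (val t) [sym n] z) : ℝ) ^ κ := by
    rw [hV, ← Real.log_rpow hpos2] at h5
    exact (Real.log_le_log_iff hpos1 (Real.rpow_pos_of_pos hpos2 _)).1 h5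
  refine h8.trans (Real.rpow_le_rpow hpos2.le ?_ hκ0.le)
  rw [hT] at ht
  exact_mod_cast Finset.le_sup (f := fun t => cnt [sym n] (Tr.map (val t) [sym n] z)) ht

end Pool.Agent.V7H23.AK
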