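import Pool.Agent.V7H23.AK.Few

set_option autoImplicit false

/-!
# The sets of rearranged pairs
-/

open Finset

namespace Pool.Agent.V7H23.AK

/-- **The numbers of rearrangements are the sizes of the projections of a finite set.** -/
theorem exists_set (D : List Level) (z : Tr (ℤ × ℤ) D) (T : Finset (Option ℚ)) :
    ∃ A : Finset (ℤ × ℤ), A.card = cnt D z ∧
      ∀ t ∈ T, (A.image (val t)).card = cnt D (Tr.map (val t) D z) := by
  classical
  obtain ⟨c, hc⟩ := exists_dot D
    ((insert none (insert (some 0) T)).biUnion fun t => orb D (Tr.map (val t) D z))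
  have hmem : ∀ t ∈ insert none (insert (some 0) T), ∀ w, w ∈ orb D (Tr.map (val t) D z) →
      w ∈ (((insert none (insert (some 0) T)).biUnion fun t => orb D (Tr.map (val t) D z) :
        Finset (Tr ℚ D)) : Set (Tr ℚ D)) :=
    fun t ht w hw => Finset.mem_coe.2 (Finset.mem_biUnion.2 ⟨t, ht, hw⟩)
  have hcard : ∀ t ∈ insert none (insert (some 0) T),
      (((orb D z).image (pt D c)).image (val t)).card = cnt D (Tr.map (val t) D z) := by
    intro t ht
    rw [Finset.image_image]
    have h1 : (val t) ∘ (pt D c) = (dot D c) ∘ (Tr.map (val t) D) := funext fun w => val_pt t D c w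
    rw [h1, ← Finset.image_image, ← orb_map, Finset.card_image_of_injOn, cnt_eq]
    refine hc.mono ?_
    intro w hw
    exact hmem t ht w (Finset.mem_coe.1 hw)
  refine ⟨(orb D z).image (pt D c), ?_, fun t ht => hcard t (by simp [ht])⟩
  rw [Finset.card_image_of_injOn, cnt_eq]
  intro w hw w' hw' h
  have hw1 := mem_orb.1 (Finset.mem_coe.1 hw)
  have hw2 := mem_orb.1 (Finset.mem_coe.1 hw')
  have key : ∀ t ∈ insert none (insert (some 0) T), pj t D w = pj t D w' := by
    intro t ht
    refine hc (hmem t ht _ (mem_orb.2 (hw1.map (val t)))) (hmem t ht _ (mem_orb.2 (hw2.map (val t))))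
      ?_
    rw [← val_pt, ← val_pt, h]
  exact pj_inj (by simp : (none : Option ℚ) ≠ some 0) D w w' (key none (by simp))
    (key (some 0) (by simp))

end Pool.Agent.V7H23.AK
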