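import Pool.Agent.V7H23.AK.Digit
import Pool.Agent.V7H23.AK.Sets

set_option autoImplicit false

/-!
# All permutation groups: few differences
-/

open Finset

namespace Pool.Agent.V7H23.AK

/-- generic slopes -/
theorem generic_slopes (Δ H : Finset ℚ) {M : ℕ} (hM : 1 ≤ M) (hΔ : Δ.card ≤ M) : ∀ r : ℕ,
    M ^ (2 * r) < H.card → ∃ h : Fin (r + 1) → ℚ, (∀ j, h j ∈ H) ∧
      ∀ d d' : Fin r → ℚ, (∀ j, d j ∈ Δ) → (∀ j, d' j ∈ Δ) →
        ∑ j, (h j.castSucc - h j.succ) * d j = ∑ j, (h j.castSucc - h j.succ) * d' j → d = d' := by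
  classical
  intro r
  induction r with
  | zero =>
    intro hH
    obtain ⟨x, hx⟩ : H.Nonempty := Finset.card_pos.1 (by omega)
    exact ⟨fun _ => x, fun _ => hx, fun d d' _ _ _ => funext fun j => Fin.elim0 j⟩
  | succ r ih =>
    intro hH
    obtain ⟨h, hh, hinj⟩ := ih (lt_of_le_of_lt (Nat.pow_le_pow_right hM (by omega)) hH)
    obtain ⟨P, hP⟩ : ∃ P : Finset (Fin (r + 1) → ℚ), P = Fintype.piFinset fun _ => Δ := ⟨_, rfl⟩
    obtain ⟨bad, hbad⟩ : ∃ bad : Finset ℚ, bad = (P ×ˢ P).image fun p =>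
        h (Fin.last r) + (∑ j : Fin r, (h j.castSucc - h j.succ) * (p.1 j.castSucc - p.2 j.castSucc)) /
          (p.1 (Fin.last r) - p.2 (Fin.last r)) := ⟨_, rfl⟩
    have hbc : bad.card ≤ M ^ (2 * (r + 1)) := by
      rw [hbad]
      refine Finset.card_image_le.trans ?_
      rw [Finset.card_product, hP, Fintype.card_piFinset]
      simp only [Finset.prod_const, Finset.card_univ, Fintype.card_fin]
      rw [← pow_add, ← two_mul]
      exact Nat.pow_le_pow_left hΔ _
    obtain ⟨x, hxH, hxb⟩ : ∃ x ∈ H, x ∉ bad := by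
      by_contra hcon
      push Not at hcon
      have := Finset.card_le_card hcon
      omega
    refine ⟨Fin.snoc h x, fun j => ?_, fun d d' hd hd' heq => ?_⟩
    · refine Fin.lastCases ?_ (fun j => ?_) j
      · rw [Fin.snoc_last]
        exact hxH
      · rw [Fin.snoc_castSucc]
        exact hh j
    · have e : ∀ u : Fin (r + 1) → ℚ, ∑ j : Fin (r + 1),
          ((Fin.snoc h x : Fin (r + 1 + 1) → ℚ) j.castSucc -
            (Fin.snoc h x : Fin (r + 1 + 1) → ℚ) j.succ) * u j =
          ∑ j : Fin r, (h j.castSucc - h j.succ) * u j.castSucc +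
            (h (Fin.last r) - x) * u (Fin.last r) := by
        intro u
        rw [Fin.sum_univ_castSucc]
        congr 1
        · refine Finset.sum_congr rfl fun j _ => ?_
          rw [Fin.snoc_castSucc, Fin.succ_castSucc, Fin.snoc_castSucc]
        · rw [Fin.snoc_castSucc, Fin.succ_last, Fin.snoc_last]
      rw [e d, e d'] at heq
      have hE : ∑ j : Fin r, (h j.castSucc - h j.succ) * (d j.castSucc - d' j.castSucc) =
          ∑ j : Fin r, (h j.castSucc - h j.succ) * d j.castSucc -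
          ∑ j : Fin r, (h j.castSucc - h j.succ) * d' j.castSucc := by
        rw [← Finset.sum_sub_distrib]
        exact Finset.sum_congr rfl fun j _ => by ring
      by_cases hl : d (Fin.last r) = d' (Fin.last r)
      · rw [hl] at heq
        have h1 := hinj (fun j => d j.castSucc) (fun j => d' j.castSucc) (fun j => hd _)
          (fun j => hd' _) (add_right_cancel heq)
        funext j
        refine Fin.lastCases hl (fun j => ?_) j
        exact congrFun h1 j
      · exfalso
        apply hxb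
        rw [hbad]
        refine Finset.mem_image.2 ⟨(d, d'), ?_, ?_⟩
        · rw [hP]
          exact Finset.mem_product.2 ⟨Fintype.mem_piFinset.2 hd, Fintype.mem_piFinset.2 hd'⟩
        · have hne : d (Fin.last r) - d' (Fin.last r) ≠ 0 := sub_ne_zero.2 hl
          have h1 : (∑ j : Fin r, (h j.castSucc - h j.succ) * (d j.castSucc - d' j.castSucc)) =
              (x - h (Fin.last r)) * (d (Fin.last r) - d' (Fin.last r)) := by
            rw [hE]
            linarith
          rw [h1, mul_div_cancel_right₀ _ hne]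
          ring

theorem cnt_one {X : Type*} {n : ℕ} (G : Subgroup (Equiv.Perm (Fin n))) (w : Tr X [⟨n, G⟩]) :
    cnt [⟨n, G⟩] w = rearr G w := by
  rw [cnt_cons]
  have h1 : ∏ i : Fin n, cnt [] (w i) = 1 := Finset.prod_eq_one fun i _ => cnt_nil _
  have h2 : rearr G (fun i => orb [] (w i)) = rearr G w := by
    rw [rearr_eq, rearr_eq]
    congr 1
    ext σ
    constructor
    · intro h
      exact ⟨h.1, fun i hi => orb_eq_iff.1 (h.2 i hi)⟩
    · intro h
      exact ⟨h.1, fun i hi => orb_eq_iff.2 (h.2 i hi)⟩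
  change rearr G (fun i => orb [] (w i)) * ∏ i : Fin n, cnt [] (w i) = _
  rw [h1, mul_one, h2]


/-- **All permutation groups.** -/
theorem group_bound (M r : ℕ) (S : Finset ℚ) (hS : M ^ (2 * r) < S.card) (n : ℕ)
    (G : Subgroup (Equiv.Perm (Fin n))) (z : Tr (ℤ × ℤ) [⟨n, G⟩])
    (hM : (Set.range fun i : Fin n => val (some (-1)) (z i)).ncard ≤ M) :
    cnt [⟨n, G⟩] z ^ r ≤
      ((insertNone S).sup fun t => cnt [⟨n, G⟩] (Tr.map (val t) [⟨n, G⟩] z)) ^ (r + 1) := by
  classical
  obtain ⟨big, hbig⟩ : ∃ big, big = (insertNone S).sup fun t =>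
    cnt [⟨n, G⟩] (Tr.map (val t) [⟨n, G⟩] z) := ⟨_, rfl⟩
  rw [← hbig]
  have hle : ∀ t ∈ insertNone S, cnt [⟨n, G⟩] (Tr.map (val t) [⟨n, G⟩] z) ≤ big := fun t ht =>
    hbig ▸ Finset.le_sup (f := fun t => cnt [⟨n, G⟩] (Tr.map (val t) [⟨n, G⟩] z)) ht
  have hbpos : 1 ≤ big := (cnt_pos _ _).trans_le (hle none (by simp))
  rcases Nat.eq_zero_or_pos n with hn | hn
  · subst hn
    have h1 : cnt [⟨0, G⟩] z ≤ 1 := by
      rw [cnt_one]
      refine (rearr_le z).trans ?_
      have : Nat.card G ≤ Nat.card (Equiv.Perm (Fin 0)) := Subgroup.card_le_card_group G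
      refine this.trans ?_
      rw [Nat.card_eq_fintype_card, Fintype.card_perm, Fintype.card_fin, Nat.factorial_zero]
    calc cnt [⟨0, G⟩] z ^ r ≤ 1 ^ r := Nat.pow_le_pow_left h1 r
      _ = 1 := one_pow r
      _ ≤ _ := Nat.one_le_pow _ _ hbpos
  -- the values of the differences
  obtain ⟨Δ, hΔ⟩ : ∃ Δ : Finset ℚ, Δ = univ.image fun i : Fin n => val (some (-1)) (z i) := ⟨_, rfl⟩
  have hΔM : Δ.card ≤ M := by
    refine le_trans (le_of_eq ?_) hM
    rw [← Set.ncard_coe_finset, hΔ, Finset.coe_image, Finset.coe_univ, Set.image_univ]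
  have hM1 : 1 ≤ M := by
    refine le_trans (Finset.card_pos.2 ?_) hΔM
    rw [hΔ]
    exact ⟨_, Finset.mem_image_of_mem _ (mem_univ ⟨0, hn⟩)⟩
  -- the parameters
  obtain ⟨S', hS'⟩ : ∃ S' : Finset ℚ, S' = S.erase (-1) := ⟨_, rfl⟩
  have hne1 : ∀ t ∈ S', 1 + t ≠ 0 := by
    intro t ht h
    rw [hS'] at ht
    exact (Finset.mem_erase.1 ht).1 (by linarith)
  obtain ⟨H, hH⟩ : ∃ H : Finset ℚ, H = insert 0 (S'.image fun t => 1 / (1 + t)) := ⟨_, rfl⟩
  have hHc : S.card ≤ H.card := by
    have h1 : (S'.image fun t => 1 / (1 + t)).card = S'.card := by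
      refine Finset.card_image_of_injOn fun t _ t' _ h => ?_
      have h2 : 1 / (1 + t) = 1 / (1 + t') := h
      rw [one_div, one_div] at h2
      have := inv_injective h2
      linarith
    have h2 : (0 : ℚ) ∉ S'.image fun t => 1 / (1 + t) := by
      rw [Finset.mem_image]
      rintro ⟨t, ht, h3⟩
      exact (one_div_ne_zero (hne1 t ht)) h3
    rw [hH, Finset.card_insert_of_notMem h2, h1, hS']
    have h3 := Finset.pred_card_le_card_erase (s := S) (a := (-1 : ℚ))
    omega
  obtain ⟨h, hh, hgen⟩ := generic_slopes Δ H hM1 hΔM r (hS.trans_le hHc)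
  -- the set
  obtain ⟨ι, hι⟩ : ∃ ι : (Fin n → ℤ × ℤ) → (Fin n → ℚ) × (Fin n → ℚ),
    ι = fun w => (fun i => ((w i).1 : ℚ), fun i => ((w i).2 : ℚ)) := ⟨_, rfl⟩
  have hιinj : Function.Injective ι := by
    intro w w' hww
    rw [hι] at hww
    have h1 := Prod.ext_iff.1 hww
    funext i
    have h2 : ((w i).1 : ℚ) = (w' i).1 := congrFun h1.1 i
    have h3 : ((w i).2 : ℚ) = (w' i).2 := congrFun h1.2 i
    exact Prod.ext (by exact_mod_cast h2) (by exact_mod_cast h3)
  obtain ⟨A, hA⟩ : ∃ A : Finset ((Fin n → ℚ) × (Fin n → ℚ)),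
    A = (els G).image fun σ => ι (pm z σ) := ⟨_, rfl⟩
  have hAc : A.card = cnt [⟨n, G⟩] z := by
    have h1 : A = ((els G).image (pm z)).image ι := by
      rw [hA, Finset.image_image]
      rfl
    rw [h1, Finset.card_image_of_injective _ hιinj, cnt_one]
    exact rearr_inst _ _
  have hAne : A.Nonempty := by
    rw [← Finset.card_pos, hAc]
    exact cnt_pos _ _
  have hproj : ∀ k ∈ H, (A.image (pr k)).card ≤ big := by
    intro k hk
    have h1 : ∃ t ∈ insertNone S, ∃ φ : ℚ → ℚ, ∀ l : ℤ × ℤ,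
        (l.2 : ℚ) + k * ((l.1 : ℚ) - l.2) = φ (val t l) := by
      rw [hH, Finset.mem_insert, Finset.mem_image] at hk
      rcases hk with rfl | ⟨t, ht, rfl⟩
      · refine ⟨none, by simp, fun v => v, fun l => ?_⟩
        simp [val]
      · refine ⟨some t, ?_, fun v => (1 / (1 + t)) * v, fun l => ?_⟩
        · rw [hS'] at ht
          exact Finset.some_mem_insertNone.2 (Finset.mem_erase.1 ht).2
        · have h2 := hne1 t ht
          simp only [val, Option.elim_some]
          field_simp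
          ring
    obtain ⟨t, ht, φ, hφ⟩ := h1
    refine le_trans ?_ (hle t ht)
    have h2 : A.image (pr k) = (els G).image (pm (Tr.map φ [⟨n, G⟩]
        (Tr.map (val t) [⟨n, G⟩] z) : Fin n → ℚ)) := by
      rw [hA, Finset.image_image]
      refine Finset.image_congr fun σ _ => ?_
      funext i
      rw [hι]
      exact hφ (z (σ i))
    rw [h2]
    have h3 : ((els G).image (pm (Tr.map φ [⟨n, G⟩]
        (Tr.map (val t) [⟨n, G⟩] z) : Fin n → ℚ))).card =
        cnt [⟨n, G⟩] (Tr.map φ [⟨n, G⟩] (Tr.map (val t) [⟨n, G⟩] z)) := by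
      rw [cnt_one]
      exact rearr_inst _ _
    rw [h3]
    exact cnt_map_le φ [⟨n, G⟩] _
  have h1 := path_bound r h A hAne 1 (by
    intro w
    rw [Finset.card_le_one]
    intro d hd d' hd'
    obtain ⟨hd1, hd2⟩ := Finset.mem_filter.1 hd
    obtain ⟨hd1', hd2'⟩ := Finset.mem_filter.1 hd'
    rw [Fintype.mem_piFinset] at hd1 hd1'
    have hmem : ∀ u ∈ A.image (fun a => a.1 - a.2), ∀ i, u i ∈ Δ := by
      intro u hu i
      obtain ⟨a, ha, rfl⟩ := Finset.mem_image.1 hu
      rw [hA] at ha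
      obtain ⟨σ, _, rfl⟩ := Finset.mem_image.1 ha
      rw [hΔ]
      refine Finset.mem_image.2 ⟨σ i, mem_univ _, ?_⟩
      rw [hι]
      simp only [val, Option.elim_some, Pi.sub_apply, pm]
      ring
    have hcoord : ∀ i, (fun j => d j i) = fun j => d' j i := by
      intro i
      refine hgen _ _ (fun j => hmem _ (hd1 j) i) (fun j => hmem _ (hd1' j) i) ?_
      have h2 := congrFun (hd2.trans hd2'.symm) i
      simp only [Finset.sum_apply, Pi.smul_apply, smul_eq_mul] at h2
      exact h2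
    funext j i
    exact congrFun (hcoord i) j)
  rw [one_mul, hAc] at h1
  refine h1.trans ?_
  calc ∏ j : Fin (r + 1), (A.image (pr (h j))).card ≤ ∏ _j : Fin (r + 1), big :=
        Finset.prod_le_prod' fun j _ => hproj _ (hh j)
    _ = big ^ (r + 1) := by rw [Finset.prod_const, Finset.card_univ, Fintype.card_fin]

end Pool.Agent.V7H23.AK
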