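import Pool.Agent.V7H23.AK.Node

set_option autoImplicit false

/-!
# Commuting permutations and functions with values in the polynomials
-/

open Finset Polynomial

namespace Pool.Agent.V7H23.AK

variable {e : ℕ}

/-- the difference operator -/
noncomputable def dl (σ : Equiv.Perm (Fin e)) (u : Fin e → ℚ[X]) : Fin e → ℚ[X] := fun i => u (σ i) - u i

/-- all the `k`-fold differences by elements of `E (k - 1), …, E 0` vanish on `J` -/
def Kill (J : Finset (Fin e)) (E : ℕ → Subgroup (Equiv.Perm (Fin e))) : ℕ → (Fin e → ℚ[X]) → Prop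
  | 0, u => ∀ i ∈ J, u i = 0
  | k + 1, u => ∀ σ ∈ E k, Kill J E k (dl σ u)

section kill

variable {J : Finset (Fin e)} {E : ℕ → Subgroup (Equiv.Perm (Fin e))}
  {G : Subgroup (Equiv.Perm (Fin e))}

theorem kill_congr (hJ : Invt G J) (hE : ∀ k, E k ≤ G) : ∀ (k : ℕ) {u v : Fin e → ℚ[X]},
    (∀ i ∈ J, u i = v i) → Kill J E k u → Kill J E k v
  | 0, _, _, h, hu => fun i hi => (h i hi).symm.trans (hu i hi)
  | k + 1, u, v, h, hu => fun σ hσ => kill_congr hJ hE k (fun i hi => by
      unfold dl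
      rw [h i hi, h _ (hJ σ (hE k hσ) i hi)]) (hu σ hσ)

theorem kill_add : ∀ (k : ℕ) {u v : Fin e → ℚ[X]},
    Kill J E k u → Kill J E k v → Kill J E k fun i => u i + v i
  | 0, u, v, hu, hv => fun i hi => by
      change u i + v i = 0
      rw [hu i hi, hv i hi, add_zero]
  | k + 1, u, v, hu, hv => fun σ hσ => by
      have h1 := kill_add k (hu σ hσ) (hv σ hσ)
      have h2 : (dl σ fun i => u i + v i) = fun i => dl σ u i + dl σ v i := by
        funext i
        unfold dl
        ring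
      rw [h2]
      exact h1

theorem kill_neg : ∀ (k : ℕ) {u : Fin e → ℚ[X]}, Kill J E k u → Kill J E k fun i => - u i
  | 0, u, hu => fun i hi => by
      change - u i = 0
      rw [hu i hi, neg_zero]
  | k + 1, u, hu => fun σ hσ => by
      have h1 := kill_neg k (hu σ hσ)
      have h2 : (dl σ fun i => - u i) = fun i => - dl σ u i := by
        funext i
        unfold dl
        ring
      rw [h2]
      exact h1

theorem kill_shift (hJ : Invt G J) (hE : ∀ k, E k ≤ G)
    (hc : ∀ σ ∈ G, ∀ τ ∈ G, ∀ j ∈ J, σ (τ j) = τ (σ j)) {τ : Equiv.Perm (Fin e)} (hτ : τ ∈ G) :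
    ∀ (k : ℕ) {u : Fin e → ℚ[X]}, Kill J E k u → Kill J E k fun i => u (τ i)
  | 0, _, hu => fun i hi => hu _ (hJ τ hτ i hi)
  | k + 1, u, hu => fun σ hσ => by
      have h1 := kill_shift hJ hE hc hτ k (hu σ hσ)
      refine kill_congr hJ hE k (fun i hi => ?_) h1
      unfold dl
      rw [hc σ (hE k hσ) τ hτ i hi]

theorem kill_zero : ∀ (k : ℕ) {u : Fin e → ℚ[X]}, (∀ i, u i = 0) → Kill J E k u
  | 0, _, hu => fun i _ => hu i
  | k + 1, u, hu => fun σ _ => kill_zero k fun i => by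
      unfold dl
      rw [hu, hu, sub_zero]

/-- the elements by which all the differences are killed -/
def killGroup (hJ : Invt G J) (hE : ∀ k, E k ≤ G)
    (hc : ∀ σ ∈ G, ∀ τ ∈ G, ∀ j ∈ J, σ (τ j) = τ (σ j)) (k : ℕ) (u : Fin e → ℚ[X]) :
    Subgroup (Equiv.Perm (Fin e)) where
  carrier := {σ | σ ∈ G ∧ Kill J E k (dl σ u)}
  one_mem' := ⟨G.one_mem, kill_zero k fun i => by
    unfold dl
    rw [Equiv.Perm.one_apply, sub_self]⟩
  mul_mem' := by
    rintro σ τ ⟨h1, h2⟩ ⟨h3, h4⟩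
    refine ⟨G.mul_mem h1 h3, ?_⟩
    have h5 := kill_add k (kill_shift hJ hE hc h3 k h2) h4
    refine kill_congr hJ hE k (fun i _ => ?_) h5
    unfold dl
    rw [Equiv.Perm.mul_apply]
    ring
  inv_mem' := by
    rintro σ ⟨h1, h2⟩
    refine ⟨G.inv_mem h1, ?_⟩
    have h5 := kill_neg k (kill_shift hJ hE hc (G.inv_mem h1) k h2)
    refine kill_congr hJ hE k (fun i _ => ?_) h5
    unfold dl
    rw [app_inv]
    ring

/-- the functions which are considered -/
structure Cls (J : Finset (Fin e)) (m : ℕ) (Xs : ℚ → Subgroup (Equiv.Perm (Fin e)))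
    (Y₀ : Subgroup (Equiv.Perm (Fin e))) (u : Fin e → ℚ[X]) : Prop where
  deg : ∀ i ∈ J, (u i).natDegree ≤ m
  ev : ∀ s, ∀ τ ∈ Xs s, ∀ i ∈ J, (u (τ i)).eval s = (u i).eval s
  fix : ∀ τ ∈ Y₀, ∀ i ∈ J, u (τ i) = u i

variable {m : ℕ} {Xs : ℚ → Subgroup (Equiv.Perm (Fin e))} {Y₀ : Subgroup (Equiv.Perm (Fin e))}

theorem Cls.dl (hJ : Invt G J) (hc : ∀ σ ∈ G, ∀ τ ∈ G, ∀ j ∈ J, σ (τ j) = τ (σ j))
    (hX : ∀ s, Xs s ≤ G) (hY : Y₀ ≤ G) {u : Fin e → ℚ[X]} (hu : Cls J m Xs Y₀ u)
    {σ : Equiv.Perm (Fin e)} (hσ : σ ∈ G) : Cls J m Xs Y₀ (dl σ u) where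
  deg := fun i hi => (Polynomial.natDegree_sub_le _ _).trans
    (max_le (hu.deg _ (hJ σ hσ i hi)) (hu.deg i hi))
  ev := fun s τ hτ i hi => by
    unfold AK.dl
    rw [Polynomial.eval_sub, Polynomial.eval_sub, hu.ev s τ hτ i hi, hc σ hσ τ (hX s hτ) i hi,
      hu.ev s τ hτ _ (hJ σ hσ i hi)]
  fix := fun τ hτ i hi => by
    unfold AK.dl
    rw [hu.fix τ hτ i hi, hc σ hσ τ (hY hτ) i hi, hu.fix τ hτ _ (hJ σ hσ i hi)]

/-- the group generated by `Y₀` and the groups of the slopes of a block -/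
def gen (Xs : ℚ → Subgroup (Equiv.Perm (Fin e))) (Y₀ : Subgroup (Equiv.Perm (Fin e)))
    (b : Finset ℚ) : Subgroup (Equiv.Perm (Fin e)) := Y₀ ⊔ ⨆ s ∈ b, Xs s

theorem gen_le (hX : ∀ s, Xs s ≤ G) (hY : Y₀ ≤ G) (b : Finset ℚ) : gen Xs Y₀ b ≤ G :=
  sup_le hY (iSup₂_le fun s _ => hX s)

theorem kill_of (hJ : Invt G J) (hc : ∀ σ ∈ G, ∀ τ ∈ G, ∀ j ∈ J, σ (τ j) = τ (σ j))
    (hX : ∀ s, Xs s ≤ G) (hY : Y₀ ≤ G) (b : ℕ → Finset ℚ) : ∀ (k : ℕ) (u : Fin e → ℚ[X]),
      Cls J m Xs Y₀ u → ∀ R : Finset ℚ, (∀ i ∈ J, ∀ r ∈ R, (u i).eval r = 0) →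
      (∀ j < k, Disjoint R (b j)) → (∀ j < k, ∀ l < j, Disjoint (b j) (b l)) →
      m + 1 ≤ R.card + k → Kill J (fun j => gen Xs Y₀ (b j)) k u := by
  classical
  intro k
  induction k with
  | zero =>
    intro u hu R hR _ _ hm i hi
    exact Polynomial.eq_zero_of_natDegree_lt_card_of_eval_eq_zero' (u i) R (hR i hi)
      (lt_of_le_of_lt (hu.deg i hi) (by omega))
  | succ k ih =>
    intro u hu R hR hd hp hm σ hσ
    have hE : ∀ k, (fun j => gen Xs Y₀ (b j)) k ≤ G := fun k => gen_le hX hY _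
    have hle : gen Xs Y₀ (b k) ≤ killGroup (E := fun j => gen Xs Y₀ (b j)) hJ hE hc k u := by
      refine sup_le ?_ (iSup₂_le fun s hs => ?_)
      · intro τ hτ
        refine ⟨hY hτ, kill_congr hJ hE k (fun i hi => ?_) (kill_zero k (u := fun _ => 0)
          fun _ => rfl)⟩
        unfold dl
        rw [hu.fix τ hτ i hi, sub_self]
      · intro τ hτ
        refine ⟨hX s hτ, ih (dl τ u) (hu.dl hJ hc hX hY (hX s hτ)) (insert s R) ?_ ?_
          (fun j hj l hl => hp j (by omega) l hl) ?_⟩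
        · intro i hi r hr
          unfold dl
          rw [Polynomial.eval_sub]
          rcases Finset.mem_insert.1 hr with rfl | hr
          · rw [hu.ev r τ hτ i hi, sub_self]
          · rw [hR _ (hJ τ (hX s hτ) i hi) r hr, hR i hi r hr, sub_zero]
        · intro j hj
          rw [Finset.disjoint_insert_left]
          exact ⟨Finset.disjoint_left.1 (hp k (by omega) j hj) hs, hd j (by omega)⟩
        · have : s ∉ R := fun h => Finset.disjoint_left.1 (hd k (by omega)) h hs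
          rw [Finset.card_insert_of_notMem this]
          omega
    exact (hle hσ).2

/-- the iterated difference vanishes -/
theorem kill_iter {k : ℕ} {v : Fin e → ℚ[X]} {σ : Equiv.Perm (Fin e)}
    (h : Kill J E k v) (hσ : ∀ j < k, σ ∈ E j) : ∀ i ∈ J, (dl σ)^[k] v i = 0 := by
  induction k generalizing v with
  | zero => exact h
  | succ k ih =>
    rw [Function.iterate_succ, Function.comp]
    exact ih (h σ (hσ k (by omega))) fun j hj => hσ j (by omega)

theorem two_step (hJ : Invt G J) {σ : Equiv.Perm (Fin e)} (hσ : σ ∈ G) {v : Fin e → ℚ[X]}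
    (h : ∀ i ∈ J, dl σ (dl σ v) i = 0) : ∀ i ∈ J, dl σ v i = 0 := by
  have hpow : ∀ n : ℕ, ∀ i ∈ J, (σ ^ n) i ∈ J := by
    intro n i hi
    exact hJ _ (G.pow_mem hσ n) i hi
  have h1 : ∀ n : ℕ, ∀ i ∈ J, dl σ v ((σ ^ n) i) = dl σ v i := by
    intro n
    induction n with
    | zero => intro i _; rfl
    | succ n ih =>
      intro i hi
      have h2 := h _ (hpow n i hi)
      have h3 : dl σ v (σ ((σ ^ n) i)) = dl σ v ((σ ^ n) i) := sub_eq_zero.1 h2
      rw [pow_succ', Equiv.Perm.mul_apply, h3, ih i hi]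
  have h2 : ∀ n : ℕ, ∀ i ∈ J, v ((σ ^ n) i) = v i + n * dl σ v i := by
    intro n
    induction n with
    | zero => intro i _; simp
    | succ n ih =>
      intro i hi
      have h3 : v (σ ((σ ^ n) i)) = v ((σ ^ n) i) + dl σ v ((σ ^ n) i) := by
        unfold dl
        ring
      rw [pow_succ', Equiv.Perm.mul_apply, h3, h1 n i hi, ih i hi]
      push_cast
      ring
  intro i hi
  have h3 := h2 (orderOf σ) i hi
  rw [pow_orderOf_eq_one, Equiv.Perm.one_apply] at h3
  have h4 : (orderOf σ : ℚ[X]) * dl σ v i = 0 := by linear_combination -h3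
  rcases mul_eq_zero.1 h4 with h5 | h5
  · exact absurd (by exact_mod_cast h5) (orderOf_pos σ).ne'
  · exact h5

theorem iter_step (hJ : Invt G J) {σ : Equiv.Perm (Fin e)} (hσ : σ ∈ G) : ∀ (k : ℕ)
    {v : Fin e → ℚ[X]}, (∀ i ∈ J, (dl σ)^[k + 1] v i = 0) → ∀ i ∈ J, dl σ v i = 0
  | 0, _, h => h
  | k + 1, v, h => by
      have h1 : ∀ i ∈ J, dl σ (dl σ ((dl σ)^[k] v)) i = 0 := by
        intro i hi
        have := h i hi
        rw [Function.iterate_succ_apply', Function.iterate_succ_apply'] at this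
        exact this
      have h2 := two_step hJ hσ h1
      refine iter_step hJ hσ k (v := v) ?_
      intro i hi
      rw [Function.iterate_succ_apply']
      exact h2 i hi

/-- **An element of the group of one slope which is contained in the groups generated by `m` further
disjoint blocks of slopes preserves all the functions of degree `≤ m`.** -/
theorem indep (hJ : Invt G J) (hc : ∀ σ ∈ G, ∀ τ ∈ G, ∀ j ∈ J, σ (τ j) = τ (σ j))
    (hX : ∀ s, Xs s ≤ G) (hY : Y₀ ≤ G) (b : ℕ → Finset ℚ)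
    (hp : ∀ j < m, ∀ l < j, Disjoint (b j) (b l)) {t : ℚ} (ht : ∀ j < m, t ∉ b j)
    {u : Fin e → ℚ[X]} (hu : Cls J m Xs Y₀ u) {σ : Equiv.Perm (Fin e)} (hσ : σ ∈ Xs t)
    (hσ' : ∀ j < m, σ ∈ gen Xs Y₀ (b j)) : ∀ i ∈ J, u (σ i) = u i := by
  have h1 := kill_of hJ hc hX hY b m (dl σ u) (hu.dl hJ hc hX hY (hX t hσ)) {t}
    (by
      intro i hi r hr
      rw [Finset.mem_singleton] at hr
      rw [hr]
      unfold dl
      rw [Polynomial.eval_sub, hu.ev t σ hσ i hi, sub_self])
    (fun j hj => by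
      rw [Finset.disjoint_singleton_left]
      exact ht j hj) hp (by rw [Finset.card_singleton]; omega)
  have h2 := kill_iter (σ := σ) h1 hσ'
  have h3 : ∀ i ∈ J, (dl σ)^[m + 1] u i = 0 := by
    intro i hi
    rw [Function.iterate_succ_apply]
    exact h2 i hi
  intro i hi
  exact sub_eq_zero.1 (iter_step hJ (hX t hσ) m h3 i hi)

end kill

/-! ### counting -/

section count

variable {Γ : Type*} [Group Γ]

theorem relIndex_anti {H K A : Subgroup Γ} [Finite Γ] (h : H ⊓ A ≤ K) :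
    K.relIndex A ≤ H.relIndex A := by
  rw [← Subgroup.inf_relIndex_right H A]
  exact Nat.le_of_dvd (Nat.pos_of_ne_zero (relIndex_ne _ _))
    (Subgroup.relIndex_dvd_of_le_left A h)

theorem ix_anti {H K A : Subgroup Γ} [Finite Γ] (h : H ⊓ A ≤ K) : ix K A ≤ ix H A := by
  unfold ix
  refine Real.logb_le_logb_of_le (by norm_num) ?_ ?_
  · exact_mod_cast Nat.pos_of_ne_zero (relIndex_ne K A)
  · exact_mod_cast relIndex_anti h

theorem ix_inf_le [Finite Γ] (H K A : Subgroup Γ) : ix (H ⊓ K) A ≤ ix H A + ix K A := by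
  unfold ix
  rw [← Real.logb_mul]
  · refine Real.logb_le_logb_of_le (by norm_num) ?_ ?_
    · exact_mod_cast Nat.pos_of_ne_zero (relIndex_ne _ A)
    · exact_mod_cast Subgroup.relIndex_inf_le
  · exact_mod_cast relIndex_ne H A
  · exact_mod_cast relIndex_ne K A

/-- the intersection of the first `k` groups -/
def meet (E : ℕ → Subgroup Γ) : ℕ → Subgroup Γ
  | 0 => ⊤
  | k + 1 => meet E k ⊓ E k

theorem mem_meet {E : ℕ → Subgroup Γ} {σ : Γ} : ∀ {k : ℕ}, σ ∈ meet E k ↔ ∀ j < k, σ ∈ E j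
  | 0 => ⟨fun _ j hj => absurd hj (Nat.not_lt_zero j), fun _ => Subgroup.mem_top σ⟩
  | k + 1 => by
      unfold meet
      rw [Subgroup.mem_inf, mem_meet (k := k)]
      constructor
      · rintro ⟨h1, h2⟩ j hj
        rcases Nat.lt_succ_iff_lt_or_eq.1 hj with h | rfl
        · exact h1 j h
        · exact h2
      · intro h
        exact ⟨fun j hj => h j (by omega), h k (by omega)⟩

theorem ix_meet [Finite Γ] (E : ℕ → Subgroup Γ) (A : Subgroup Γ) : ∀ k : ℕ,
    ix (meet E k) A ≤ ∑ j ∈ range k, ix (E j) A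
  | 0 => by
      unfold meet ix
      rw [Subgroup.relIndex_eq_one.2 le_top]
      simp
  | k + 1 => by
      rw [Finset.sum_range_succ]
      exact (ix_inf_le _ _ _).trans (by linarith [ix_meet E A k])

end count

/-- **The total size of the groups of the slopes.** -/
theorem total {H : Subgroup (Equiv.Perm (Fin e))} {Xs : ℚ → Subgroup (Equiv.Perm (Fin e))}
    {Y₀ : Subgroup (Equiv.Perm (Fin e))} {m : ℕ} (hm : 0 < m) (hX : ∀ s, Xs s ≤ H) (hY : Y₀ ≤ H)
    (key : ∀ b : ℕ → Finset ℚ, (∀ j < m, ∀ l < j, Disjoint (b j) (b l)) → ∀ t : ℚ,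
      (∀ j < m, t ∉ b j) → meet (fun j => gen Xs Y₀ (b j)) m ⊓ Xs t ≤ Y₀) (T : Finset ℚ) :
    ∑ t ∈ T, ix Y₀ (Xs t) ≤ (m : ℝ) ^ 2 * ix Y₀ H := by
  classical
  have hm' : (0 : ℝ) < m := by exact_mod_cast hm
  have main : ∀ T : Finset ℚ, ∃ b : ℕ → Finset ℚ, (∀ j, b j ⊆ T) ∧
      (∀ j l, j ≠ l → Disjoint (b j) (b l)) ∧
      ∑ t ∈ T, ix Y₀ (Xs t) ≤ m * ∑ j ∈ range m, ix Y₀ (gen Xs Y₀ (b j)) := by
    intro T
    induction T using Finset.induction_on with
    | empty =>
      refine ⟨fun _ => ∅, fun j => Finset.Subset.refl _, fun j l _ => Finset.disjoint_empty_left _,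
        ?_⟩
      rw [Finset.sum_empty]
      exact mul_nonneg hm'.le (Finset.sum_nonneg fun j _ => ix_nonneg _ _)
    | insert t T ht ih =>
      obtain ⟨b, hbT, hbd, hb⟩ := ih
      have h1 := key b (fun j _ l hl => hbd j l (by omega)) t fun j _ h => ht (hbT j h)
      have h2 := (ix_anti h1).trans (ix_meet (fun j => gen Xs Y₀ (b j)) (Xs t) m)
      obtain ⟨j, hj, h3⟩ : ∃ j ∈ range m, ix Y₀ (Xs t) ≤ m * ix (gen Xs Y₀ (b j)) (Xs t) := by
        by_contra hcon
        push Not at hcon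
        have hne : (range m).Nonempty := ⟨0, Finset.mem_range.2 hm⟩
        have h4 := Finset.sum_lt_sum_of_nonempty hne hcon
        rw [Finset.sum_const, Finset.card_range, nsmul_eq_mul, ← Finset.mul_sum] at h4
        have h5 := mul_le_mul_of_nonneg_left h2 hm'.le
        linarith
      have hgen : gen Xs Y₀ (insert t (b j)) = gen Xs Y₀ (b j) ⊔ Xs t := by
        unfold gen
        rw [Finset.iSup_insert, sup_comm (Xs t), sup_assoc]
      refine ⟨Function.update b j (insert t (b j)), ?_, ?_, ?_⟩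
      · intro l
        by_cases hl : l = j
        · rw [hl, Function.update_self]
          exact Finset.insert_subset_insert _ (hbT j)
        · rw [Function.update_of_ne hl]
          exact (hbT l).trans (Finset.subset_insert _ _)
      · have hdis : ∀ l, l ≠ j → Disjoint (insert t (b j)) (b l) := by
          intro l hl
          rw [Finset.disjoint_insert_left]
          exact ⟨fun h => ht (hbT l h), hbd j l hl.symm⟩
        intro l l' hll
        by_cases hl : l = j
        · have hl' : l' ≠ j := fun h => hll (hl.trans h.symm)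
          rw [hl, Function.update_self, Function.update_of_ne hl']
          exact hdis l' hl'
        · by_cases hl' : l' = j
          · rw [hl', Function.update_self, Function.update_of_ne hl]
            exact (hdis l hl).symm
          · rw [Function.update_of_ne hl, Function.update_of_ne hl']
            exact hbd l l' hll
      · rw [Finset.sum_insert ht, ← Finset.add_sum_erase _ _ hj, Function.update_self]
        have h4 : ∑ x ∈ (range m).erase j, ix Y₀ (gen Xs Y₀ (Function.update b j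
            (insert t (b j)) x)) = ∑ x ∈ (range m).erase j, ix Y₀ (gen Xs Y₀ (b x)) := by
          refine Finset.sum_congr rfl fun x hx => ?_
          rw [Function.update_of_ne (Finset.ne_of_mem_erase hx)]
        rw [h4]
        rw [← Finset.add_sum_erase _ _ hj] at hb
        have h5 : ix Y₀ (gen Xs Y₀ (insert t (b j))) = ix Y₀ (gen Xs Y₀ (b j)) +
            ix (gen Xs Y₀ (b j)) (gen Xs Y₀ (b j) ⊔ Xs t) := by
          rw [hgen]
          exact ix_mul le_sup_left le_sup_left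
        have h6 := ix_mono (H := gen Xs Y₀ (b j)) (le_sup_right : Xs t ≤ gen Xs Y₀ (b j) ⊔ Xs t)
        rw [h5]
        have h7 := mul_le_mul_of_nonneg_left h6 hm'.le
        have h8 : (m : ℝ) * (ix Y₀ (gen Xs Y₀ (b j)) +
            ix (gen Xs Y₀ (b j)) (gen Xs Y₀ (b j) ⊔ Xs t) +
            ∑ x ∈ (range m).erase j, ix Y₀ (gen Xs Y₀ (b x))) =
            m * (ix Y₀ (gen Xs Y₀ (b j)) + ∑ x ∈ (range m).erase j, ix Y₀ (gen Xs Y₀ (b x))) +
            m * ix (gen Xs Y₀ (b j)) (gen Xs Y₀ (b j) ⊔ Xs t) := by ring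
        rw [h8]
        linarith
  obtain ⟨b, _, _, hb⟩ := main T
  refine hb.trans ?_
  have h1 : ∑ j ∈ range m, ix Y₀ (gen Xs Y₀ (b j)) ≤ m * ix Y₀ H := by
    refine (Finset.sum_le_sum fun j _ => ix_mono (H := Y₀) (gen_le hX hY (b j))).trans ?_
    rw [Finset.sum_const, Finset.card_range, nsmul_eq_mul]
  have h2 := mul_le_mul_of_nonneg_left h1 hm'.le
  rw [sq, mul_assoc]
  exact h2

end Pool.Agent.V7H23.AK
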