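import Pool.Agent.V7H23.AK.Path

set_option autoImplicit false

/-!
# The inequality for the projections
-/

open Finset

namespace Pool.Agent.V7H23.AK

section lin

variable {V : Type*} [AddCommGroup V] [Module ℚ V]

/-- the projection with the parameter `h`: proportional to `x + r y`, `h = 1 / (r + 1)` -/
def pr (h : ℚ) (a : V × V) : V := a.2 + h • (a.1 - a.2)

theorem pr_sub (h h' : ℚ) (a : V × V) : pr h a - pr h' a = (h - h') • (a.1 - a.2) := by
  unfold pr
  rw [sub_smul]
  abel

theorem telescope {r : ℕ} (h : Fin (r + 1) → ℚ) (p : Fin (r + 1 + 1) → V × V)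
    (hp : ∀ j : Fin (r + 1), pr (h j) (p j.castSucc) = pr (h j) (p j.succ)) :
    ∑ j : Fin r, (h j.castSucc - h j.succ) • ((p j.succ.castSucc).1 - (p j.succ.castSucc).2) =
      pr (h 0) (p 0) - pr (h (Fin.last r)) (p (Fin.last (r + 1))) := by
  have h1 : ∑ j : Fin (r + 1), pr (h j) (p j.castSucc) =
      ∑ j : Fin (r + 1), pr (h j) (p j.succ) := Finset.sum_congr rfl fun j _ => hp j
  rw [Fin.sum_univ_succ, Fin.sum_univ_castSucc (f := fun j : Fin (r + 1) => pr (h j) (p j.succ))]
    at h1
  have h2 : ∑ j : Fin r, (h j.castSucc - h j.succ) •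
      ((p j.succ.castSucc).1 - (p j.succ.castSucc).2) =
      ∑ j : Fin r, pr (h j.castSucc) (p j.castSucc.succ) -
      ∑ j : Fin r, pr (h j.succ) (p j.succ.castSucc) := by
    rw [← Finset.sum_sub_distrib]
    refine Finset.sum_congr rfl fun j _ => ?_
    rw [Fin.succ_castSucc, pr_sub]
  rw [h2]
  have h3 : p (Fin.castSucc 0) = p 0 := rfl
  have h4 : (Fin.last r).succ = Fin.last (r + 1) := Fin.succ_last r
  rw [h3, h4] at h1
  have h5 : ∑ j : Fin r, pr (h j.castSucc) (p j.castSucc.succ) =
      pr (h 0) (p 0) + ∑ j : Fin r, pr (h j.succ) (p j.succ.castSucc) -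
      pr (h (Fin.last r)) (p (Fin.last (r + 1))) := by
    rw [h1]
    abel
  rw [h5]
  abel

variable [DecidableEq V]

/-- **The inequality.** -/
theorem path_bound (r : ℕ) (h : Fin (r + 1) → ℚ) (A : Finset (V × V)) (hA : A.Nonempty) (K : ℕ)
    (hK : ∀ w : V, ((Fintype.piFinset fun _ : Fin r => A.image fun a => a.1 - a.2).filter fun d =>
      ∑ j, (h j.castSucc - h j.succ) • d j = w).card ≤ K) :
    A.card ^ r ≤ K * ∏ j, (A.image (pr (h j))).card := by
  classical
  have h1 := paths_card A hA (r + 1) (fun j => pr (h j))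
  have h2 : (Paths A (r + 1) fun j => pr (h j)).card ≤ K * (A ×ˢ A).card := by
    refine Finset.card_le_mul_card_image_of_maps_to
      (f := fun p : Fin (r + 1 + 1) → V × V => (p 0, p (Fin.last (r + 1)))) ?_ K ?_
    · intro p hp
      have := (mem_paths.1 hp).1
      exact Finset.mem_product.2 ⟨this _, this _⟩
    · rintro ⟨a, b⟩ _
      refine le_trans ?_ (hK (pr (h 0) a - pr (h (Fin.last r)) b))
      refine Finset.card_le_card_of_injOn
        (fun p j => (p (Fin.castSucc (Fin.succ j))).1 - (p (Fin.castSucc (Fin.succ j))).2) ?_ ?_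
      · intro p hp
        obtain ⟨hp1, hp2⟩ := Finset.mem_filter.1 (Finset.mem_coe.1 hp)
        obtain ⟨h3, h4⟩ := mem_paths.1 hp1
        have h5 := Prod.ext_iff.1 hp2
        refine Finset.mem_coe.2 (Finset.mem_filter.2 ⟨?_, ?_⟩)
        · rw [Fintype.mem_piFinset]
          intro j
          exact Finset.mem_image.2 ⟨_, h3 _, rfl⟩
        · have h6 := telescope h p h4
          have h7 : p 0 = a := h5.1
          have h8 : p (Fin.last (r + 1)) = b := h5.2
          rw [h7, h8] at h6
          exact h6
      · intro p hp q hq hpq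
        obtain ⟨hp1, hp2⟩ := Finset.mem_filter.1 (Finset.mem_coe.1 hp)
        obtain ⟨_, hp4⟩ := mem_paths.1 hp1
        obtain ⟨hq1, hq2⟩ := Finset.mem_filter.1 (Finset.mem_coe.1 hq)
        obtain ⟨_, hq4⟩ := mem_paths.1 hq1
        have hp5 := Prod.ext_iff.1 hp2
        have hq5 := Prod.ext_iff.1 hq2
        have hD : ∀ j : Fin r, (p (Fin.castSucc (Fin.succ j))).1 - (p (Fin.castSucc (Fin.succ j))).2 =
            (q (Fin.castSucc (Fin.succ j))).1 - (q (Fin.castSucc (Fin.succ j))).2 :=
          fun j => congrFun hpq j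
        have key : ∀ i : Fin (r + 1 + 1), p i = q i := by
          intro i
          induction i using Fin.induction with
          | zero => exact hp5.1.trans hq5.1.symm
          | succ j ih =>
            induction j using Fin.lastCases with
            | last =>
              rw [Fin.succ_last]
              exact hp5.2.trans hq5.2.symm
            | cast j =>
              have e1 : pr (h j.castSucc) (p j.castSucc.succ) =
                  pr (h j.castSucc) (q j.castSucc.succ) := by
                rw [← hp4 j.castSucc, ← hq4 j.castSucc, ih]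
              have e2 := hD j
              rw [← Fin.succ_castSucc] at e2
              unfold pr at e1
              rw [e2] at e1
              have e3 := add_right_cancel e1
              have e4 : (p j.castSucc.succ).1 = (q j.castSucc.succ).1 := by
                rw [e3] at e2
                exact sub_left_injective e2
              exact Prod.ext e4 e3
        exact funext key
  have hA0 : 0 < A.card := Finset.card_pos.2 hA
  rw [Finset.card_product] at h2
  have h3 : A.card ^ (r + 1 + 1) ≤ (K * ∏ j, (A.image (pr (h j))).card) * A.card ^ 2 := by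
    have h4 : A.card ^ (r + 1 + 1) ≤ (Paths A (r + 1) fun j => pr (h j)).card *
        ∏ j, (A.image (pr (h j))).card := by exact_mod_cast h1
    refine h4.trans ((Nat.mul_le_mul_right _ h2).trans (le_of_eq ?_))
    ring
  have h4 : A.card ^ (r + 1 + 1) = A.card ^ r * A.card ^ 2 := by ring
  rw [h4] at h3
  exact Nat.le_of_mul_le_mul_right h3 (pow_pos hA0 2)

end lin

end Pool.Agent.V7H23.AK
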