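import Pool.Agent.V7H23.AK.Orbit
import Pool.Agent.V7H23.AK.Diff

set_option autoImplicit false

/-!
# The total loss
-/

open Finset Polynomial

namespace Pool.Agent.V7H23.AK

/-- At each node one of the following holds. (1) The group of the level is the full symmetric group
and the trees which are obtained from the children `z i` of the node by applying `g` to the labels are
of at most `M` types (at most `M` of them are not rearrangements of each other). (2) For each orbit of
the group on the children, either the children `z (σ i)`, `σ ∈ G`, in the orbit are of at most `M`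
types, or a subgroup of index at most `M` of the group is commutative on the orbit. -/
def Tame {L Y : Type*} (g : L → Y) (M : ℕ) : (D : List Level) → Tr L D → Prop
  | [], _ => True
  | a :: D, z =>
      ((a.G = ⊤ ∧ {c | ∃ i, c = {w | Same D (Tr.map g D (z i)) w}}.ncard ≤ M) ∨
      ∀ i, {c | ∃ σ ∈ a.G, c = {w | Same D (z (σ i)) w}}.ncard ≤ M ∨
      ∃ A : Subgroup (Equiv.Perm (Fin a.e)), A ≤ a.G ∧ A.relIndex a.G ≤ M ∧
        ∀ σ ∈ A, ∀ τ ∈ A, ∀ ρ ∈ a.G, σ (τ (ρ i)) = τ (σ (ρ i))) ∧
      ∀ i, Tame g M D (z i)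

open Classical in
theorem few_card' {L : Type*} {M : ℕ} {e : ℕ} {D : List Level} {z : Fin e → Tr L D}
    (h : {c | ∃ i, c = {w | Same D (z i) w}}.ncard ≤ M) :
    (univ.image fun i => orb D (z i)).card ≤ M := by
  refine le_trans (le_of_eq ?_) h
  have h1 : {c | ∃ i, c = {w | Same D (z i) w}} =
      (fun s : Finset (Tr L D) => (s : Set (Tr L D))) ''
        ((univ.image fun i => orb D (z i) : Finset (Finset (Tr L D))) :
          Set (Finset (Tr L D))) := by
    ext c
    constructor
    · rintro ⟨i, rfl⟩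
      refine ⟨orb D (z i), Finset.mem_coe.2 (Finset.mem_image_of_mem _ (mem_univ i)), ?_⟩
      ext w
      exact mem_orb
    · rintro ⟨s, hs, rfl⟩
      obtain ⟨j, _, rfl⟩ := Finset.mem_image.1 (Finset.mem_coe.1 hs)
      refine ⟨j, ?_⟩
      ext w
      exact mem_orb
  rw [h1, Set.ncard_image_of_injective _ Finset.coe_injective, Set.ncard_coe_finset]

open Classical in
theorem few_card {L : Type*} {M : ℕ} {a : Level} {D : List Level} {z : Tr L (a :: D)}
    {i : Fin a.e} (h : {c | ∃ σ ∈ a.G, c = {w | Same D (z (σ i)) w}}.ncard ≤ M) :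
    ((orbt a.G i).image fun i => orb D (z i)).card ≤ M := by
  refine le_trans (le_of_eq ?_) h
  have h1 : {c | ∃ σ ∈ a.G, c = {w | Same D (z (σ i)) w}} =
      (fun s : Finset (Tr L D) => (s : Set (Tr L D))) ''
        (((orbt a.G i).image fun i => orb D (z i) : Finset (Finset (Tr L D))) :
          Set (Finset (Tr L D))) := by
    ext c
    constructor
    · rintro ⟨σ, hσ, rfl⟩
      refine ⟨orb D (z (σ i)), Finset.mem_coe.2 (Finset.mem_image.2
        ⟨σ i, mem_orbt.2 ⟨σ, hσ, rfl⟩, rfl⟩), ?_⟩
      ext w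
      exact mem_orb
    · rintro ⟨s, hs, rfl⟩
      obtain ⟨j, hj, rfl⟩ := Finset.mem_image.1 (Finset.mem_coe.1 hs)
      obtain ⟨σ, hσ, rfl⟩ := mem_orbt.1 hj
      refine ⟨σ, hσ, ?_⟩
      ext w
      exact mem_orb
  rw [h1, Set.ncard_image_of_injective _ Finset.coe_injective, Set.ncard_coe_finset]

/-- **The total loss.** -/
theorem loss {Y : Type*} (g : ℤ × ℤ → Y) (T : Finset (Option ℚ)) {M : ℕ} (hM : 2 ≤ M) {B : ℝ}
    (hB : 0 < B) :
    ∀ (D : List Level) (z : Tr (ℤ × ℤ) D), Tame g M D z →
      ∑ t ∈ T, (W D z - W D (pj t D z)) ≤ T.card * (W D z - W D (Tr.map g D z)) +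
        (3 * (M : ℝ) ^ 2 * ((2 : ℝ) ^ B) ^ 2 + T.card * Real.logb 2 M / B) * W D z +
        (T.card * (2 * Real.logb 2 M) / B) * max (W D z - B) 0 := by
  classical
  have hlM : 0 ≤ Real.logb 2 (M : ℝ) :=
    Real.logb_nonneg (by norm_num) (by exact_mod_cast (by omega : 1 ≤ M))
  have hC : 0 ≤ (T.card : ℝ) * (2 * Real.logb 2 M) / B := by positivity
  have hQ1 : (1 : ℝ) ≤ (2 : ℝ) ^ B := Real.one_le_rpow (by norm_num) hB.le
  obtain ⟨N, hN⟩ : ∃ N : ℝ, N = 3 * (M : ℝ) ^ 2 * ((2 : ℝ) ^ B) ^ 2 +
      T.card * Real.logb 2 M / B := ⟨_, rfl⟩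
  have hN0 : 0 ≤ N := by rw [hN]; positivity
  rw [← hN]
  intro D
  induction D with
  | nil =>
    intro z _
    simp only [W_nil]
    rw [max_eq_right (by linarith)]
    simp
  | cons a D ih =>
    intro z hz
    obtain ⟨f, hf⟩ : ∃ f : Fin a.e → Finset (Tr (ℤ × ℤ) D), f = fun i => orb D (z i) := ⟨_, rfl⟩
    obtain ⟨ft, hft⟩ : ∃ ft : Option ℚ → Fin a.e → Finset (Tr ℚ D),
        ft = fun t i => orb D (pj t D (z i)) := ⟨_, rfl⟩
    have hW0 : ∀ i, 0 ≤ W D (z i) := fun i => W_nonneg D _
    have hWz : W (a :: D) z = lam a.G f + ∑ i, W D (z i) := by rw [hf]; exact W_cons z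
    have hWt : ∀ t, W (a :: D) (pj t (a :: D) z) = lam a.G (ft t) +
        ∑ i, W D (pj t D (z i)) := by
      intro t
      rw [hft]
      exact W_cons _
    have hdet : ∀ t i j, f i = f j → ft t i = ft t j := by
      intro t i j h
      rw [hf] at h
      rw [hft]
      exact orb_eq_iff.2 ((orb_eq_iff.1 h).map (val t))
    obtain ⟨fg, hfg⟩ : ∃ fg : Fin a.e → Finset (Tr Y D), fg = fun i => orb D (Tr.map g D (z i)) :=
      ⟨_, rfl⟩
    have hWg : W (a :: D) (Tr.map g (a :: D) z) = lam a.G fg + ∑ i, W D (Tr.map g D (z i)) := by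
      rw [hfg]
      exact W_cons _
    have hdetg : ∀ i j, f i = f j → fg i = fg j := by
      intro i j h
      rw [hf] at h
      rw [hfg]
      exact orb_eq_iff.2 ((orb_eq_iff.1 h).map g)
    have hlamg : lam a.G fg ≤ lam a.G f := by
      refine lam_mono' fg f fun σ _ h => funext fun i => ?_
      exact hdetg _ _ (congrFun h i)
    have hsame : ∀ i j, f i = f j ↔ Same D (z i) (z j) := by
      intro i j
      rw [hf]
      exact orb_eq_iff
    have hsamet : ∀ t i j, ft t i = ft t j ↔ Same D (pj t D (z i)) (pj t D (z j)) := by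
      intro t i j
      rw [hft]
      exact orb_eq_iff
    have hQN : (2 : ℝ) ^ B * M ≤ N := by
      have h1 : (1 : ℝ) ≤ M := by exact_mod_cast (by omega : 1 ≤ M)
      have h2 : (2 : ℝ) ^ B * M ≤ ((2 : ℝ) ^ B) ^ 2 * (M : ℝ) ^ 2 :=
        mul_le_mul (by nlinarith) (by nlinarith) (by positivity) (by positivity)
      have h3 : 0 ≤ (T.card : ℝ) * Real.logb 2 M / B := by positivity
      have h4 : 0 ≤ (M : ℝ) ^ 2 * ((2 : ℝ) ^ B) ^ 2 := by positivity
      rw [hN]
      linarith
    have hlam : ∀ t, lam a.G f - lam a.G (ft t) =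
        ix (st a.G f univ (invt_univ a.G)) (st a.G (ft t) univ (invt_univ a.G)) := by
      intro t
      have hle : st a.G f univ (invt_univ a.G) ≤ st a.G (ft t) univ (invt_univ a.G) :=
        fun σ hσ => ⟨hσ.1, fun i hi => hdet t _ _ (hσ.2 i hi)⟩
      have hle2 : st a.G (ft t) univ (invt_univ a.G) ≤ a.G := fun σ hσ => hσ.1
      rw [lam_eq, lam_eq, ix_mul hle hle2]
      ring
    have h3 : ∑ t ∈ T, (lam a.G f - lam a.G (ft t)) ≤ T.card * (lam a.G f - lam a.G fg) +
        N * lam a.G f + T.card * (2 * Real.logb 2 M) *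
          (((univ.filter fun i => B ≤ W D (z i)).card - 1 : ℕ) : ℝ) := by
     rcases hz.1 with ⟨hG, hfew⟩ | hz1
     · have htyp : (univ.image fg).card ≤ M := by
         rw [hfg]
         exact few_card' hfew
       have h1 := few_colours (D := fg) (U := ft) (T := T) (by omega : 1 ≤ M) htyp
         (fun i => B ≤ W D (z i)) (Q := (2 : ℝ) ^ B) (by positivity) (by
           intro i j hij hl
           have hns : ¬ Same D (z i) (z j) := fun h => hij (hdetg i j ((hsame i j).2 h))
           have hsub : (T.filter fun t => ft t i = ft t j) ⊆ merge T D (z i) (z j) := by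
             intro t ht
             obtain ⟨h2, h3⟩ := Finset.mem_filter.1 ht
             exact Finset.mem_filter.2 ⟨h2, (hsamet t i j).1 h3⟩
           have hc : ((T.filter fun t => ft t i = ft t j).card : ℝ) ≤
               (merge T D (z i) (z j)).card := by exact_mod_cast Finset.card_le_card hsub
           refine hc.trans ?_
           rcases not_and_or.1 hl with hl | hl
           · exact merge_le' T D (z i) (z j) hns (le_of_not_ge hl)
           · rw [merge_symm]
             exact merge_le' T D (z j) (z i) (fun h => hns h.symm) (le_of_not_ge hl))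
       have hlog2 : 0 < Real.log 2 := Real.log_pos (by norm_num)
       have h2 : ∀ x : ℝ, Real.log x = Real.log 2 * Real.logb 2 x := by
         intro x
         unfold Real.logb
         field_simp
       have h5 : Real.log 2 * (((T.card : ℝ) - (2 : ℝ) ^ B * M) * lam a.G fg) ≤ Real.log 2 *
           (∑ t ∈ T, lam a.G (ft t) + T.card * Real.logb 2 M *
             (((univ.filter fun i => B ≤ W D (z i)).card - 1 : ℕ) : ℝ)) := by
         have h6 : ∑ t ∈ T, Real.log (rearr (⊤ : Subgroup (Equiv.Perm (Fin a.e))) (ft t)) =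
             Real.log 2 * ∑ t ∈ T, lam a.G (ft t) := by
           rw [Finset.mul_sum]
           refine Finset.sum_congr rfl fun t _ => ?_
           rw [hG]
           exact h2 _
         rw [h6, h2 (rearr _ fg), h2 M] at h1
         rw [hG] at h1 ⊢
         unfold lam at h1 ⊢
         linarith
       have h6 := le_of_mul_le_mul_left h5 hlog2
       rw [Finset.sum_sub_distrib, Finset.sum_const, nsmul_eq_mul]
       have h7 := mul_le_mul_of_nonneg_right hQN (lam_nonneg (G := a.G) fg)
       have h8 := mul_le_mul_of_nonneg_left hlamg hN0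
       have h9 : 0 ≤ (T.card : ℝ) * Real.logb 2 M *
             (((univ.filter fun i => B ≤ W D (z i)).card - 1 : ℕ) : ℝ) :=
         mul_nonneg (mul_nonneg (Nat.cast_nonneg _) hlM) (Nat.cast_nonneg _)
       linarith
     · have hnode := node a.G f T ft hdet (fun i => B ≤ W D (z i)) N (2 * Real.logb 2 M) hN0
        (by positivity) univ (by
        intro i _ H hH
        rcases hz1 i with hfew | ⟨A, _, hAM, hAc⟩
        · have htyp : ((orbt a.G i).image f).card ≤ M := by
            rw [hf]
            exact few_card hfew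
          obtain ⟨bad, hbad⟩ : ∃ bad : Finset (Option ℚ), bad =
              (((orbt a.G i).image f) ×ˢ ((orbt a.G i).image f)).biUnion fun p =>
              T.filter fun t => ∃ j k, f j = p.1 ∧ f k = p.2 ∧ ¬ B ≤ W D (z j) ∧ f j ≠ f k ∧
              ft t j = ft t k := ⟨_, rfl⟩
          have hbc : (bad.card : ℝ) ≤ (M : ℝ) ^ 2 * (2 : ℝ) ^ B := by
            have h1 : ∀ p ∈ ((orbt a.G i).image f) ×ˢ ((orbt a.G i).image f),
                ((T.filter fun t => ∃ j k, f j = p.1 ∧ f k = p.2 ∧ ¬ B ≤ W D (z j) ∧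
                  f j ≠ f k ∧ ft t j = ft t k).card : ℝ) ≤ (2 : ℝ) ^ B := by
              intro p _
              by_cases hex : ∃ j k, f j = p.1 ∧ f k = p.2 ∧ ¬ B ≤ W D (z j) ∧ f j ≠ f k
              · obtain ⟨j, k, hj, hk, hl, hne⟩ := hex
                refine le_trans ?_ (merge_le' T D (z j) (z k) (fun h => hne ((hsame j k).2 h))
                  (le_of_not_ge hl))
                have h2 : (T.filter fun t => ∃ j k, f j = p.1 ∧ f k = p.2 ∧ ¬ B ≤ W D (z j) ∧
                    f j ≠ f k ∧ ft t j = ft t k) ⊆ merge T D (z j) (z k) := by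
                  intro t ht
                  obtain ⟨htT, j', k', hj', hk', _, _, hjk⟩ := Finset.mem_filter.1 ht
                  refine Finset.mem_filter.2 ⟨htT, ?_⟩
                  refine (hsamet t j k).1 ?_
                  rw [hdet t j j' (hj.trans hj'.symm), hjk, hdet t k' k (hk'.trans hk.symm)]
                exact_mod_cast Finset.card_le_card h2
              · have h2 : (T.filter fun t => ∃ j k, f j = p.1 ∧ f k = p.2 ∧ ¬ B ≤ W D (z j) ∧
                    f j ≠ f k ∧ ft t j = ft t k) = ∅ := by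
                  rw [Finset.filter_eq_empty_iff]
                  rintro t _ ⟨j, k, h3, h4, h5, h6, _⟩
                  exact hex ⟨j, k, h3, h4, h5, h6⟩
                rw [h2, Finset.card_empty]
                push_cast
                positivity
            have h31 : bad.card ≤ ∑ p ∈ ((orbt a.G i).image f) ×ˢ ((orbt a.G i).image f),
                (T.filter fun t => ∃ j k, f j = p.1 ∧ f k = p.2 ∧ ¬ B ≤ W D (z j) ∧
                  f j ≠ f k ∧ ft t j = ft t k).card := by
              rw [hbad]
              exact Finset.card_biUnion_le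
            have h32 : (bad.card : ℝ) ≤ ∑ p ∈ ((orbt a.G i).image f) ×ˢ ((orbt a.G i).image f),
                ((T.filter fun t => ∃ j k, f j = p.1 ∧ f k = p.2 ∧ ¬ B ≤ W D (z j) ∧
                  f j ≠ f k ∧ ft t j = ft t k).card : ℝ) := by exact_mod_cast h31
            refine h32.trans ((Finset.sum_le_sum h1).trans ?_)
            rw [Finset.sum_const, Finset.card_product, nsmul_eq_mul]
            refine mul_le_mul_of_nonneg_right ?_ (by positivity)
            have h3 : ((orbt a.G i).image f).card * ((orbt a.G i).image f).card ≤ M ^ 2 := by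
              rw [sq]
              exact Nat.mul_le_mul htyp htyp
            exact_mod_cast h3
          have hgood : ∀ t ∈ T, t ∉ bad → ∀ j ∈ orbt a.G i, ∀ k ∈ orbt a.G i,
              ¬ B ≤ W D (z j) → ft t j = ft t k → f j = f k := by
            intro t ht hnb j hj k hk hl hjk
            by_contra hne
            apply hnb
            rw [hbad]
            refine Finset.mem_biUnion.2 ⟨(f j, f k), Finset.mem_product.2
              ⟨Finset.mem_image_of_mem _ hj, Finset.mem_image_of_mem _ hk⟩, ?_⟩
            exact Finset.mem_filter.2 ⟨ht, j, k, rfl, rfl, hl, hne, hjk⟩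
          have h1 := orb_few (invt_orbt a.G i) (fun i => B ≤ W D (z i)) (by omega : 1 ≤ M) htyp
            hbc hgood H
          refine h1.trans ?_
          have h2 : (M : ℝ) ^ 2 * (2 : ℝ) ^ B ≤ N := by
            have h3 : (2 : ℝ) ^ B ≤ ((2 : ℝ) ^ B) ^ 2 := by nlinarith
            have h4 := mul_le_mul_of_nonneg_left h3 (by positivity : 0 ≤ (M : ℝ) ^ 2)
            have h5 : 0 ≤ (T.card : ℝ) * Real.logb 2 M / B := by positivity
            have h6 : 0 ≤ (M : ℝ) ^ 2 * ((2 : ℝ) ^ B) ^ 2 := by positivity
            rw [hN]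
            linarith
          have h3 := mul_le_mul_of_nonneg_right h2
            (ix_nonneg (H ⊓ st a.G f (orbt a.G i) (invt_orbt a.G i)) H)
          linarith
        · have h1 := orb_virt z T (invt_orbt a.G i) hM hAM
            (fun σ hσ τ hτ j hj => by
              obtain ⟨ρ, hρ, rfl⟩ := mem_orbt.1 hj
              exact hAc σ hσ τ hτ ρ hρ) hB (fun i => B ≤ W D (z i)) (fun i => Iff.rfl) hH
          rw [hN, hf, hft]
          exact h1)
        _ univ (invt_univ a.G) (Finset.Subset.refl _) le_rfl
       have h4 : 0 ≤ (T.card : ℝ) * (lam a.G f - lam a.G fg) :=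
         mul_nonneg (Nat.cast_nonneg _) (by linarith)
       have h5 : ∑ t ∈ T, (lam a.G f - lam a.G (ft t)) ≤ N * lam a.G f +
        T.card * (2 * Real.logb 2 M) *
          (((univ.filter fun i => B ≤ W D (z i)).card - 1 : ℕ) : ℝ) := by
        rw [Finset.sum_congr rfl fun t _ => hlam t, lam_eq]
        exact hnode
       linarith
    have h1 : ∑ t ∈ T, (W (a :: D) z - W (a :: D) (pj t (a :: D) z)) =
        ∑ t ∈ T, (lam a.G f - lam a.G (ft t)) +
        ∑ i, ∑ t ∈ T, (W D (z i) - W D (pj t D (z i))) := by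
      rw [Finset.sum_comm, ← Finset.sum_add_distrib]
      refine Finset.sum_congr rfl fun t _ => ?_
      rw [hWz, hWt, Finset.sum_sub_distrib]
      ring
    have h2 : ∑ i, ∑ t ∈ T, (W D (z i) - W D (pj t D (z i))) ≤
        T.card * (∑ i, W D (z i) - ∑ i, W D (Tr.map g D (z i))) + N * ∑ i, W D (z i) +
        (T.card * (2 * Real.logb 2 M) / B) * ∑ i, max (W D (z i) - B) 0 := by
      rw [← Finset.sum_sub_distrib, Finset.mul_sum, Finset.mul_sum, Finset.mul_sum,
        ← Finset.sum_add_distrib, ← Finset.sum_add_distrib]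
      exact Finset.sum_le_sum fun i _ => ih (z i) (hz.2 i)
    have h4 := sum_max_le (fun i => W D (z i)) B hW0
    have h5 : max (∑ i, W D (z i) - B) 0 ≤ max (W (a :: D) z - B) 0 := by
      refine max_le_max ?_ le_rfl
      rw [hWz]
      have := lam_nonneg (G := a.G) f
      linarith
    have h6 := mul_le_mul_of_nonneg_left (h4.trans h5) hC
    have h7 : (T.card : ℝ) * (2 * Real.logb 2 M) / B *
        ((((univ.filter fun i => B ≤ W D (z i)).card - 1 : ℕ) : ℝ) * B) =
        T.card * (2 * Real.logb 2 M) *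
          (((univ.filter fun i => B ≤ W D (z i)).card - 1 : ℕ) : ℝ) := by
      field_simp
    rw [mul_add, h7] at h6
    have h8 : N * W (a :: D) z = N * lam a.G f + N * ∑ i, W D (z i) := by
      rw [hWz]
      ring
    rw [h1, h8, hWg, hWz] at *
    linarith

end Pool.Agent.V7H23.AK
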