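import Pool.Agent.V7H23.AK.Loss

set_option autoImplicit false

/-!
# The arithmetic Kakeya inequality and the numbers of rearrangements
-/

open Finset Polynomial

namespace Pool.Agent.V7H23.AK

/-- The inequality `|π₋₁(A)| ≤ max_t |π_t(A)| ^ κ`, `t ∈ S ∪ {∞}`, holds for all finite
`A ⊂ ℤ × ℤ`. -/
def Bound (S : Finset ℚ) (κ : ℝ) : Prop :=
  ∀ A : Finset (ℤ × ℤ), ((A.image (val (some (-1)))).card : ℝ) ≤
    (((insertNone S).sup fun t => (A.image (val t)).card : ℕ) : ℝ) ^ κ

/-- The same inequality for the numbers of rearrangements of the projections of the trees with the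
levels `D` and labels in `ℤ × ℤ`. -/
def TreeBound (S : Finset ℚ) (κ : ℝ) (D : List Level) : Prop :=
  ∀ z : Tr (ℤ × ℤ) D, (cnt D (Tr.map (val (some (-1))) D z) : ℝ) ≤
    (((insertNone S).sup fun t => cnt D (Tr.map (val t) D z) : ℕ) : ℝ) ^ κ

/-! ### tame trees -/

/-- Two maps which together are injective determine a tree. -/
theorem map_inj {L Y Y' : Type*} {g : L → Y} {h : L → Y'}
    (hgh : ∀ p q, g p = g q → h p = h q → p = q) : ∀ (D : List Level) (z z' : Tr L D),
    Tr.map g D z = Tr.map g D z' → Tr.map h D z = Tr.map h D z' → z = z'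
  | [], _, _, h1, h2 => hgh _ _ h1 h2
  | _ :: D, z, z', h1, h2 => funext fun i =>
      map_inj hgh D (z i) (z' i) (congrFun h1 i) (congrFun h2 i)

/-- subadditivity -/
theorem cnt_le_mul {L Y Y' : Type*} {g : L → Y} {h : L → Y'}
    (hgh : ∀ p q, g p = g q → h p = h q → p = q) (D : List Level) (z : Tr L D) :
    cnt D z ≤ cnt D (Tr.map g D z) * cnt D (Tr.map h D z) := by
  classical
  rw [cnt_eq, cnt_eq, cnt_eq, ← Finset.card_product]
  refine Finset.card_le_card_of_injOn (fun w => (Tr.map g D w, Tr.map h D w)) ?_ ?_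
  · intro w hw
    have hw' := mem_orb.1 (Finset.mem_coe.1 hw)
    exact Finset.mem_coe.2 (Finset.mem_product.2 ⟨mem_orb.2 (hw'.map g), mem_orb.2 (hw'.map h)⟩)
  · intro w _ w' _ hww
    have h1 := Prod.ext_iff.1 hww
    exact map_inj hgh D w w' h1.1 h1.2

theorem map_comp {L Y Y' : Type*} (g : L → Y) (φ : Y → Y') : ∀ (D : List Level) (z : Tr L D),
    Tr.map φ D (Tr.map g D z) = Tr.map (fun l => φ (g l)) D z
  | [], _ => rfl
  | _ :: D, z => funext fun i => map_comp g φ D (z i)

theorem map_id {L : Type*} : ∀ (D : List Level) (z : Tr L D), Tr.map id D z = z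
  | [], _ => rfl
  | _ :: D, z => funext fun i => map_id D (z i)

/-- **The average of the logarithms of the numbers of rearrangements of the projections.** -/
theorem average {Y : Type*} (g : ℤ × ℤ → Y) (T : Finset (Option ℚ)) (hT : 2 ≤ T.card) (M : ℕ)
    (hM : 2 ≤ M) (D : List Level) (z : Tr (ℤ × ℤ) D) (hz : Tame g M D z) :
    T.card * Real.log (cnt D (Tr.map g D z)) -
      (3 * (M : ℝ) ^ 2 * √T.card + 12 * T.card * (Real.log M / Real.log T.card)) *
      Real.log (cnt D z) ≤ ∑ t ∈ T, Real.log (cnt D (Tr.map (val t) D z)) := by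
  have hk : (1 : ℝ) < T.card := by exact_mod_cast (by omega : 1 < T.card)
  have hk0 : (0 : ℝ) < T.card := by linarith
  have hlk : 0 < Real.logb 2 (T.card : ℝ) := Real.logb_pos (by norm_num) hk
  have hlog2 : 0 < Real.log 2 := Real.log_pos (by norm_num)
  obtain ⟨B, hB⟩ : ∃ B, B = Real.logb 2 (T.card : ℝ) / 4 := ⟨_, rfl⟩
  have hB0 : 0 < B := by rw [hB]; positivity
  have h2B : ((2 : ℝ) ^ B) ^ 2 = √T.card := by
    rw [← Real.rpow_natCast, ← Real.rpow_mul (by norm_num), hB, Real.sqrt_eq_rpow,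
      show Real.logb 2 (T.card : ℝ) / 4 * ((2 : ℕ) : ℝ) =
      Real.logb 2 (T.card : ℝ) * (1 / 2) by push_cast; ring, Real.rpow_mul (by norm_num),
      Real.rpow_logb (by norm_num) (by norm_num) hk0]
  have hloss := loss g T hM hB0 D z hz
  have hW0 := W_nonneg D z
  have hlM : 0 ≤ Real.logb 2 (M : ℝ) :=
    Real.logb_nonneg (by norm_num) (by exact_mod_cast (by omega : 1 ≤ M))
  have h1 : max (W D z - B) 0 ≤ W D z := max_le (by linarith) hW0
  have h3' : Real.log (T.card : ℝ) ≠ 0 := (Real.log_pos hk).ne'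
  have h2 : (T.card : ℝ) * (2 * Real.logb 2 M) / B =
      8 * T.card * (Real.log M / Real.log T.card) := by
    rw [hB]
    unfold Real.logb
    field_simp
    ring
  have h2' : (T.card : ℝ) * Real.logb 2 M / B =
      4 * T.card * (Real.log M / Real.log T.card) := by
    rw [hB]
    unfold Real.logb
    field_simp
  have h3 : 0 ≤ (T.card : ℝ) * (2 * Real.logb 2 M) / B := by positivity
  have h4 := mul_le_mul_of_nonneg_left h1 h3
  rw [h2] at h4 hloss
  rw [h2', h2B, Finset.sum_sub_distrib, Finset.sum_const, nsmul_eq_mul] at hloss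
  have h5 : T.card * W D (Tr.map g D z) - (3 * (M : ℝ) ^ 2 * √T.card +
      12 * T.card * (Real.log M / Real.log T.card)) * W D z ≤ ∑ t ∈ T, W D (pj t D z) := by
    linarith
  have h6 := mul_le_mul_of_nonneg_left h5 hlog2.le
  rw [Finset.mul_sum] at h6
  have h7 : ∀ x : ℝ, Real.log 2 * Real.logb 2 x = Real.log x := by
    intro x
    unfold Real.logb
    field_simp
  have h8 : Real.log 2 * (T.card * W D (Tr.map g D z) - (3 * (M : ℝ) ^ 2 * √T.card +
      12 * T.card * (Real.log M / Real.log T.card)) * W D z) =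
      T.card * Real.log (cnt D (Tr.map g D z)) -
      (3 * (M : ℝ) ^ 2 * √T.card + 12 * T.card * (Real.log M / Real.log T.card)) *
        Real.log (cnt D z) := by
    rw [← h7 (cnt D z), ← h7 (cnt D (Tr.map g D z))]
    unfold W
    ring
  rw [h8] at h6
  refine h6.trans (le_of_eq ?_)
  refine Finset.sum_congr rfl fun t _ => ?_
  unfold W
  exact h7 _

/-- **The inequality of arithmetic Kakeya type for tame trees.** -/
theorem kakeya {Y : Type*} (g : ℤ × ℤ → Y) (M : ℕ) (hM : 2 ≤ M) (ε : ℝ) (hε : 0 < ε) (hε1 : ε ≤ 1)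
    (S : Finset ℚ) (hS : (M : ℝ) ^ (60 / ε) ≤ S.card)
    (hg : ∀ t, (∀ p q, g p = g q → val t p = val t q → p = q) ∨ ∃ φ : ℚ → Y, g = fun l => φ (val t l))
    (D : List Level) (z : Tr (ℤ × ℤ) D) (hz : Tame g M D z) :
    (cnt D (Tr.map g D z) : ℝ) ≤
      (((insertNone S).sup fun t => cnt D (Tr.map (val t) D z) : ℕ) : ℝ) ^ (1 + ε) := by
  have hM2 : (2 : ℝ) ≤ (M : ℝ) := by exact_mod_cast hM
  have hM0 : (0 : ℝ) < (M : ℝ) := by linarith
  have hM1 : (1 : ℝ) ≤ (M : ℝ) := by linarith
  have hx1 : 1 ≤ 1 / ε := by rw [le_div_iff₀ hε]; linarith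
  obtain ⟨T, hT⟩ : ∃ T, T = insertNone S := ⟨_, rfl⟩
  have hTc : T.card = S.card + 1 := by rw [hT, Finset.card_insertNone]
  have hkS : (S.card : ℝ) ≤ T.card := by exact_mod_cast (by omega : S.card ≤ T.card)
  have hk : (M : ℝ) ^ (60 / ε) ≤ T.card := hS.trans hkS
  have hbern : (60 / ε) ≤ (M : ℝ) ^ (30 / ε - 2) := by
    have h1 : (2 : ℝ) ^ (13 * (1 / ε)) ≤ (M : ℝ) ^ (30 / ε - 2) := by
      have h0 : 30 / ε = 30 * (1 / ε) := by ring
      calc (2 : ℝ) ^ (13 * (1 / ε)) ≤ (2 : ℝ) ^ (30 / ε - 2) := by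
            refine Real.rpow_le_rpow_of_exponent_le (by norm_num) ?_
            rw [h0]
            linarith
        _ ≤ _ := by
            refine Real.rpow_le_rpow (by norm_num) hM2 ?_
            rw [h0]
            linarith
    have h2 : (2 : ℝ) ^ (13 * (1 / ε)) = (1 + 8191) ^ (1 / ε) := by
      rw [Real.rpow_mul (by norm_num)]
      norm_num
    have h3 := one_add_mul_self_le_rpow_one_add (by norm_num : (-1 : ℝ) ≤ 8191) hx1
    rw [h2] at h1
    have h4 : 60 / ε = 60 * (1 / ε) := by ring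
    linarith
  have hpow : (M : ℝ) ^ 2 * (60 / ε) ≤ (M : ℝ) ^ (30 / ε) := by
    have h1 : (M : ℝ) ^ (30 / ε) = (M : ℝ) ^ 2 * (M : ℝ) ^ (30 / ε - 2) := by
      rw [← Real.rpow_natCast, ← Real.rpow_add hM0]
      congr 1
      push_cast
      ring
    rw [h1]
    exact mul_le_mul_of_nonneg_left hbern (by positivity)
  have hsq : (M : ℝ) ^ (30 / ε) ≤ √T.card := by
    rw [Real.le_sqrt (by positivity) (by positivity)]
    calc ((M : ℝ) ^ (30 / ε)) ^ 2 = (M : ℝ) ^ (60 / ε) := by
          rw [← Real.rpow_natCast, ← Real.rpow_mul hM0.le]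
          congr 1
          push_cast
          ring
      _ ≤ _ := hk
  have hk1 : (M : ℝ) ≤ T.card := by
    refine le_trans ?_ hk
    calc (M : ℝ) = (M : ℝ) ^ (1 : ℝ) := (Real.rpow_one _).symm
      _ ≤ _ := by
        refine Real.rpow_le_rpow_of_exponent_le hM1 ?_
        have : 60 / ε = 60 * (1 / ε) := by ring
        rw [this]
        linarith
  have hT2 : 2 ≤ T.card := by
    have : (2 : ℝ) ≤ T.card := hM2.trans hk1
    exact_mod_cast this
  have hk0 : (0 : ℝ) < T.card := by linarith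
  have hlM : 0 < Real.log (M : ℝ) := Real.log_pos (by linarith)
  have hlk : (60 / ε) * Real.log M ≤ Real.log T.card := by
    rw [← Real.log_rpow hM0]
    exact Real.log_le_log (by positivity) hk
  have hlk0 : 0 < Real.log (T.card : ℝ) := Real.log_pos (by linarith)
  have h1 : Real.log M / Real.log T.card ≤ ε / 60 := by
    rw [div_le_iff₀ hlk0]
    have := mul_le_mul_of_nonneg_left hlk (by positivity : 0 ≤ ε / 60)
    have h2 : ε / 60 * (60 / ε * Real.log M) = Real.log M := by field_simp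
    linarith
  have h2 : 3 * (M : ℝ) ^ 2 * √T.card ≤ T.card * (ε / 20) := by
    have h3 : 3 * (M : ℝ) ^ 2 ≤ √T.card * (ε / 20) := by
      have h4 := mul_le_mul_of_nonneg_right (hpow.trans hsq) (by positivity : 0 ≤ ε / 20)
      have h5 : (M : ℝ) ^ 2 * (60 / ε) * (ε / 20) = 3 * (M : ℝ) ^ 2 := by
        field_simp
        ring
      linarith
    have h4 := mul_le_mul_of_nonneg_right h3 (Real.sqrt_nonneg (T.card : ℝ))
    have h5 : √(T.card : ℝ) * (ε / 20) * √T.card = T.card * (ε / 20) := by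
      have := Real.mul_self_sqrt hk0.le
      linear_combination (ε / 20) * this
    linarith
  have hav := average g T hT2 M hM D z hz
  obtain ⟨V, hV⟩ : ∃ V, V = Real.log (cnt D (Tr.map g D z)) := ⟨_, rfl⟩
  obtain ⟨L, hL⟩ : ∃ L, L = Real.log (cnt D z) := ⟨_, rfl⟩
  have hV0 : 0 ≤ V := by rw [hV]; exact Real.log_natCast_nonneg _
  have hL0 : 0 ≤ L := by rw [hL]; exact Real.log_natCast_nonneg _
  rw [← hV, ← hL] at hav
  obtain ⟨t, ht, h5⟩ : ∃ t ∈ T, (1 - ε / 2) * V ≤ Real.log (cnt D (Tr.map (val t) D z)) := by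
    rcases le_or_gt L (2 * V) with hLV | hLV
    · have h3 : (T.card : ℝ) * ((1 - ε / 2) * V) ≤
          ∑ t ∈ T, Real.log (cnt D (Tr.map (val t) D z)) := by
        refine le_trans ?_ hav
        have h4 := mul_le_mul_of_nonneg_left h1 (by positivity : 0 ≤ 12 * (T.card : ℝ))
        have h5 : (3 * (M : ℝ) ^ 2 * √T.card + 12 * T.card * (Real.log M / Real.log T.card)) ≤
            T.card * (ε / 4) := by linarith
        have h6 : (3 * (M : ℝ) ^ 2 * √T.card + 12 * T.card * (Real.log M / Real.log T.card)) * L ≤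
            T.card * (ε / 4) * (2 * V) :=
          mul_le_mul h5 hLV hL0 (by positivity)
        linarith
      by_contra hcon
      push Not at hcon
      have hne : T.Nonempty := Finset.card_pos.1 (by omega)
      have h6 := Finset.sum_lt_sum_of_nonempty hne hcon
      rw [Finset.sum_const, nsmul_eq_mul] at h6
      linarith
    · refine ⟨none, by rw [hT]; simp, ?_⟩
      have h3 : V ≤ Real.log (cnt D (Tr.map (val none) D z)) := by
        rcases hg none with hinj | ⟨φ, hφ⟩
        · have h4 := cnt_le_mul hinj D z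
          have h5 : (cnt D z : ℝ) ≤ cnt D (Tr.map g D z) * cnt D (Tr.map (val none) D z) := by
            exact_mod_cast h4
          have h6 := Real.log_le_log (by exact_mod_cast cnt_pos D z) h5
          rw [Real.log_mul (by exact_mod_cast (cnt_pos _ _).ne')
            (by exact_mod_cast (cnt_pos _ _).ne'), ← hL, ← hV] at h6
          linarith
        · rw [hV]
          refine Real.log_le_log (by exact_mod_cast cnt_pos _ _) ?_
          have h4 : Tr.map g D z = Tr.map φ D (Tr.map (val none) D z) := by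
            rw [map_comp, hφ]
          rw [h4]
          exact_mod_cast cnt_map_le φ D _
      nlinarith
  have h6 : V ≤ (1 + ε) * Real.log (cnt D (Tr.map (val t) D z)) := by
    have h7 := mul_le_mul_of_nonneg_left h5 (by linarith : 0 ≤ 1 + ε)
    have h8 : 1 ≤ (1 + ε) * (1 - ε / 2) := by nlinarith
    have h9 := mul_le_mul_of_nonneg_right h8 hV0
    rw [one_mul, mul_assoc] at h9
    exact h9.trans h7
  have hpos1 : (0 : ℝ) < cnt D (Tr.map g D z) := by exact_mod_cast cnt_pos _ _
  have hpos2 : (0 : ℝ) < cnt D (Tr.map (val t) D z) := by exact_mod_cast cnt_pos _ _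
  have h8 : (cnt D (Tr.map g D z) : ℝ) ≤ (cnt D (Tr.map (val t) D z) : ℝ) ^ (1 + ε) := by
    rw [hV, ← Real.log_rpow hpos2] at h6
    exact (Real.log_le_log_iff hpos1 (Real.rpow_pos_of_pos hpos2 _)).1 h6
  refine h8.trans (Real.rpow_le_rpow hpos2.le ?_ (by linarith))
  rw [hT] at ht
  exact_mod_cast Finset.le_sup (f := fun t => cnt D (Tr.map (val t) D z)) ht

/-- The trees for groups with small orbits and for groups with large abelian subgroups are tame. -/
theorem tame_of {L Y : Type*} (g : L → Y) (M : ℕ) : ∀ (D : List Level),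
    (∀ a ∈ D, (∀ i : Fin a.e, {j | ∃ σ ∈ a.G, σ i = j}.ncard ≤ M) ∨
      ∃ A : Subgroup (Equiv.Perm (Fin a.e)), A ≤ a.G ∧ A.relIndex a.G ≤ M ∧
        ∀ σ ∈ A, ∀ τ ∈ A, σ * τ = τ * σ) → ∀ z : Tr L D, Tame g M D z
  | [], _, _ => trivial
  | a :: D, h, z => by
      refine ⟨Or.inr fun i => ?_,
        fun i => tame_of g M D (fun b hb => h b (List.mem_cons_of_mem _ hb)) (z i)⟩
      rcases h a List.mem_cons_self with h0 | ⟨A, hA, hAM, hc⟩
      · left
        refine le_trans ?_ (h0 i)
        have h1 : {c | ∃ σ ∈ a.G, c = {w | Same D (z (σ i)) w}} =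
            (fun j => {w | Same D (z j) w}) '' {j | ∃ σ ∈ a.G, σ i = j} := by
          ext c
          constructor
          · rintro ⟨σ, hσ, rfl⟩
            exact ⟨σ i, ⟨σ, hσ, rfl⟩, rfl⟩
          · rintro ⟨j, ⟨σ, hσ, rfl⟩, rfl⟩
            exact ⟨σ, hσ, rfl⟩
        rw [h1]
        exact Set.ncard_image_le (Set.toFinite _)
      · right
        refine ⟨A, hA, hAM, fun σ hσ τ hτ ρ _ => ?_⟩
        have h1 := congrArg (fun g : Equiv.Perm (Fin a.e) => g (ρ i)) (hc σ hσ τ hτ)
        exact h1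

/-! ### from sets to trees -/

theorem tree_of_bound {S : Finset ℚ} {κ : ℝ} (h : Bound S κ) (D : List Level) : TreeBound S κ D := by
  classical
  intro z
  obtain ⟨c, hc⟩ := exists_dot D
    ((insert (some (-1)) (insertNone S)).biUnion fun t => orb D (Tr.map (val t) D z))
  have hcard : ∀ t ∈ insert (some (-1)) (insertNone S),
      (((orb D z).image (pt D c)).image (val t)).card = cnt D (Tr.map (val t) D z) := by
    intro t ht
    rw [Finset.image_image]
    have h1 : (val t) ∘ (pt D c) = (dot D c) ∘ (Tr.map (val t) D) := funext fun w => val_pt t D c w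
    rw [h1, ← Finset.image_image, ← orb_map, Finset.card_image_of_injOn, cnt_eq]
    refine hc.mono ?_
    intro w hw
    exact Finset.mem_coe.2 (Finset.mem_biUnion.2 ⟨t, ht, Finset.mem_coe.1 hw⟩)
  have h1 := h ((orb D z).image (pt D c))
  rw [hcard _ (Finset.mem_insert_self _ _)] at h1
  have h2 : ((insertNone S).sup fun t => (((orb D z).image (pt D c)).image (val t)).card) =
      (insertNone S).sup fun t => cnt D (Tr.map (val t) D z) :=
    Finset.sup_congr rfl fun t ht => hcard t (Finset.mem_insert_of_mem ht)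
  rw [h2] at h1
  exact h1

end Pool.Agent.V7H23.AK
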