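import Pool.Agent.V7H23.AK.Dot

set_option autoImplicit false

/-!
# The moments of a labelled tree
-/

open Finset Polynomial

namespace Pool.Agent.V7H23.AK

universe u

/-- the automorphisms of the tree: a permutation from the group at each node -/
@[reducible] def Au : List Level → Type
  | [] => Unit
  | a :: D => a.G × (Fin a.e → Au D)

theorem au_finite : ∀ D : List Level, Finite (Au D)
  | [] => inferInstanceAs (Finite Unit)
  | a :: D => by
      have := au_finite D
      exact inferInstanceAs (Finite (a.G × (Fin a.e → Au D)))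

noncomputable instance (D : List Level) : Fintype (Au D) :=
  have := au_finite D
  Fintype.ofFinite _

/-- the action of an automorphism -/
def act {L : Type u} : (D : List Level) → Au D → Tr L D → Tr L D
  | [], _, z => z
  | _ :: D, g, z => fun i => act D (g.2 i) (z (g.1.1 i))

variable {L : Type u}

theorem same_act : ∀ (D : List Level) (g : Au D) (z : Tr L D), Same D z (act D g z)
  | [], _, _ => rfl
  | _ :: D, g, z => ⟨g.1.1, g.1.2, fun i => same_act D (g.2 i) (z (g.1.1 i))⟩

theorem exists_act : ∀ {D : List Level} {z z' : Tr L D}, Same D z z' → ∃ g, act D g z = z'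
  | [], _, _, h => ⟨(), h⟩
  | a :: D, z, z', ⟨σ, hσ, h⟩ => by
      have h1 : ∀ i, ∃ g, act D g (z (σ i)) = z' i := fun i => exists_act (h i)
      choose g hg using h1
      exact ⟨(⟨σ, hσ⟩, g), funext hg⟩

theorem act_map {L' : Type*} (f : L → L') : ∀ (D : List Level) (g : Au D) (z : Tr L D),
    Tr.map f D (act D g z) = act D g (Tr.map f D z)
  | [], _, _ => rfl
  | _ :: D, g, z => funext fun i => act_map f D (g.2 i) (z (g.1.1 i))

/-- the composition -/
def cmp : (D : List Level) → Au D → Au D → Au D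
  | [], _, _ => ()
  | _ :: D, g, h => (h.1 * g.1, fun i => cmp D (g.2 i) (h.2 (g.1.1 i)))

theorem act_cmp : ∀ (D : List Level) (g h : Au D) (z : Tr L D),
    act D (cmp D g h) z = act D g (act D h z)
  | [], _, _, _ => rfl
  | _ :: D, g, h, z => funext fun i => act_cmp D (g.2 i) (h.2 (g.1.1 i)) _

theorem cmp_inj : ∀ (D : List Level) (h : Au D), Function.Injective fun g => cmp D g h
  | [], _ => fun _ _ _ => rfl
  | a :: D, h => by
      intro g g' hg
      have h1 : h.1 * g.1 = h.1 * g'.1 := congrArg Prod.fst hg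
      have h2 : g.1 = g'.1 := mul_left_cancel h1
      have h3 : (fun i => cmp D (g.2 i) (h.2 (g.1.1 i))) =
          fun i => cmp D (g'.2 i) (h.2 (g'.1.1 i)) := congrArg Prod.snd hg
      refine Prod.ext h2 (funext fun i => ?_)
      have h4 := congrFun h3 i
      rw [← h2] at h4
      exact cmp_inj D _ h4

theorem sum_act {D : List Level} {z z' : Tr L D} (h : Same D z z') (φ : Tr L D → ℚ) :
    ∑ g, φ (act D g z') = ∑ g, φ (act D g z) := by
  obtain ⟨g₀, rfl⟩ := exists_act h
  have hb : Function.Bijective fun g => cmp D g g₀ := by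
    have := au_finite D
    exact Finite.injective_iff_bijective.1 (cmp_inj D g₀)
  have h1 := (Equiv.ofBijective _ hb).sum_comp fun g => φ (act D g z)
  rw [← h1]
  exact Finset.sum_congr rfl fun g _ => by
    rw [Equiv.ofBijective_apply, act_cmp]

/-- the sum of the powers `(x + X y) ^ m` of the points of the rearrangements -/
noncomputable def psi (D : List Level) (c : Tr ℤ D) (m : ℕ) (z : Tr (ℤ × ℤ) D) : ℚ[X] :=
  ∑ g, (C ((pt D c (act D g z)).1 : ℚ) + X * C ((pt D c (act D g z)).2 : ℚ)) ^ m

theorem psi_deg (D : List Level) (c : Tr ℤ D) (m : ℕ) (z : Tr (ℤ × ℤ) D) :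
    (psi D c m z).natDegree ≤ m := by
  unfold psi
  refine Polynomial.natDegree_sum_le_of_forall_le _ _ fun g _ => ?_
  refine Polynomial.natDegree_pow_le.trans ?_
  have h1 : (C ((pt D c (act D g z)).1 : ℚ) + X * C ((pt D c (act D g z)).2 : ℚ)).natDegree ≤ 1 := by
    refine Polynomial.natDegree_add_le_of_degree_le (by simp) ?_
    refine Polynomial.natDegree_mul_le.trans ?_
    simp
  calc m * _ ≤ m * 1 := Nat.mul_le_mul_left m h1
    _ = m := mul_one m

theorem psi_eval (D : List Level) (c : Tr ℤ D) (m : ℕ) (z : Tr (ℤ × ℤ) D) (t : ℚ) :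
    (psi D c m z).eval t = ∑ g, (val (some t) (pt D c (act D g z))) ^ m := by
  unfold psi
  rw [Polynomial.eval_finsetSum]
  refine Finset.sum_congr rfl fun g _ => ?_
  rw [Polynomial.eval_pow, Polynomial.eval_add, Polynomial.eval_mul, Polynomial.eval_C,
    Polynomial.eval_C, Polynomial.eval_X]
  simp only [val, Option.elim_some]

theorem psi_eval' (D : List Level) (c : Tr ℤ D) (m : ℕ) (z : Tr (ℤ × ℤ) D) (t : ℚ) :
    (psi D c m z).eval t = ∑ g, (dot D c (act D g (pj (some t) D z))) ^ m := by
  rw [psi_eval]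
  refine Finset.sum_congr rfl fun g _ => ?_
  rw [val_pt, act_map]

/-- The value at the slope `t` depends only on the class of the projection. -/
theorem psi_merge {D : List Level} (c : Tr ℤ D) (m : ℕ) {z z' : Tr (ℤ × ℤ) D} {t : ℚ}
    (h : Same D (pj (some t) D z) (pj (some t) D z')) :
    (psi D c m z).eval t = (psi D c m z').eval t := by
  rw [psi_eval', psi_eval']
  exact (sum_act h fun w => (dot D c w) ^ m).symm

theorem psi_same {D : List Level} (c : Tr ℤ D) (m : ℕ) {z z' : Tr (ℤ × ℤ) D}
    (h : Same D z z') : psi D c m z = psi D c m z' := by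
  refine Polynomial.funext fun t => ?_
  exact psi_merge c m (h.map (val (some t)))

theorem exists_avoid (A : Finset (ℤ × ℤ)) {p : ℤ × ℤ} (hp : p ∉ A) :
    ∃ t : ℚ, ∀ a ∈ A, val (some t) a ≠ val (some t) p := by
  classical
  have h1 : ∀ a ∈ A, {t : ℚ | val (some t) a = val (some t) p}.Subsingleton := by
    intro a ha t ht t' ht'
    by_contra hne
    apply hp
    have h2 : (some t : Option ℚ) ≠ some t' := fun h => hne (Option.some_injective _ h)
    rw [← val_inj h2 ht ht']
    exact ha
  have h2 : (⋃ a ∈ A, {t : ℚ | val (some t) a = val (some t) p}).Finite :=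
    Set.Finite.biUnion (Finset.finite_toSet A) fun a ha => (h1 a ha).finite
  obtain ⟨t, ht⟩ := (Set.Finite.infinite_compl h2).nonempty
  refine ⟨t, fun a ha h => ht ?_⟩
  exact Set.mem_iUnion₂.2 ⟨a, ha, h⟩

/-- **Trees with few rearrangements are determined by few moments.** -/
theorem determine {D : List Level} {c : Tr ℤ D} {z z' : Tr (ℤ × ℤ) D} {n : ℕ}
    (hn : cnt D z ≤ n) (hc : Set.InjOn (pt D c) ({w | Same D z w} ∪ {z'}))
    (h : ∀ m ≤ 2 * n, psi D c m z = psi D c m z') : Same D z z' := by
  classical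
  by_cases hp : pt D c z' ∈ (orb D z).image (pt D c)
  · obtain ⟨w, hw, hwz⟩ := Finset.mem_image.1 hp
    have hw' : Same D z w := mem_orb.1 hw
    have h1 : w = z' := hc (Or.inl hw') (Or.inr rfl) hwz
    rw [← h1]
    exact hw'
  exfalso
  obtain ⟨t, ht⟩ := exists_avoid _ hp
  obtain ⟨q, hq⟩ : ∃ q : ℚ[X], q = ∏ a ∈ (orb D z).image (pt D c),
      (X - C (val (some t) a)) ^ 2 := ⟨_, rfl⟩
  have hdeg : q.natDegree < 2 * n + 1 := by
    have h1 : q.natDegree ≤ ∑ a ∈ (orb D z).image (pt D c), 2 := by
      rw [hq]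
      refine (Polynomial.natDegree_prod_le _ _).trans (Finset.sum_le_sum fun a _ => ?_)
      refine Polynomial.natDegree_pow_le.trans ?_
      rw [Polynomial.natDegree_X_sub_C]
    rw [Finset.sum_const, smul_eq_mul] at h1
    have h2 : ((orb D z).image (pt D c)).card ≤ n :=
      Finset.card_image_le.trans (by rw [← cnt_eq]; exact hn)
    omega
  have hsum : ∀ w : Tr (ℤ × ℤ) D, ∑ g, q.eval (val (some t) (pt D c (act D g w))) =
      ∑ m ∈ range (2 * n + 1), q.coeff m * (psi D c m w).eval t := by
    intro w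
    have h1 : ∀ g, q.eval (val (some t) (pt D c (act D g w))) =
        ∑ m ∈ range (2 * n + 1), q.coeff m * (val (some t) (pt D c (act D g w))) ^ m := fun g =>
      Polynomial.eval_eq_sum_range' hdeg _
    simp only [h1]
    rw [Finset.sum_comm]
    refine Finset.sum_congr rfl fun m _ => ?_
    rw [psi_eval, Finset.mul_sum]
  have h0 : ∑ g, q.eval (val (some t) (pt D c (act D g z))) = 0 := by
    refine Finset.sum_eq_zero fun g _ => ?_
    rw [hq, Polynomial.eval_prod]
    refine Finset.prod_eq_zero (Finset.mem_image_of_mem _ (mem_orb.2 (same_act D g z))) ?_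
    rw [Polynomial.eval_pow, Polynomial.eval_sub, Polynomial.eval_X, Polynomial.eval_C, sub_self]
    norm_num
  have h0' : ∑ g, q.eval (val (some t) (pt D c (act D g z'))) = 0 := by
    rw [hsum, ← h0, hsum]
    refine Finset.sum_congr rfl fun m hm => ?_
    rw [h m (by have := Finset.mem_range.1 hm; omega)]
  have hpos : ∀ x : ℚ, 0 ≤ q.eval x := by
    intro x
    rw [hq, Polynomial.eval_prod]
    refine Finset.prod_nonneg fun a _ => ?_
    rw [Polynomial.eval_pow]
    exact sq_nonneg _
  obtain ⟨g₀, hg₀⟩ := exists_act (Same.refl D z')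
  have h1 := (Finset.sum_eq_zero_iff_of_nonneg fun g _ => hpos _).1 h0' g₀ (mem_univ _)
  rw [hg₀, hq, Polynomial.eval_prod, Finset.prod_eq_zero_iff] at h1
  obtain ⟨a, ha, h2⟩ := h1
  rw [Polynomial.eval_pow, Polynomial.eval_sub, Polynomial.eval_X, Polynomial.eval_C] at h2
  have h3 : val (some t) (pt D c z') - val (some t) a = 0 := by
    exact pow_eq_zero_iff (two_ne_zero) |>.1 h2
  exact ht a ha (by linarith)

end Pool.Agent.V7H23.AK
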