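import Pool.Agent.V7H23.AK.Tree

set_option autoImplicit false

/-!
# Stabilizers and the loss at one node
-/

open Finset

namespace Pool.Agent.V7H23.AK

section idx

variable {Γ : Type*} [Group Γ]

theorem relIndex_le_card (H A : Subgroup Γ) {Z : Type*} (φ : Γ → Z)
    (s : Finset Z) (h1 : ∀ σ ∈ A, φ σ ∈ s) (h2 : ∀ σ ∈ A, ∀ τ ∈ A, φ σ = φ τ → σ * τ⁻¹ ∈ H) :
    H.relIndex A ≤ s.card := by
  classical
  have key : Nat.card (A ⧸ H.subgroupOf A) ≤ Nat.card s := by
    refine Nat.card_le_card_of_injective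
      (fun q : A ⧸ H.subgroupOf A => (⟨φ ((q.out⁻¹ : A) : Γ), h1 _ (q.out⁻¹ : A).2⟩ : s)) ?_
    intro q q' h
    have h3 : φ ((q.out⁻¹ : A) : Γ) = φ ((q'.out⁻¹ : A) : Γ) := congrArg Subtype.val h
    have h4 := h2 _ (q.out⁻¹ : A).2 _ (q'.out⁻¹ : A).2 h3
    rw [← QuotientGroup.out_eq' q, ← QuotientGroup.out_eq' q', QuotientGroup.eq,
      Subgroup.mem_subgroupOf]
    simpa using h4
  rw [Nat.card_eq_fintype_card (α := s), Fintype.card_coe] at key
  exact key

theorem card_le_relIndex [Finite Γ] (H A : Subgroup Γ) {Z : Type*} (φ : Γ → Z)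
    (s : Finset Z) (h1 : ∀ p ∈ s, ∃ σ ∈ A, φ σ = p)
    (h2 : ∀ σ ∈ A, ∀ τ ∈ A, σ * τ⁻¹ ∈ H → φ σ = φ τ) : s.card ≤ H.relIndex A := by
  classical
  have hex : ∀ w : s, ∃ σ ∈ A, φ σ = w.1 := fun w => h1 w.1 w.2
  choose g hg hgw using hex
  have h3 : Nat.card s ≤ Nat.card (A ⧸ H.subgroupOf A) := by
    refine Nat.card_le_card_of_injective
      (fun w => QuotientGroup.mk (⟨g w, hg w⟩ : A)⁻¹) ?_
    intro w w' h
    have h4 := QuotientGroup.eq.1 h
    rw [Subgroup.mem_subgroupOf, inv_inv] at h4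
    have h5 : g w * (g w')⁻¹ ∈ H := h4
    apply Subtype.ext
    rw [← hgw w, ← hgw w']
    exact h2 _ (hg w) _ (hg w') h5
  rw [Nat.card_eq_fintype_card (α := s), Fintype.card_coe] at h3
  exact h3

/-- the logarithm of the relative index -/
noncomputable def ix (H A : Subgroup Γ) : ℝ := Real.logb 2 (H.relIndex A)

theorem ix_inf (H A : Subgroup Γ) : ix (H ⊓ A) A = ix H A := by
  unfold ix
  rw [Subgroup.inf_relIndex_right]

variable [Finite Γ]

theorem relIndex_ne (H A : Subgroup Γ) : H.relIndex A ≠ 0 :=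
  Subgroup.index_ne_zero_of_finite

theorem ix_nonneg (H A : Subgroup Γ) : 0 ≤ ix H A := by
  unfold ix
  refine Real.logb_nonneg (by norm_num) ?_
  exact_mod_cast Nat.pos_of_ne_zero (relIndex_ne H A)

theorem ix_mul {H K A : Subgroup Γ} (h1 : H ≤ K) (h2 : K ≤ A) : ix H A = ix H K + ix K A := by
  unfold ix
  rw [← Subgroup.relIndex_mul_relIndex H K A h1 h2]
  push_cast
  rw [Real.logb_mul]
  · exact_mod_cast relIndex_ne H K
  · exact_mod_cast relIndex_ne K A

theorem ix_mono {H A B : Subgroup Γ} (h : A ≤ B) : ix H A ≤ ix H B := by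
  unfold ix
  refine Real.logb_le_logb_of_le (by norm_num) ?_ ?_
  · exact_mod_cast Nat.pos_of_ne_zero (relIndex_ne H A)
  · exact_mod_cast Subgroup.relIndex_le_of_le_right h (relIndex_ne H B)

theorem ix_le {H A : Subgroup Γ} {n : ℕ} (h : H.relIndex A ≤ n) : ix H A ≤ Real.logb 2 n := by
  unfold ix
  refine Real.logb_le_logb_of_le (by norm_num) ?_ ?_
  · exact_mod_cast Nat.pos_of_ne_zero (relIndex_ne H A)
  · exact_mod_cast h

end idx

variable {e : ℕ} {X Y : Type*}

theorem inv_app (σ : Equiv.Perm (Fin e)) (i : Fin e) : σ⁻¹ (σ i) = i := σ.symm_apply_apply i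

theorem app_inv (σ : Equiv.Perm (Fin e)) (i : Fin e) : σ (σ⁻¹ i) = i := σ.apply_symm_apply i

/-- The set `U` is invariant under `G`. -/
def Invt (G : Subgroup (Equiv.Perm (Fin e))) (U : Finset (Fin e)) : Prop :=
  ∀ σ ∈ G, ∀ i ∈ U, σ i ∈ U

theorem Invt.back {G : Subgroup (Equiv.Perm (Fin e))} {U : Finset (Fin e)} (hU : Invt G U)
    {σ : Equiv.Perm (Fin e)} (hσ : σ ∈ G) {i : Fin e} (h : σ i ∈ U) : i ∈ U := by
  have := hU σ⁻¹ (G.inv_mem hσ) _ h
  rwa [inv_app] at this

/-- the elements of `G` which preserve `f` on `U` -/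
def st (G : Subgroup (Equiv.Perm (Fin e))) (f : Fin e → X) (U : Finset (Fin e)) (hU : Invt G U) :
    Subgroup (Equiv.Perm (Fin e)) where
  carrier := {σ | σ ∈ G ∧ ∀ i ∈ U, f (σ i) = f i}
  one_mem' := ⟨G.one_mem, fun i _ => rfl⟩
  mul_mem' := by
    rintro σ τ ⟨h1, h2⟩ ⟨h3, h4⟩
    exact ⟨G.mul_mem h1 h3, fun i hi => by rw [Equiv.Perm.mul_apply, h2 _ (hU τ h3 i hi), h4 i hi]⟩
  inv_mem' := by
    rintro σ ⟨h1, h2⟩
    refine ⟨G.inv_mem h1, fun i hi => ?_⟩
    have h3 := hU σ⁻¹ (G.inv_mem h1) i hi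
    have h4 := h2 _ h3
    rw [app_inv] at h4
    exact h4.symm

theorem mem_st {G : Subgroup (Equiv.Perm (Fin e))} {f : Fin e → X} {U : Finset (Fin e)}
    {hU : Invt G U} {σ : Equiv.Perm (Fin e)} :
    σ ∈ st G f U hU ↔ σ ∈ G ∧ ∀ i ∈ U, f (σ i) = f i := Iff.rfl

theorem invt_univ (G : Subgroup (Equiv.Perm (Fin e))) : Invt G univ := fun _ _ _ _ => mem_univ _

theorem rearr_eq (G : Subgroup (Equiv.Perm (Fin e))) (f : Fin e → X) :
    rearr G f = (st G f univ (invt_univ G)).relIndex G := by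
  classical
  have key : ∀ σ ∈ G, ∀ τ ∈ G, pm f σ = pm f τ → σ * τ⁻¹ ∈ st G f univ (invt_univ G) := by
    intro σ hσ τ hτ h
    refine ⟨G.mul_mem hσ (G.inv_mem hτ), fun i _ => ?_⟩
    have h1 := congrFun h (τ⁻¹ i)
    simp only [pm] at h1
    rw [Equiv.Perm.mul_apply, h1, app_inv]
  apply le_antisymm
  · unfold rearr
    have hex : ∀ w : ((els G).image (pm f)), ∃ σ ∈ G, pm f σ = w.1 := by
      intro w
      obtain ⟨σ, hσ, h⟩ := Finset.mem_image.1 w.2
      exact ⟨σ, mem_els.1 hσ, h⟩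
    choose s hs hsw using hex
    have h1 : Nat.card ((els G).image (pm f)) ≤
        Nat.card (G ⧸ (st G f univ (invt_univ G)).subgroupOf G) := by
      refine Nat.card_le_card_of_injective
        (fun w => QuotientGroup.mk (⟨s w, hs w⟩ : G)⁻¹) ?_
      intro w w' h
      have h2 := QuotientGroup.eq.1 h
      rw [Subgroup.mem_subgroupOf, inv_inv] at h2
      have h3 : s w * (s w')⁻¹ ∈ st G f univ (invt_univ G) := h2
      apply Subtype.ext
      rw [← hsw w, ← hsw w']
      funext i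
      have h4 := h3.2 (s w' i) (mem_univ _)
      rw [Equiv.Perm.mul_apply, inv_app] at h4
      exact h4
    rw [Nat.card_eq_fintype_card, Fintype.card_coe] at h1
    exact h1
  · have h1 := relIndex_le_card (st G f univ (invt_univ G)) G (pm f) ((els G).image (pm f))
      (fun σ hσ => Finset.mem_image_of_mem _ (mem_els.2 hσ)) key
    exact h1.trans (rearr_inst f _).le

theorem lam_eq (G : Subgroup (Equiv.Perm (Fin e))) (f : Fin e → X) :
    lam G f = ix (st G f univ (invt_univ G)) G := by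
  unfold lam ix
  rw [rearr_eq]

open Classical in
/-- the orbit of `i` -/
noncomputable def orbt (G : Subgroup (Equiv.Perm (Fin e))) (i : Fin e) : Finset (Fin e) :=
  univ.filter fun j => ∃ σ ∈ G, σ i = j

theorem mem_orbt {G : Subgroup (Equiv.Perm (Fin e))} {i j : Fin e} :
    j ∈ orbt G i ↔ ∃ σ ∈ G, σ i = j := by
  classical
  unfold orbt
  rw [Finset.mem_filter]
  exact ⟨fun h => h.2, fun h => ⟨mem_univ _, h⟩⟩

theorem invt_orbt (G : Subgroup (Equiv.Perm (Fin e))) (i : Fin e) : Invt G (orbt G i) := by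
  intro σ hσ j hj
  obtain ⟨τ, hτ, rfl⟩ := mem_orbt.1 hj
  exact mem_orbt.2 ⟨σ * τ, G.mul_mem hσ hτ, rfl⟩

/-- **The loss at one node.** -/
theorem node (G : Subgroup (Equiv.Perm (Fin e))) (f : Fin e → X) {ι : Type*} (T : Finset ι)
    (ft : ι → Fin e → Y) (hft : ∀ t i j, f i = f j → ft t i = ft t j) (hv : Fin e → Prop)
    [DecidablePred hv] (N c : ℝ) (hN : 0 ≤ N) (hc : 0 ≤ c) (P : Finset (Fin e))
    (horb : ∀ i ∈ P, ∀ H : Subgroup (Equiv.Perm (Fin e)), H ≤ G →
      ∑ t ∈ T, ix (H ⊓ st G f (orbt G i) (invt_orbt G i))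
        (H ⊓ st G (ft t) (orbt G i) (invt_orbt G i)) ≤
      N * ix (H ⊓ st G f (orbt G i) (invt_orbt G i)) H +
        T.card * c * ((((orbt G i).filter hv).card - 1 : ℕ) : ℝ)) :
    ∀ (n : ℕ) (U : Finset (Fin e)) (hU : Invt G U), U ⊆ P → U.card ≤ n →
      ∑ t ∈ T, ix (st G f U hU) (st G (ft t) U hU) ≤ N * ix (st G f U hU) G +
        T.card * c * (((U.filter hv).card - 1 : ℕ) : ℝ) := by
  classical
  intro n
  induction n with
  | zero =>
    intro U hU _ hn
    have hU0 : U = ∅ := Finset.card_eq_zero.1 (Nat.le_zero.1 hn)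
    have h1 : ∀ t ∈ T, ix (st G f U hU) (st G (ft t) U hU) = 0 := by
      intro t _
      have h2 : (st G f U hU).relIndex (st G (ft t) U hU) = 1 := by
        rw [Subgroup.relIndex_eq_one]
        intro σ hσ
        refine ⟨hσ.1, fun i hi => ?_⟩
        rw [hU0] at hi
        exact absurd hi (Finset.notMem_empty _)
      unfold ix
      rw [h2]
      simp
    rw [Finset.sum_eq_zero h1]
    have := ix_nonneg (st G f U hU) G
    positivity
  | succ n ih =>
    intro U hU hUP hn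
    by_cases hU0 : U = ∅
    · exact ih U hU hUP (by rw [hU0]; simp)
    obtain ⟨i₀, hi₀⟩ := Finset.nonempty_iff_ne_empty.2 hU0
    have hO := horb i₀ (hUP hi₀)
    have hJinv : Invt G (orbt G i₀) := invt_orbt G i₀
    have hJU : orbt G i₀ ⊆ U := by
      intro j hj
      obtain ⟨σ, hσ, rfl⟩ := mem_orbt.1 hj
      exact hU σ hσ i₀ hi₀
    have hi₀J : i₀ ∈ orbt G i₀ := mem_orbt.2 ⟨1, G.one_mem, rfl⟩
    obtain ⟨U₀, hU₀⟩ : ∃ U₀, U₀ = U \ orbt G i₀ := ⟨_, rfl⟩
    have hU₀inv : Invt G U₀ := by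
      intro σ hσ i hi
      rw [hU₀, Finset.mem_sdiff] at hi ⊢
      exact ⟨hU σ hσ i hi.1, fun h => hi.2 (hJinv.back hσ h)⟩
    have hcov : ∀ i ∈ U, i ∈ U₀ ∨ i ∈ orbt G i₀ := by
      intro i hi
      by_cases h : i ∈ orbt G i₀
      · exact Or.inr h
      · left
        rw [hU₀, Finset.mem_sdiff]
        exact ⟨hi, h⟩
    have hU₀U : U₀ ⊆ U := by rw [hU₀]; exact Finset.sdiff_subset
    have hU₀card : U₀.card ≤ n := by
      have h1 : U₀.card < U.card := by
        rw [hU₀]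
        exact Finset.card_lt_card (Finset.sdiff_ssubset hJU ⟨i₀, hi₀J⟩)
      omega
    have IH := ih U₀ hU₀inv (hU₀U.trans hUP) hU₀card
    have hh : (U.filter hv).card = (U₀.filter hv).card + ((orbt G i₀).filter hv).card := by
      rw [← Finset.card_union_of_disjoint]
      · congr 1
        rw [← Finset.filter_union, hU₀, Finset.sdiff_union_of_subset hJU]
      · refine Finset.disjoint_filter_filter ?_
        rw [hU₀]
        exact Finset.sdiff_disjoint
    have hH' : st G f U hU ≤ st G f U₀ hU₀inv := fun σ hσ => ⟨hσ.1, fun i hi => hσ.2 i (hU₀U hi)⟩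
    have hHG : st G f U₀ hU₀inv ≤ G := fun σ hσ => hσ.1
    have hadd : ix (st G f U hU) G = ix (st G f U hU) (st G f U₀ hU₀inv) +
      ix (st G f U₀ hU₀inv) G := ix_mul hH' hHG
    have heq : st G f U₀ hU₀inv ⊓ st G f (orbt G i₀) hJinv = st G f U hU := by
      apply le_antisymm
      · intro σ hσ
        refine ⟨hσ.1.1, fun i hi => ?_⟩
        rcases hcov i hi with h | h
        · exact hσ.1.2 i h
        · exact hσ.2.2 i h
      · exact le_inf hH' fun σ hσ => ⟨hσ.1, fun i hi => hσ.2 i (hJU hi)⟩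
    have hO' := hO (st G f U₀ hU₀inv) hHG
    rw [heq] at hO'
    have hstep : ∀ t ∈ T, ix (st G f U hU) (st G (ft t) U hU) ≤
        ix (st G f U₀ hU₀inv) (st G (ft t) U₀ hU₀inv) +
        ix (st G f U hU) (st G f U₀ hU₀inv ⊓ st G (ft t) (orbt G i₀) hJinv) := by
      intro t ht
      have h1 : st G f U hU ≤ st G f U₀ hU₀inv ⊓ st G (ft t) U hU :=
        le_inf hH' fun σ hσ => ⟨hσ.1, fun i hi => hft t _ _ (hσ.2 i hi)⟩
      have h2 : st G (ft t) U hU ≤ st G (ft t) U₀ hU₀inv :=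
        fun σ hσ => ⟨hσ.1, fun i hi => hσ.2 i (hU₀U hi)⟩
      have h2' : st G (ft t) U hU ≤ st G (ft t) (orbt G i₀) hJinv :=
        fun σ hσ => ⟨hσ.1, fun i hi => hσ.2 i (hJU hi)⟩
      have h3 := ix_mul h1 (inf_le_right : st G f U₀ hU₀inv ⊓ st G (ft t) U hU ≤ _)
      rw [ix_inf] at h3
      have h4 := ix_mono (H := st G f U₀ hU₀inv) h2
      have h5 := ix_mono (H := st G f U hU) (inf_le_inf_left (st G f U₀ hU₀inv) h2')
      linarith
    have hsum := Finset.sum_le_sum hstep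
    rw [Finset.sum_add_distrib] at hsum
    have h7 : (((U₀.filter hv).card - 1 : ℕ) : ℝ) +
        ((((orbt G i₀).filter hv).card - 1 : ℕ) : ℝ) ≤ (((U.filter hv).card - 1 : ℕ) : ℝ) := by
      have : ((U₀.filter hv).card - 1) + (((orbt G i₀).filter hv).card - 1) ≤
          (U.filter hv).card - 1 := by
        omega
      exact_mod_cast this
    have h8 : (T.card : ℝ) * c * (((U₀.filter hv).card - 1 : ℕ) : ℝ) +
        T.card * c * ((((orbt G i₀).filter hv).card - 1 : ℕ) : ℝ) ≤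
        T.card * c * (((U.filter hv).card - 1 : ℕ) : ℝ) := by
      have h9 := mul_le_mul_of_nonneg_left h7 (by positivity : 0 ≤ (T.card : ℝ) * c)
      linarith
    rw [hadd, mul_add]
    linarith

/-- **The loss at an orbit with few types.** -/
theorem orb_few {G : Subgroup (Equiv.Perm (Fin e))} {f : Fin e → X} {ι : Type*} {T : Finset ι}
    {ft : ι → Fin e → Y} {J : Finset (Fin e)} (hJ : Invt G J) (hv : Fin e → Prop)
    [DecidablePred hv] [DecidableEq X] {M : ℕ} (hM : 1 ≤ M) {N : ℝ}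
    (htyp : (J.image f).card ≤ M) {bad : Finset ι} (hbc : (bad.card : ℝ) ≤ N)
    (hgood : ∀ t ∈ T, t ∉ bad → ∀ j ∈ J, ∀ k ∈ J, ¬ hv j → ft t j = ft t k → f j = f k)
    (H : Subgroup (Equiv.Perm (Fin e))) :
    ∑ t ∈ T, ix (H ⊓ st G f J hJ) (H ⊓ st G (ft t) J hJ) ≤ N * ix (H ⊓ st G f J hJ) H +
      T.card * (2 * Real.logb 2 M) * (((J.filter hv).card - 1 : ℕ) : ℝ) := by
  classical
  have hlM : 0 ≤ Real.logb 2 (M : ℝ) :=
    Real.logb_nonneg (by norm_num) (by exact_mod_cast hM)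
  have h50 : 0 ≤ 2 * Real.logb 2 (M : ℝ) * (((J.filter hv).card - 1 : ℕ) : ℝ) := by
    positivity
  have hstep : ∀ t ∈ T, ix (H ⊓ st G f J hJ) (H ⊓ st G (ft t) J hJ) ≤
      (if t ∈ bad then ix (H ⊓ st G f J hJ) H else 0) +
          2 * Real.logb 2 M * (((J.filter hv).card - 1 : ℕ) : ℝ) := by
    intro t ht
    by_cases hb : t ∈ bad
    · rw [if_pos hb]
      have := ix_mono (H := H ⊓ st G f J hJ) (inf_le_left : H ⊓ st G (ft t) J hJ ≤ H)
      linarith
    · rw [if_neg hb, zero_add]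
      have hg := hgood t ht hb
      -- light positions keep their type
      have hlight : ∀ σ ∈ H ⊓ st G (ft t) J hJ, ∀ i ∈ J, ¬ hv i → f (σ i) = f i := by
        intro σ hσ i hi hl
        have h6 := hσ.2.2 i hi
        exact (hg i hi (σ i) (hJ σ hσ.2.1 i hi) hl h6.symm).symm
      rcases Nat.lt_or_ge (J.filter hv).card 2 with hc | hc
      · have h7 : (H ⊓ st G f J hJ).relIndex (H ⊓ st G (ft t) J hJ) = 1 := by
          rw [Subgroup.relIndex_eq_one]
          intro σ hσ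
          refine ⟨hσ.1, hσ.2.1, fun i h => ?_⟩
          by_cases hl : hv i
          · by_cases hl2 : hv (σ i)
            · have h8 : σ i = i := by
                have h9 := Finset.card_le_one.1 (Nat.lt_succ_iff.1 hc)
                exact h9 _ (Finset.mem_filter.2 ⟨hJ σ hσ.2.1 i h, hl2⟩) _
                  (Finset.mem_filter.2 ⟨h, hl⟩)
              rw [h8]
            · exact hg (σ i) (hJ σ hσ.2.1 i h) i h hl2 (hσ.2.2 i h)
          · exact hlight σ hσ i h hl
        have h8 : ix (H ⊓ st G f J hJ) (H ⊓ st G (ft t) J hJ) = 0 := by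
          unfold ix
          rw [h7]
          simp
        rw [h8]
        exact h50
      · have h7 : (H ⊓ st G f J hJ).relIndex (H ⊓ st G (ft t) J hJ) ≤
            (Fintype.piFinset fun _ : {i // i ∈ J.filter hv} => J.image f).card := by
          refine relIndex_le_card _ _ (fun σ i => f (σ i.1)) _ ?_ ?_
          · intro σ hσ
            rw [Fintype.mem_piFinset]
            intro i
            exact Finset.mem_image_of_mem _
              (hJ σ hσ.2.1 _ (Finset.mem_filter.1 i.2).1)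
          · intro σ hσ τ hτ h
            refine ⟨H.mul_mem hσ.1 (H.inv_mem hτ.1), G.mul_mem hσ.2.1 (G.inv_mem hτ.2.1),
              fun i h8 => ?_⟩
            have h9 : τ⁻¹ i ∈ J := hJ _ (G.inv_mem hτ.2.1) i h8
            rw [Equiv.Perm.mul_apply]
            have h10 : f (τ (τ⁻¹ i)) = f i := by rw [app_inv]
            rw [← h10]
            by_cases hl : hv (τ⁻¹ i)
            · exact congrFun h ⟨τ⁻¹ i, Finset.mem_filter.2 ⟨h9, hl⟩⟩
            · rw [hlight σ hσ _ h9 hl, hlight τ hτ _ h9 hl]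
        rw [Fintype.card_piFinset, Finset.prod_const, Finset.card_univ,
          Fintype.card_coe] at h7
        have h8 := ix_le (h7.trans (Nat.pow_le_pow_left htyp _))
        refine h8.trans ?_
        push_cast
        rw [Real.logb_pow]
        have h9 : ((J.filter hv).card : ℝ) ≤ 2 * (((J.filter hv).card - 1 : ℕ) : ℝ) := by
          have : (J.filter hv).card ≤ 2 * ((J.filter hv).card - 1) := by omega
          exact_mod_cast this
        calc ((J.filter hv).card : ℝ) * Real.logb 2 M ≤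
            2 * (((J.filter hv).card - 1 : ℕ) : ℝ) * Real.logb 2 M :=
              mul_le_mul_of_nonneg_right h9 hlM
          _ = _ := by ring
  have hsum := Finset.sum_le_sum hstep
  rw [Finset.sum_add_distrib, Finset.sum_const, nsmul_eq_mul] at hsum
  have h6 : ∑ t ∈ T, (if t ∈ bad then ix (H ⊓ st G f J hJ) H else 0) ≤
      N * ix (H ⊓ st G f J hJ) H := by
    rw [← Finset.sum_filter, Finset.sum_const, nsmul_eq_mul]
    refine mul_le_mul_of_nonneg_right ?_ (ix_nonneg _ _)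
    refine le_trans ?_ hbc
    have : (T.filter fun t => t ∈ bad) ⊆ bad := fun t ht => (Finset.mem_filter.1 ht).2
    exact_mod_cast Finset.card_le_card this
  have h7 : (T.card : ℝ) * (2 * Real.logb 2 M * (((J.filter hv).card - 1 : ℕ) : ℝ)) =
      T.card * (2 * Real.logb 2 M) * (((J.filter hv).card - 1 : ℕ) : ℝ) := by ring
  linarith

end Pool.Agent.V7H23.AK
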