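import Pool.Agent.V7H23.AK.Kill
import Pool.Agent.V7H23.AK.Moment

set_option autoImplicit false

/-!
# The loss at an orbit
-/

open Finset Polynomial

namespace Pool.Agent.V7H23.AK

theorem same_cnt {L : Type*} {D : List Level} {z z' : Tr L D} (h : Same D z z') :
    cnt D z = cnt D z' := by
  rw [cnt_eq, cnt_eq, orb_eq_iff.2 h]

theorem regular {e : ℕ} {G : Subgroup (Equiv.Perm (Fin e))} {i : Fin e}
    (hc : ∀ σ ∈ G, ∀ τ ∈ G, ∀ j ∈ orbt G i, σ (τ j) = τ (σ j)) {σ : Equiv.Perm (Fin e)}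
    (hσ : σ ∈ G) {j : Fin e} (hj : j ∈ orbt G i) (h : σ j = j) : ∀ k ∈ orbt G i, σ k = k := by
  intro k hk
  obtain ⟨ρ, hρ, rfl⟩ := mem_orbt.1 hj
  obtain ⟨τ, hτ, rfl⟩ := mem_orbt.1 hk
  have hi : i ∈ orbt G i := mem_orbt.2 ⟨1, G.one_mem, rfl⟩
  -- `τ i = τ ρ⁻¹ (ρ i)`
  have h1 : τ i = (τ * ρ⁻¹) (ρ i) := by rw [Equiv.Perm.mul_apply, inv_app]
  rw [h1, hc σ hσ _ (G.mul_mem hτ (G.inv_mem hρ)) _ hj, h]

/-- **The loss at an orbit on which the group is commutative.** -/
theorem orb_comm {e : ℕ} {G : Subgroup (Equiv.Perm (Fin e))} {D : List Level}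
    (z : Fin e → Tr (ℤ × ℤ) D) (T : Finset (Option ℚ)) (i₀ : Fin e)
    (hc : ∀ σ ∈ G, ∀ τ ∈ G, ∀ j ∈ orbt G i₀, σ (τ j) = τ (σ j))
    (hv : Fin e → Prop) [DecidablePred hv] (hvW : ∀ i j, Same D (z i) (z j) → (hv i ↔ hv j))
    {n₀ : ℕ} (hn : 0 < n₀) (hn₀ : ∀ i, ¬ hv i → cnt D (z i) ≤ n₀)
    {H : Subgroup (Equiv.Perm (Fin e))} (hH : H ≤ G) :
    ∑ t ∈ T, ix (H ⊓ st G (fun i => orb D (z i)) (orbt G i₀) (invt_orbt G i₀))
        (H ⊓ st G (fun i => orb D (pj t D (z i))) (orbt G i₀) (invt_orbt G i₀)) ≤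
      ((2 * n₀ : ℝ) ^ 2 + 1) *
        ix (H ⊓ st G (fun i => orb D (z i)) (orbt G i₀) (invt_orbt G i₀)) H +
      T.card * 1 * ((((orbt G i₀).filter hv).card - 1 : ℕ) : ℝ) := by
  classical
  obtain ⟨J, hJdef⟩ : ∃ J, J = orbt G i₀ := ⟨_, rfl⟩
  have hJ : Invt G J := hJdef ▸ invt_orbt G i₀
  have hreg : ∀ σ ∈ G, ∀ j ∈ J, σ j = j → ∀ k ∈ J, σ k = k := by
    intro σ hσ j hj h k hk
    rw [hJdef] at hj hk
    exact regular hc hσ hj h k hk
  have hc' : ∀ σ ∈ G, ∀ τ ∈ G, ∀ j ∈ J, σ (τ j) = τ (σ j) := by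
    rw [hJdef]
    exact hc
  obtain ⟨c, hcinj⟩ := exists_pt D (univ.biUnion fun i => orb D (z i))
  have hinj : ∀ i j, Set.InjOn (pt D c) ({w | Same D (z i) w} ∪ {z j}) := by
    intro i j
    refine hcinj.mono ?_
    rintro w (hw | hw)
    · exact Finset.mem_coe.2 (Finset.mem_biUnion.2 ⟨i, mem_univ _, mem_orb.2 hw⟩)
    · rw [Set.mem_singleton_iff] at hw
      rw [hw]
      exact Finset.mem_coe.2 (Finset.mem_biUnion.2 ⟨j, mem_univ _, self_mem_orb _⟩)
  obtain ⟨m, hm⟩ : ∃ m, m = 2 * n₀ := ⟨_, rfl⟩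
  obtain ⟨f₀, hf₀⟩ : ∃ f₀ : Fin e → Fin (m + 1) → ℚ[X],
      f₀ = fun i (k : Fin (m + 1)) => psi D c k.1 (z i) := ⟨_, rfl⟩
  have hf₀iff : ∀ i j, f₀ i = f₀ j ↔ ∀ k ≤ m, psi D c k (z i) = psi D c k (z j) := by
    intro i j
    rw [hf₀]
    constructor
    · intro h k hk
      exact congrFun h ⟨k, by omega⟩
    · intro h
      funext k
      exact h k (by have := k.2; omega)
  obtain ⟨Y, hY⟩ : ∃ Y, Y = H ⊓ st G (fun i => orb D (z i)) J hJ := ⟨_, rfl⟩
  obtain ⟨Y₀, hY₀⟩ : ∃ Y₀, Y₀ = H ⊓ st G f₀ J hJ := ⟨_, rfl⟩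
  obtain ⟨Xt, hXt⟩ : ∃ Xt : Option ℚ → Subgroup (Equiv.Perm (Fin e)),
      Xt = fun t => H ⊓ st G (fun i => orb D (pj t D (z i))) J hJ := ⟨_, rfl⟩
  have hXtH : ∀ t, Xt t ≤ H := by
    intro t
    rw [hXt]
    exact inf_le_left
  have hY₀H : Y₀ ≤ H := by
    rw [hY₀]
    exact inf_le_left
  have hYX : ∀ t, Y ≤ Xt t := by
    intro t
    rw [hXt, hY]
    exact inf_le_inf_left H fun σ hσ => ⟨hσ.1, fun i hi =>
      orb_eq_iff.2 ((orb_eq_iff.1 (hσ.2 i hi)).map (val t))⟩
  have hYY₀ : Y ≤ Y₀ := by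
    rw [hY₀, hY]
    exact inf_le_inf_left H fun σ hσ => ⟨hσ.1, fun i hi => (hf₀iff _ _).2 fun k _ =>
      psi_same c k (orb_eq_iff.1 (hσ.2 i hi))⟩
  -- the total size of the groups of the slopes modulo `Y₀`
  have htot : ∑ t ∈ T.eraseNone, ix Y₀ (Xt (some t)) ≤ (m : ℝ) ^ 2 * ix Y₀ H := by
    refine total (H := H) (Xs := fun t => Xt (some t)) (by omega) (fun t => hXtH _) hY₀H ?_ _
    intro b hb t ht σ hσ
    obtain ⟨h1, h2⟩ := hσ
    have h1' := mem_meet.1 h1
    have h3 : σ ∈ H := hXtH _ h2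
    rw [hY₀]
    refine ⟨h3, hH h3, fun i hi => (hf₀iff _ _).2 fun k hk => ?_⟩
    refine indep (u := fun i => psi D c k (z i)) hJ hc' (fun t => (hXtH _).trans hH)
      (hY₀H.trans hH) b hb ht ?_ h2 h1' i hi
    refine ⟨fun i _ => (psi_deg D c k (z i)).trans hk, fun s τ hτ i hi => ?_,
      fun τ hτ i hi => ?_⟩
    · have h4 : τ ∈ Xt (some s) := hτ
      rw [hXt] at h4
      exact psi_merge c k (orb_eq_iff.1 (h4.2.2 i hi))
    · rw [hY₀] at hτ
      exact (hf₀iff _ _).1 (hτ.2.2 i hi) k hk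
  -- the remaining part
  have hdet : ∀ i j, ¬ hv i → f₀ i = f₀ j → Same D (z i) (z j) := by
    intro i j hi hij
    exact determine (hn₀ i hi) (hinj i j) fun k hk => (hf₀iff i j).1 hij k (by omega)
  have hrest : ∀ t, ix Y (Y₀ ⊓ Xt t) ≤ (((J.filter hv).card - 1 : ℕ) : ℝ) := by
    intro t
    have hmem : ∀ σ ∈ Y₀ ⊓ Xt t, σ ∈ H ∧ ∀ i ∈ J, f₀ (σ i) = f₀ i := by
      intro σ hσ
      have h1 := hσ.1
      rw [hY₀] at h1
      exact ⟨h1.1, h1.2.2⟩
    rcases Nat.eq_zero_or_pos (J.filter hv).card with h0 | h0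
    · have h1 : Y.relIndex (Y₀ ⊓ Xt t) = 1 := by
        rw [Subgroup.relIndex_eq_one]
        intro σ hσ
        obtain ⟨h2, h3⟩ := hmem σ hσ
        rw [hY]
        refine ⟨h2, hH h2, fun i hi => ?_⟩
        have hl : ¬ hv i := by
          intro h
          have : i ∈ J.filter hv := Finset.mem_filter.2 ⟨hi, h⟩
          rw [Finset.card_eq_zero.1 h0] at this
          exact absurd this (Finset.notMem_empty _)
        exact (orb_eq_iff.2 (hdet i (σ i) hl (h3 i hi).symm)).symm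
      unfold ix
      rw [h1]
      simp
    · obtain ⟨j₀, hj₀⟩ := Finset.card_pos.1 h0
      obtain ⟨hj₀J, hj₀v⟩ := Finset.mem_filter.1 hj₀
      have h1 : Y.relIndex (Y₀ ⊓ Xt t) ≤ (J.filter hv).card := by
        refine relIndex_le_card _ _ (fun σ => σ j₀) _ ?_ ?_
        · intro σ hσ
          obtain ⟨h2, h3⟩ := hmem σ hσ
          refine Finset.mem_filter.2 ⟨hJ σ (hH h2) j₀ hj₀J, ?_⟩
          by_contra hl
          exact hl ((hvW _ _ (hdet (σ j₀) j₀ hl (h3 j₀ hj₀J))).2 hj₀v)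
        · intro σ hσ τ hτ h
          obtain ⟨h2, _⟩ := hmem σ hσ
          obtain ⟨h3, _⟩ := hmem τ hτ
          have h4 : (σ * τ⁻¹) (τ j₀) = τ j₀ := by
            rw [Equiv.Perm.mul_apply, inv_app]
            exact h
          have h5 : σ * τ⁻¹ ∈ H := H.mul_mem h2 (H.inv_mem h3)
          have h6 := hreg _ (hH h5) _ (hJ τ (hH h3) j₀ hj₀J) h4
          rw [hY]
          refine ⟨h5, hH h5, fun i hi => ?_⟩
          rw [h6 i hi]
      have h2 : (J.filter hv).card ≤ 2 ^ ((J.filter hv).card - 1) := by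
        have := Nat.lt_two_pow_self (n := (J.filter hv).card - 1)
        omega
      have h3 := ix_le (h1.trans h2)
      refine h3.trans (le_of_eq ?_)
      rw [Nat.cast_pow, Nat.cast_ofNat, Real.logb_pow, Real.logb_self_eq_one (by norm_num), mul_one]
  have hone : ∀ t, ix Y (Xt t) ≤ ix Y₀ (Xt t) + (((J.filter hv).card - 1 : ℕ) : ℝ) := by
    intro t
    have h1 := ix_mul (le_inf hYY₀ (hYX t)) (inf_le_right : Y₀ ⊓ Xt t ≤ Xt t)
    rw [ix_inf] at h1
    have := hrest t
    linarith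
  have hnone : ix Y (Xt none) ≤ ix Y H := ix_mono (hXtH none)
  have hcard : (T.eraseNone.card : ℝ) ≤ T.card := by
    have h1 : (T.eraseNone.map Function.Embedding.some).card ≤ T.card := by
      rw [Finset.map_some_eraseNone]
      exact Finset.card_le_card (Finset.erase_subset _ _)
    rw [Finset.card_map] at h1
    exact_mod_cast h1
  have hsplit : ∑ t ∈ T, ix Y (Xt t) ≤ ix Y (Xt none) + ∑ t ∈ T.eraseNone, ix Y (Xt (some t)) := by
    rw [← Finset.sum_insertNone (fun t => ix Y (Xt t)), Finset.insertNone_eraseNone]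
    exact Finset.sum_le_sum_of_subset_of_nonneg (Finset.subset_insert _ _) fun t _ _ =>
      ix_nonneg _ _
  have hsum : ∑ t ∈ T.eraseNone, ix Y (Xt (some t)) ≤
      (m : ℝ) ^ 2 * ix Y₀ H + T.card * (((J.filter hv).card - 1 : ℕ) : ℝ) := by
    refine (Finset.sum_le_sum fun t _ => hone (some t)).trans ?_
    rw [Finset.sum_add_distrib, Finset.sum_const, nsmul_eq_mul]
    have := mul_le_mul_of_nonneg_right hcard
      (by positivity : (0 : ℝ) ≤ (((J.filter hv).card - 1 : ℕ) : ℝ))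
    linarith
  have hanti : ix Y₀ H ≤ ix Y H := ix_anti (inf_le_left.trans hYY₀)
  have h1 := mul_le_mul_of_nonneg_left hanti (by positivity : (0 : ℝ) ≤ (m : ℝ) ^ 2)
  have h2 : (m : ℝ) = 2 * n₀ := by
    rw [hm]
    push_cast
    ring
  rw [h2] at h1 hsum
  subst hJdef
  rw [hY, hXt] at hsplit
  rw [hY, hXt] at hnone
  rw [hY, hXt] at hsum
  rw [hY] at h1
  have h3 : ((2 * n₀ : ℝ) ^ 2 + 1) *
        ix (H ⊓ st G (fun i => orb D (z i)) (orbt G i₀) (invt_orbt G i₀)) H =
      (2 * n₀ : ℝ) ^ 2 *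
        ix (H ⊓ st G (fun i => orb D (z i)) (orbt G i₀) (invt_orbt G i₀)) H +
        ix (H ⊓ st G (fun i => orb D (z i)) (orbt G i₀) (invt_orbt G i₀)) H := by ring
  rw [h3, mul_one]
  linarith

/-- **The loss at an orbit on which a subgroup of small index is commutative.** -/
theorem orb_virt {e : ℕ} {G : Subgroup (Equiv.Perm (Fin e))} {D : List Level}
    (z : Fin e → Tr (ℤ × ℤ) D) (T : Finset (Option ℚ)) {J : Finset (Fin e)} (hJ : Invt G J)
    {A : Subgroup (Equiv.Perm (Fin e))} {M : ℕ} (hM : 2 ≤ M)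
    (hAM : A.relIndex G ≤ M) (hc : ∀ σ ∈ A, ∀ τ ∈ A, ∀ j ∈ J, σ (τ j) = τ (σ j))
    {B : ℝ} (hB : 0 < B) (hv : Fin e → Prop) [DecidablePred hv]
    (hvB : ∀ i, hv i ↔ B ≤ W D (z i)) {H : Subgroup (Equiv.Perm (Fin e))} (hH : H ≤ G) :
    ∑ t ∈ T, ix (H ⊓ st G (fun i => orb D (z i)) J hJ)
        (H ⊓ st G (fun i => orb D (pj t D (z i))) J hJ) ≤
      (3 * (M : ℝ) ^ 2 * ((2 : ℝ) ^ B) ^ 2 + T.card * Real.logb 2 M / B) *
        ix (H ⊓ st G (fun i => orb D (z i)) J hJ) H +
      T.card * (2 * Real.logb 2 M) * (((J.filter hv).card - 1 : ℕ) : ℝ) := by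
  classical
  obtain ⟨f, hf⟩ : ∃ f : Fin e → Finset (Tr (ℤ × ℤ) D), f = fun i => orb D (z i) := ⟨_, rfl⟩
  obtain ⟨ft, hft⟩ : ∃ ft : Option ℚ → Fin e → Finset (Tr ℚ D),
      ft = fun t i => orb D (pj t D (z i)) := ⟨_, rfl⟩
  have hsame : ∀ i j, f i = f j ↔ Same D (z i) (z j) := by
    intro i j
    rw [hf]
    exact orb_eq_iff
  have hsamet : ∀ t i j, ft t i = ft t j ↔ Same D (pj t D (z i)) (pj t D (z j)) := by
    intro t i j
    rw [hft]
    exact orb_eq_iff
  have hdet : ∀ t i j, f i = f j → ft t i = ft t j := fun t i j h =>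
    (hsamet t i j).2 (((hsame i j).1 h).map (val t))
  have hW : ∀ i j, Same D (z i) (z j) → (hv i ↔ hv j) := by
    intro i j h
    rw [hvB, hvB]
    unfold W
    rw [same_cnt h]
  obtain ⟨Q, hQ⟩ : ∃ Q : ℝ, Q = (2 : ℝ) ^ B := ⟨_, rfl⟩
  have hQ1 : 1 ≤ Q := by
    rw [hQ]
    exact Real.one_le_rpow (by norm_num) hB.le
  obtain ⟨n₀, hn₀⟩ : ∃ n₀, n₀ = ⌊Q⌋₊ := ⟨_, rfl⟩
  have hn : 0 < n₀ := by
    rw [hn₀]
    exact Nat.floor_pos.2 hQ1
  have hnQ : (n₀ : ℝ) ≤ Q := by
    rw [hn₀]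
    exact Nat.floor_le (by linarith)
  have hlight : ∀ i, ¬ hv i → (cnt D (z i) : ℝ) ≤ Q := by
    intro i hi
    have h1 : W D (z i) ≤ B := by
      by_contra h
      exact hi ((hvB i).2 (le_of_not_ge h))
    have h2 : (0 : ℝ) < cnt D (z i) := by exact_mod_cast cnt_pos D _
    calc (cnt D (z i) : ℝ) = (2 : ℝ) ^ (W D (z i)) := by
          unfold W
          rw [Real.rpow_logb (by norm_num) (by norm_num) h2]
      _ ≤ Q := by
          rw [hQ]
          exact Real.rpow_le_rpow_of_exponent_le (by norm_num) h1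
  have hlight' : ∀ i, ¬ hv i → cnt D (z i) ≤ n₀ := by
    intro i hi
    rw [hn₀]
    exact Nat.le_floor (hlight i hi)
  obtain ⟨l, hl⟩ : ∃ l, l = Real.logb 2 (M : ℝ) := ⟨_, rfl⟩
  have hM2 : (2 : ℝ) ≤ M := by exact_mod_cast hM
  have hl1 : 1 ≤ l := by
    rw [hl]
    calc (1 : ℝ) = Real.logb 2 2 := (Real.logb_self_eq_one (by norm_num)).symm
      _ ≤ _ := Real.logb_le_logb_of_le (by norm_num) (by norm_num) hM2
  have hlM : l ≤ M - 1 := by
    have h1 : M ≤ 2 ^ (M - 1) := by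
      have := Nat.lt_two_pow_self (n := M - 1)
      omega
    have h2 : (M : ℝ) ≤ (2 : ℝ) ^ (M - 1) := by exact_mod_cast h1
    rw [hl]
    calc Real.logb 2 (M : ℝ) ≤ Real.logb 2 ((2 : ℝ) ^ (M - 1)) :=
          Real.logb_le_logb_of_le (by norm_num) (by linarith) h2
      _ = ((M - 1 : ℕ) : ℝ) := by
          rw [Real.logb_pow, Real.logb_self_eq_one (by norm_num), mul_one]
      _ = M - 1 := by
          rw [Nat.cast_sub (by omega)]
          simp
  obtain ⟨h, hh⟩ : ∃ h : ℝ, h = (((J.filter hv).card - 1 : ℕ) : ℝ) := ⟨_, rfl⟩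
  have hh0 : 0 ≤ h := by rw [hh]; positivity
  obtain ⟨Y, hY⟩ : ∃ Y, Y = H ⊓ st G f J hJ := ⟨_, rfl⟩
  obtain ⟨Xt, hXt⟩ : ∃ Xt : Option ℚ → Subgroup (Equiv.Perm (Fin e)),
      Xt = fun t => H ⊓ st G (ft t) J hJ := ⟨_, rfl⟩
  have hgoal : ∑ t ∈ T, ix Y (Xt t) ≤ (3 * (M : ℝ) ^ 2 * Q ^ 2 + T.card * l / B) * ix Y H +
      T.card * (2 * l) * h := by
    have hYH : Y ≤ H := by rw [hY]; exact inf_le_left
    have hXH : ∀ t, Xt t ≤ H := by intro t; rw [hXt]; exact inf_le_left
    have hYX : ∀ t, Y ≤ Xt t := by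
      intro t
      rw [hXt, hY]
      exact inf_le_inf_left H fun σ hσ => ⟨hσ.1, fun i hi => hdet t _ _ (hσ.2 i hi)⟩
    have hw0 := ix_nonneg Y H
    have hTc : (0 : ℝ) ≤ T.card := Nat.cast_nonneg _
    have hrhs : 0 ≤ (3 * (M : ℝ) ^ 2 * Q ^ 2 + T.card * l / B) * ix Y H + T.card * (2 * l) * h := by
      have : 0 ≤ l := by linarith
      positivity
    by_cases htriv : H ≤ Y
    · refine le_trans (le_of_eq ?_) hrhs
      refine Finset.sum_eq_zero fun t _ => ?_
      unfold ix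
      rw [Subgroup.relIndex_eq_one.2 ((hXH t).trans htriv)]
      simp
    have hw1 : 1 ≤ ix Y H := by
      have h1 : Y.relIndex H ≠ 1 := fun h => htriv (Subgroup.relIndex_eq_one.1 h)
      have h2 := relIndex_ne Y H
      have h3 : 2 ≤ Y.relIndex H := by omega
      unfold ix
      calc (1 : ℝ) = Real.logb 2 2 := (Real.logb_self_eq_one (by norm_num)).symm
        _ ≤ _ := Real.logb_le_logb_of_le (by norm_num) (by norm_num) (by exact_mod_cast h3)
    -- the commutative subgroup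
    have hR : H ⊓ A ≤ G := inf_le_left.trans hH
    have hJR : Invt (H ⊓ A) J := fun σ hσ => hJ σ (hR hσ)
    have hN₂ : (0 : ℝ) ≤ (2 * n₀ : ℝ) ^ 2 + 1 := by positivity
    have hV := node (H ⊓ A) f T ft hdet hv ((2 * n₀ : ℝ) ^ 2 + 1) 1 hN₂ zero_le_one J
      (by
        intro i hi H' hH'
        have hsub : orbt (H ⊓ A) i ⊆ J := by
          intro j hj
          obtain ⟨σ, hσ, rfl⟩ := mem_orbt.1 hj
          exact hJR σ hσ i hi
        have h1 := orb_comm z T i (G := H ⊓ A)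
          (fun σ hσ τ hτ j hj => hc σ hσ.2 τ hτ.2 j (hsub hj)) hv hW hn hlight' hH'
        rw [hf, hft]
        exact h1)
      _ J hJR (Finset.Subset.refl J) le_rfl
    have hYA : st (H ⊓ A) f J hJR = Y ⊓ A := by
      rw [hY]
      ext σ
      constructor
      · rintro ⟨⟨h1, h2⟩, h3⟩
        exact ⟨⟨h1, hH h1, h3⟩, h2⟩
      · rintro ⟨⟨h1, _, h3⟩, h2⟩
        exact ⟨⟨h1, h2⟩, h3⟩
    have hXA : ∀ t, st (H ⊓ A) (ft t) J hJR = A ⊓ Xt t := by
      intro t
      rw [hXt]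
      ext σ
      constructor
      · rintro ⟨⟨h1, h2⟩, h3⟩
        exact ⟨h2, ⟨h1, hH h1, h3⟩⟩
      · rintro ⟨h2, ⟨h1, _, h3⟩⟩
        exact ⟨⟨h1, h2⟩, h3⟩
    rw [hYA] at hV
    simp only [hXA] at hV
    rw [mul_one, ← hh] at hV
    have hlog : ∀ X : Subgroup (Equiv.Perm (Fin e)), X ≤ G → ix A X ≤ l := by
      intro X hX
      rw [hl]
      refine ix_le (le_trans ?_ hAM)
      exact Subgroup.relIndex_le_of_le_right hX (relIndex_ne _ _)
    have hgen : ∀ t, ix Y (Xt t) ≤ l + ix (Y ⊓ A) (A ⊓ Xt t) := by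
      intro t
      have h1 : ix Y (Xt t) ≤ ix (Y ⊓ A) (Xt t) := ix_anti (inf_le_left.trans inf_le_left)
      have h2 := ix_mul (le_inf inf_le_right (inf_le_left.trans (hYX t)) : Y ⊓ A ≤ A ⊓ Xt t)
        (inf_le_right : A ⊓ Xt t ≤ Xt t)
      rw [ix_inf] at h2
      have := hlog _ ((hXH t).trans hH)
      linarith
    have hYR : ix (Y ⊓ A) (H ⊓ A) ≤ l + ix Y H := by
      have h1 := ix_mono (H := Y ⊓ A) (inf_le_left : H ⊓ A ≤ H)
      have h2 := ix_mul (inf_le_left : Y ⊓ A ≤ Y) hYH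
      have h3 : ix (Y ⊓ A) Y = ix A Y := by rw [inf_comm]; exact ix_inf A Y
      have := hlog _ (hYH.trans hH)
      linarith
    have hnn : (2 * n₀ : ℝ) ^ 2 + 1 ≤ 5 * Q ^ 2 := by
      have h1 : (n₀ : ℝ) ^ 2 ≤ Q ^ 2 := pow_le_pow_left₀ (Nat.cast_nonneg _) hnQ 2
      nlinarith
    have hV' : ∑ t ∈ T, ix (Y ⊓ A) (A ⊓ Xt t) ≤ 5 * Q ^ 2 * (1 + l) * ix Y H + T.card * h := by
      refine hV.trans ?_
      have h1 : l + ix Y H ≤ (1 + l) * ix Y H := by nlinarith
      have h2 := mul_le_mul hnn (hYR.trans h1) (ix_nonneg _ _) (by positivity)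
      linarith
    have hcoef : Q ^ 2 + 5 * Q ^ 2 * (1 + l) ≤ 3 * (M : ℝ) ^ 2 * Q ^ 2 := by
      have h1 : 1 + 5 * (1 + l) ≤ 3 * (M : ℝ) ^ 2 := by nlinarith
      have h2 := mul_le_mul_of_nonneg_right h1 (by positivity : 0 ≤ Q ^ 2)
      linarith
    have hlh : T.card * (l * h) + T.card * h ≤ T.card * (2 * l) * h := by
      have h1 : h ≤ l * h := by nlinarith
      have := mul_le_mul_of_nonneg_left h1 hTc
      linarith
    have hcoef' := mul_le_mul_of_nonneg_right hcoef hw0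
    rcases le_or_gt B (ix Y H) with hBw | hBw
    · -- large index
      have h1 : ∑ t ∈ T, ix Y (Xt t) ≤ ∑ t ∈ T, (l + ix (Y ⊓ A) (A ⊓ Xt t)) :=
        Finset.sum_le_sum fun t _ => hgen t
      rw [Finset.sum_add_distrib, Finset.sum_const, nsmul_eq_mul] at h1
      have h2 : (T.card : ℝ) * l ≤ T.card * l / B * ix Y H := by
        rw [div_mul_eq_mul_div, le_div_iff₀ hB]
        exact mul_le_mul_of_nonneg_left hBw (by positivity)
      have h3 : 0 ≤ Q ^ 2 * ix Y H := by positivity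
      have h4 : 0 ≤ (T.card : ℝ) * (l * h) := by
        have : 0 ≤ l := by linarith
        positivity
      nlinarith
    · -- small index: few bad slopes
      obtain ⟨bad, hbad⟩ : ∃ bad : Finset (Option ℚ), bad = T.filter fun t => ∃ σ ∈ Xt t,
          ∃ j ∈ J, f (σ j) ≠ f j ∧ (¬ hv j ∨ ¬ hv (σ j)) := ⟨_, rfl⟩
      obtain ⟨pat, hpat⟩ : ∃ pat : Equiv.Perm (Fin e) → Fin e → Finset (Tr (ℤ × ℤ) D),
          pat = fun σ j => if j ∈ J then f (σ j) else f j := ⟨_, rfl⟩
      have hpatc : ((els H).image pat).card ≤ Y.relIndex H := by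
        refine card_le_relIndex Y H pat _ ?_ ?_
        · intro p hp
          obtain ⟨σ, hσ, rfl⟩ := Finset.mem_image.1 hp
          exact ⟨σ, mem_els.1 hσ, rfl⟩
        · intro σ hσ τ hτ h1
          rw [hY] at h1
          rw [hpat]
          funext j
          by_cases hj : j ∈ J
          · simp only [hj, if_true]
            have h2 := h1.2.2 (τ j) (hJ τ (hH hτ) j hj)
            rw [Equiv.Perm.mul_apply, inv_app] at h2
            exact h2
          · simp only [hj, if_false]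
      have hbc : (bad.card : ℝ) ≤ Q ^ 2 := by
        have h1 : bad ⊆ ((els H).image pat).biUnion fun p =>
            T.filter fun t => ∃ j ∈ J, ∃ k, f k = p j ∧ f j ≠ p j ∧ (¬ hv j ∨ ¬ hv k) ∧
              (∀ j' ∈ J, ∀ k', f k' = p j' → ft t k' = ft t j') := by
          intro t ht
          rw [hbad] at ht
          obtain ⟨htT, σ, hσ, j, hj, hne, hlt⟩ := Finset.mem_filter.1 ht
          have hσH := hXH t hσ
          refine Finset.mem_biUnion.2 ⟨pat σ, Finset.mem_image_of_mem _ (mem_els.2 hσH),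
            Finset.mem_filter.2 ⟨htT, j, hj, σ j, ?_, ?_, hlt, ?_⟩⟩
          · rw [hpat]
            simp only [hj, if_true]
          · rw [hpat]
            simp only [hj, if_true]
            exact fun h => hne h.symm
          · intro j' hj' k' hk'
            rw [hpat] at hk'
            simp only [hj', if_true] at hk'
            rw [hdet t _ _ hk']
            rw [hXt] at hσ
            exact hσ.2.2 j' hj'
        have h2 : ∀ p ∈ (els H).image pat, ((T.filter fun t => ∃ j ∈ J, ∃ k, f k = p j ∧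
            f j ≠ p j ∧ (¬ hv j ∨ ¬ hv k) ∧
              (∀ j' ∈ J, ∀ k', f k' = p j' → ft t k' = ft t j')).card : ℝ) ≤ Q := by
          intro p _
          by_cases hex : ∃ j ∈ J, ∃ k, f k = p j ∧ f j ≠ p j ∧ (¬ hv j ∨ ¬ hv k)
          · obtain ⟨j, hj, k, hk, hne, hlt⟩ := hex
            have hne' : ¬ Same D (z j) (z k) := by
              intro h
              exact hne (((hsame j k).2 h).trans hk)
            have h3 : (T.filter fun t => ∃ j ∈ J, ∃ k, f k = p j ∧
                f j ≠ p j ∧ (¬ hv j ∨ ¬ hv k) ∧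
                (∀ j' ∈ J, ∀ k', f k' = p j' → ft t k' = ft t j')) ⊆ merge T D (z j) (z k) := by
              intro t ht
              obtain ⟨htT, _, _, _, _, _, _, h4⟩ := Finset.mem_filter.1 ht
              exact Finset.mem_filter.2 ⟨htT, (hsamet t j k).1 (h4 j hj k hk).symm⟩
            have h4 : ((T.filter fun t => ∃ j ∈ J, ∃ k, f k = p j ∧
                f j ≠ p j ∧ (¬ hv j ∨ ¬ hv k) ∧
                (∀ j' ∈ J, ∀ k', f k' = p j' → ft t k' = ft t j')).card : ℝ) ≤
                (merge T D (z j) (z k)).card := by exact_mod_cast Finset.card_le_card h3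
            refine h4.trans ?_
            rcases hlt with hlt | hlt
            · have h5 : ((merge T D (z j) (z k)).card : ℝ) ≤ cnt D (z j) := by
                exact_mod_cast merge_le T D (z j) (z k) hne'
              exact h5.trans (hlight j hlt)
            · have h5 : ((merge T D (z k) (z j)).card : ℝ) ≤ cnt D (z k) := by
                exact_mod_cast merge_le T D (z k) (z j) fun h => hne' h.symm
              rw [merge_symm]
              exact h5.trans (hlight k hlt)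
          · have h3 : (T.filter fun t => ∃ j ∈ J, ∃ k, f k = p j ∧
                f j ≠ p j ∧ (¬ hv j ∨ ¬ hv k) ∧
                (∀ j' ∈ J, ∀ k', f k' = p j' → ft t k' = ft t j')) = ∅ := by
              rw [Finset.filter_eq_empty_iff]
              rintro t _ ⟨j, hj, k, h4, h5, h6, _⟩
              exact hex ⟨j, hj, k, h4, h5, h6⟩
            rw [h3, Finset.card_empty]
            push_cast
            linarith
        have h3 : (bad.card : ℝ) ≤ ((els H).image pat).card * Q := by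
          have h31 := (Finset.card_le_card h1).trans Finset.card_biUnion_le
          have h32 : (bad.card : ℝ) ≤ ∑ p ∈ (els H).image pat, ((T.filter fun t => ∃ j ∈ J, ∃ k,
              f k = p j ∧ f j ≠ p j ∧ (¬ hv j ∨ ¬ hv k) ∧
              (∀ j' ∈ J, ∀ k', f k' = p j' → ft t k' = ft t j')).card : ℝ) := by
            exact_mod_cast h31
          refine h32.trans ((Finset.sum_le_sum h2).trans (le_of_eq ?_))
          rw [Finset.sum_const, nsmul_eq_mul]
        have h4 : (((els H).image pat).card : ℝ) ≤ Q := by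
          have h5 : (((els H).image pat).card : ℝ) ≤ Y.relIndex H := by exact_mod_cast hpatc
          have h6 : (0 : ℝ) < Y.relIndex H := by
            exact_mod_cast Nat.pos_of_ne_zero (relIndex_ne Y H)
          have h7 : (Y.relIndex H : ℝ) = (2 : ℝ) ^ (ix Y H) := by
            unfold ix
            rw [Real.rpow_logb (by norm_num) (by norm_num) h6]
          rw [h7] at h5
          rw [hQ]
          exact h5.trans (Real.rpow_le_rpow_of_exponent_le (by norm_num) hBw.le)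
        calc (bad.card : ℝ) ≤ _ := h3
          _ ≤ Q * Q := mul_le_mul_of_nonneg_right h4 (by linarith)
          _ = Q ^ 2 := (sq Q).symm
      have hstep : ∀ t ∈ T, ix Y (Xt t) ≤ (if t ∈ bad then ix Y H else 0) +
          (l * h + ix (Y ⊓ A) (A ⊓ Xt t)) := by
        intro t ht
        have hnn1 := ix_nonneg (Y ⊓ A) (A ⊓ Xt t)
        have hnn2 : 0 ≤ l * h := mul_nonneg (by linarith) hh0
        by_cases hb : t ∈ bad
        · rw [if_pos hb]
          have := ix_mono (H := Y) (hXH t)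
          linarith
        · rw [if_neg hb, zero_add]
          have hgood : ∀ σ ∈ Xt t, ∀ j ∈ J, f (σ j) ≠ f j → hv j ∧ hv (σ j) := by
            intro σ hσ j hj hne
            by_contra hcon
            apply hb
            rw [hbad]
            refine Finset.mem_filter.2 ⟨ht, σ, hσ, j, hj, hne, ?_⟩
            by_cases h1 : hv j
            · exact Or.inr fun h2 => hcon ⟨h1, h2⟩
            · exact Or.inl h1
          rcases Nat.lt_or_ge (J.filter hv).card 2 with hc2 | hc2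
          · have h1 : Xt t ≤ Y := by
              intro σ hσ
              have hσH := hXH t hσ
              rw [hY]
              refine ⟨hσH, hH hσH, fun j hj => ?_⟩
              by_contra hne
              obtain ⟨h2, h3⟩ := hgood σ hσ j hj hne
              apply hne
              have h4 := Finset.card_le_one.1 (Nat.lt_succ_iff.1 hc2) (σ j)
                (Finset.mem_filter.2 ⟨hJ σ (hH hσH) j hj, h3⟩) j (Finset.mem_filter.2 ⟨hj, h2⟩)
              rw [h4]
            have h2 : ix Y (Xt t) = 0 := by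
              unfold ix
              rw [Subgroup.relIndex_eq_one.2 h1]
              simp
            rw [h2]
            linarith
          · have h1 : 1 ≤ h := by
              rw [hh]
              exact_mod_cast (by omega : 1 ≤ (J.filter hv).card - 1)
            have h2 := hgen t
            have h3 : l ≤ l * h := by nlinarith
            linarith
      have hsum := Finset.sum_le_sum hstep
      rw [Finset.sum_add_distrib, Finset.sum_add_distrib, Finset.sum_const, nsmul_eq_mul] at hsum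
      have h6 : ∑ t ∈ T, (if t ∈ bad then ix Y H else 0) ≤ Q ^ 2 * ix Y H := by
        rw [← Finset.sum_filter, Finset.sum_const, nsmul_eq_mul]
        refine mul_le_mul_of_nonneg_right ?_ hw0
        refine le_trans ?_ hbc
        have : (T.filter fun t => t ∈ bad) ⊆ bad := fun t ht => (Finset.mem_filter.1 ht).2
        exact_mod_cast Finset.card_le_card this
      have h7 : 0 ≤ T.card * l / B * ix Y H := by
        have : 0 ≤ l := by linarith
        positivity
      nlinarith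
  rw [hY, hXt, hf, hft] at hgoal
  rw [hQ, hl, hh] at hgoal
  exact hgoal

end Pool.Agent.V7H23.AK
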