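import Mathlib

set_option autoImplicit false

/-!
# Counting paths
-/

open Finset

namespace Pool.Agent.V7H23.AK

section paths

variable {α : Type*} {β : Type*} [DecidableEq α] [DecidableEq β]

/-- the sequences of `r + 1` elements of `A` such that `f j` takes the same value at the elements
with the indices `j`, `j + 1` -/
def Paths (A : Finset α) (r : ℕ) (f : Fin r → α → β) : Finset (Fin (r + 1) → α) :=
  (Fintype.piFinset fun _ => A).filter fun p => ∀ j : Fin r, f j (p j.castSucc) = f j (p j.succ)

theorem mem_paths {A : Finset α} {r : ℕ} {f : Fin r → α → β} {p : Fin (r + 1) → α} :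
    p ∈ Paths A r f ↔ (∀ i, p i ∈ A) ∧ ∀ j : Fin r, f j (p j.castSucc) = f j (p j.succ) := by
  unfold Paths
  rw [Finset.mem_filter, Fintype.mem_piFinset]

theorem paths_cons (A : Finset α) (r : ℕ) (f : Fin (r + 1) → α → β) {a : α} (ha : a ∈ A) :
    ((Paths A (r + 1) f).filter fun p => p 0 = a).card =
      ∑ b ∈ A.filter (fun b => f 0 a = f 0 b),
        ((Paths A r fun j => f j.succ).filter fun p => p 0 = b).card := by
  have h1 : ((Paths A (r + 1) f).filter fun p => p 0 = a).card =
      ((Paths A r fun j => f j.succ).filter fun p => f 0 a = f 0 (p 0)).card := by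
    refine Finset.card_bij' (fun p _ => Fin.tail p) (fun p _ => Fin.cons a p) ?_ ?_ ?_ ?_
    · intro p hp
      obtain ⟨hp1, h0⟩ := Finset.mem_filter.1 hp
      obtain ⟨h2, h3⟩ := mem_paths.1 hp1
      refine Finset.mem_filter.2 ⟨mem_paths.2 ⟨fun i => h2 i.succ, fun j => ?_⟩, ?_⟩
      · have := h3 j.succ
        rw [← Fin.succ_castSucc] at this
        exact this
      · have := h3 0
        rw [← h0]
        exact this
    · intro p hp
      obtain ⟨hp, h0⟩ := Finset.mem_filter.1 hp
      obtain ⟨h2, h3⟩ := mem_paths.1 hp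
      refine Finset.mem_filter.2 ⟨mem_paths.2 ⟨fun i => ?_, fun j => ?_⟩, Fin.cons_zero _ _⟩
      · refine Fin.cases ?_ (fun i => ?_) i
        · exact ha
        · exact h2 i
      · refine Fin.cases ?_ (fun j => ?_) j
        · exact h0
        · rw [← Fin.succ_castSucc, Fin.cons_succ, Fin.cons_succ]
          exact h3 j
    · intro p hp
      obtain ⟨hp1, h0⟩ := Finset.mem_filter.1 hp
      rw [← h0]
      exact Fin.cons_self_tail p
    · intro p hp
      exact Fin.tail_cons _ _
  rw [h1, Finset.card_eq_sum_card_fiberwise (f := fun p : Fin (r + 1) → α => p 0)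
    (t := A.filter (fun b => f 0 a = f 0 b))]
  · refine Finset.sum_congr rfl fun b hb => ?_
    congr 1
    ext p
    simp only [Finset.mem_filter]
    constructor
    · rintro ⟨⟨h2, _⟩, h3⟩
      exact ⟨h2, h3⟩
    · rintro ⟨h2, h3⟩
      refine ⟨⟨h2, ?_⟩, h3⟩
      rw [h3]
      exact (Finset.mem_filter.1 hb).2
  · intro p hp
    obtain ⟨hp, h0⟩ := Finset.mem_filter.1 (Finset.mem_coe.1 hp)
    exact Finset.mem_coe.2 (Finset.mem_filter.2 ⟨(mem_paths.1 hp).1 0, h0⟩)

/-- Jensen's inequality for the logarithm -/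
theorem sum_log_le {s : Finset α} (hs : s.Nonempty) (x : α → ℝ) (hx : ∀ a ∈ s, 0 < x a) :
    ∑ a ∈ s, Real.log (x a) ≤ s.card * (Real.log (∑ a ∈ s, x a) - Real.log s.card) := by
  have hc : (0 : ℝ) < s.card := by exact_mod_cast Finset.card_pos.2 hs
  have hS : 0 < ∑ a ∈ s, x a := Finset.sum_pos hx hs
  obtain ⟨L, hL⟩ : ∃ L, L = Real.log (∑ a ∈ s, x a) - Real.log s.card := ⟨_, rfl⟩
  rw [← hL]
  have h1 : ∀ a ∈ s, Real.log (x a) ≤ L + (x a * (s.card / ∑ a ∈ s, x a) - 1) := by
    intro a ha
    have h2 : 0 < x a * (s.card / ∑ a ∈ s, x a) := mul_pos (hx a ha) (div_pos hc hS)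
    have h3 := Real.log_le_sub_one_of_pos h2
    rw [Real.log_mul (hx a ha).ne' (div_pos hc hS).ne', Real.log_div hc.ne' hS.ne'] at h3
    linarith
  have h2 := Finset.sum_le_sum h1
  rw [Finset.sum_add_distrib, Finset.sum_sub_distrib, ← Finset.sum_mul, Finset.sum_const,
    Finset.sum_const, nsmul_eq_mul, nsmul_eq_mul, mul_div_cancel₀ _ hS.ne'] at h2
  linarith

/-- the mean of the logarithms of the sizes of the classes -/
theorem sum_log_class {A : Finset α} (hA : A.Nonempty) (f : α → β) :
    A.card * (Real.log A.card - Real.log (A.image f).card) ≤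
      ∑ a ∈ A, Real.log ((A.filter fun b => f a = f b).card : ℝ) := by
  have hpos : ∀ a ∈ A, (0 : ℝ) < ((A.filter fun b => f a = f b).card : ℝ) := by
    intro a ha
    exact Nat.cast_pos.2 (Finset.card_pos.2 ⟨a, Finset.mem_filter.2 ⟨ha, rfl⟩⟩)
  have h1 := sum_log_le hA (fun a => 1 / ((A.filter fun b => f a = f b).card : ℝ))
    fun a ha => one_div_pos.2 (hpos a ha)
  have h2 : ∑ a ∈ A, 1 / ((A.filter fun b => f a = f b).card : ℝ) = (A.image f).card := by
    have h3 : ∑ a ∈ A, 1 / ((A.filter fun b => f a = f b).card : ℝ) =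
        ∑ c ∈ A.image f, ∑ a ∈ A.filter (fun a => f a = c),
          1 / ((A.filter fun b => f a = f b).card : ℝ) :=
      (Finset.sum_fiberwise_of_maps_to (fun a ha => Finset.mem_image_of_mem f ha) _).symm
    rw [h3]
    have h4 : ∀ c ∈ A.image f, ∑ a ∈ A.filter (fun a => f a = c),
        1 / ((A.filter fun b => f a = f b).card : ℝ) = 1 := by
      intro c hc
      obtain ⟨a₀, ha₀, rfl⟩ := Finset.mem_image.1 hc
      have h5 : ∀ a ∈ A.filter (fun a => f a = f a₀),
          1 / ((A.filter fun b => f a = f b).card : ℝ) =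
          1 / ((A.filter fun a => f a = f a₀).card : ℝ) := by
        intro a ha
        have h6 := (Finset.mem_filter.1 ha).2
        have h7 : (A.filter fun b => f a = f b) = (A.filter fun a => f a = f a₀) := by
          refine Finset.filter_congr fun b _ => ?_
          rw [h6]
          exact eq_comm
        rw [h7]
      rw [Finset.sum_congr rfl h5, Finset.sum_const, nsmul_eq_mul, mul_one_div_cancel]
      have h8 : 0 < (A.filter fun a => f a = f a₀).card :=
        Finset.card_pos.2 ⟨a₀, Finset.mem_filter.2 ⟨ha₀, rfl⟩⟩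
      exact_mod_cast h8.ne'
    rw [Finset.sum_congr rfl h4, Finset.sum_const, nsmul_eq_mul, mul_one]
  rw [h2] at h1
  have h3 : ∑ a ∈ A, Real.log (1 / ((A.filter fun b => f a = f b).card : ℝ)) =
      -∑ a ∈ A, Real.log ((A.filter fun b => f a = f b).card : ℝ) := by
    rw [← Finset.sum_neg_distrib]
    refine Finset.sum_congr rfl fun a _ => ?_
    rw [one_div, Real.log_inv]
  rw [h3] at h1
  linarith

theorem paths_log (A : Finset α) (hA : A.Nonempty) : ∀ (r : ℕ) (f : Fin r → α → β),
    (∀ a ∈ A, 0 < ((Paths A r f).filter fun p => p 0 = a).card) ∧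
    A.card * (r * Real.log A.card - ∑ j, Real.log ((A.image (f j)).card : ℝ)) ≤
      ∑ a ∈ A, Real.log (((Paths A r f).filter fun p => p 0 = a).card : ℝ) := by
  intro r
  induction r with
  | zero =>
    intro f
    have hpos : ∀ a ∈ A, 0 < ((Paths A 0 f).filter fun p => p 0 = a).card := by
      intro a ha
      refine Finset.card_pos.2 ⟨fun _ => a, Finset.mem_filter.2 ⟨mem_paths.2 ⟨fun _ => ha, ?_⟩, rfl⟩⟩
      exact fun j => Fin.elim0 j
    refine ⟨hpos, ?_⟩
    simp only [Nat.cast_zero, zero_mul, Finset.univ_eq_empty, Finset.sum_empty, sub_zero, mul_zero]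
    exact Finset.sum_nonneg fun a _ => Real.log_natCast_nonneg _
  | succ r ih =>
    intro f
    obtain ⟨ih1, ih2⟩ := ih fun j => f j.succ
    obtain ⟨N, hN⟩ : ∃ N : α → ℕ, N = fun a =>
      ((Paths A r fun j => f j.succ).filter fun p => p 0 = a).card := ⟨_, rfl⟩
    have hN' : ∀ a, ((Paths A r fun j => f j.succ).filter fun p => p 0 = a).card = N a := by
      intro a
      rw [hN]
    simp only [hN'] at ih1 ih2
    have hne : ∀ a ∈ A, (A.filter fun b => f 0 a = f 0 b).Nonempty := fun a ha =>
      ⟨a, Finset.mem_filter.2 ⟨ha, rfl⟩⟩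
    have hrec : ∀ a ∈ A, ((Paths A (r + 1) f).filter fun p => p 0 = a).card =
        ∑ b ∈ A.filter (fun b => f 0 a = f 0 b), N b := by
      intro a ha
      rw [paths_cons A r f ha]
      exact Finset.sum_congr rfl fun b _ => hN' b
    refine ⟨fun a ha => ?_, ?_⟩
    · rw [hrec a ha]
      exact Finset.sum_pos (fun b hb => ih1 b (Finset.mem_filter.1 hb).1) (hne a ha)
    · have h1 : ∀ a ∈ A, Real.log ((A.filter fun b => f 0 a = f 0 b).card : ℝ) +
          1 / ((A.filter fun b => f 0 a = f 0 b).card : ℝ) *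
          ∑ b ∈ A.filter (fun b => f 0 a = f 0 b), Real.log (N b : ℝ) ≤
          Real.log (((Paths A (r + 1) f).filter fun p => p 0 = a).card : ℝ) := by
        intro a ha
        rw [hrec a ha]
        push_cast
        have h2 := sum_log_le (hne a ha) (fun b => (N b : ℝ)) fun b hb => by
          exact_mod_cast ih1 b (Finset.mem_filter.1 hb).1
        have hc : (0 : ℝ) < ((A.filter fun b => f 0 a = f 0 b).card : ℝ) :=
          Nat.cast_pos.2 (Finset.card_pos.2 (hne a ha))
        have h3 := mul_le_mul_of_nonneg_left h2 (one_div_pos.2 hc).le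
        rw [← mul_assoc, one_div_mul_cancel hc.ne', one_mul] at h3
        linarith
      have h2 := Finset.sum_le_sum h1
      rw [Finset.sum_add_distrib] at h2
      have h3 : ∑ a ∈ A, 1 / ((A.filter fun b => f 0 a = f 0 b).card : ℝ) *
          ∑ b ∈ A.filter (fun b => f 0 a = f 0 b), Real.log (N b : ℝ) =
          ∑ b ∈ A, Real.log (N b : ℝ) := by
        have h4 : ∑ a ∈ A, 1 / ((A.filter fun b => f 0 a = f 0 b).card : ℝ) *
            ∑ b ∈ A.filter (fun b => f 0 a = f 0 b), Real.log (N b : ℝ) =
            ∑ a ∈ A, ∑ b ∈ A, if f 0 a = f 0 b then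
              1 / ((A.filter fun b => f 0 a = f 0 b).card : ℝ) * Real.log (N b : ℝ) else 0 := by
          refine Finset.sum_congr rfl fun a _ => ?_
          rw [Finset.mul_sum, Finset.sum_filter]
        rw [h4, Finset.sum_comm]
        refine Finset.sum_congr rfl fun b hb => ?_
        rw [← Finset.sum_filter]
        have h5 : ∀ a ∈ A.filter (fun a => f 0 a = f 0 b),
            1 / ((A.filter fun b => f 0 a = f 0 b).card : ℝ) * Real.log (N b : ℝ) =
            1 / ((A.filter fun a => f 0 a = f 0 b).card : ℝ) * Real.log (N b : ℝ) := by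
          intro a ha
          have h6 := (Finset.mem_filter.1 ha).2
          have h7 : (A.filter fun b => f 0 a = f 0 b) = (A.filter fun a => f 0 a = f 0 b) := by
            refine Finset.filter_congr fun c _ => ?_
            rw [h6]
            exact eq_comm
          rw [h7]
        rw [Finset.sum_congr rfl h5, Finset.sum_const, nsmul_eq_mul, ← mul_assoc,
          mul_one_div_cancel, one_mul]
        have h8 : 0 < (A.filter fun a => f 0 a = f 0 b).card :=
          Finset.card_pos.2 ⟨b, Finset.mem_filter.2 ⟨hb, rfl⟩⟩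
        exact_mod_cast h8.ne'
      rw [h3] at h2
      have h4 := sum_log_class hA (f 0)
      rw [Fin.sum_univ_succ]
      push_cast
      linarith

/-- **The number of paths.** -/
theorem paths_card (A : Finset α) (hA : A.Nonempty) (r : ℕ) (f : Fin r → α → β) :
    (A.card : ℝ) ^ (r + 1) ≤ (Paths A r f).card * ∏ j, ((A.image (f j)).card : ℝ) := by
  obtain ⟨h1, h2⟩ := paths_log A hA r f
  have hA0 : (0 : ℝ) < A.card := by exact_mod_cast Finset.card_pos.2 hA
  have h3 := sum_log_le hA (fun a => (((Paths A r f).filter fun p => p 0 = a).card : ℝ))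
    fun a ha => by exact_mod_cast h1 a ha
  have h4 : ∑ a ∈ A, (((Paths A r f).filter fun p => p 0 = a).card : ℝ) = (Paths A r f).card := by
    have h5 : (Paths A r f).card = ∑ a ∈ A, ((Paths A r f).filter fun p => p 0 = a).card :=
      Finset.card_eq_sum_card_fiberwise fun p hp =>
        Finset.mem_coe.2 ((mem_paths.1 (Finset.mem_coe.1 hp)).1 0)
    rw [h5]
    push_cast
    rfl
  rw [h4] at h3
  have h5 := le_of_mul_le_mul_left (h2.trans h3) hA0
  have hP : (0 : ℝ) < (Paths A r f).card := by
    obtain ⟨a, ha⟩ := hA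
    have := h1 a ha
    have h6 := Finset.card_le_card (Finset.filter_subset (fun p : Fin (r + 1) → α => p 0 = a)
      (Paths A r f))
    exact_mod_cast (by omega : 0 < (Paths A r f).card)
  have hm : ∀ j, (0 : ℝ) < ((A.image (f j)).card : ℝ) := fun j => by
    exact_mod_cast Finset.card_pos.2 (hA.image _)
  rw [← Real.log_le_log_iff (by positivity) (mul_pos hP (Finset.prod_pos fun j _ => hm j)),
    Real.log_pow, Real.log_mul hP.ne' (Finset.prod_pos fun j _ => hm j).ne',
    Real.log_prod fun j _ => (hm j).ne']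
  push_cast
  linarith

end paths

end Pool.Agent.V7H23.AK
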