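import Pool.Agent.V7H23.AK.Wpath

set_option autoImplicit false

/-!
# Shearer's inequality for the means of the logarithms of the sizes of classes
-/

open Finset

namespace Pool.Agent.V7H23.AK

section shear

variable {γ R P X : Type*} [DecidableEq R] [DecidableEq P] [DecidableEq X]

/-- the number of elements of `D` with the same value of `f` as `d` -/
def cls (D : Finset γ) {R : Type*} [DecidableEq R] (f : γ → R) (d : γ) : ℕ :=
  (D.filter fun e => f d = f e).card

theorem cls_pos {D : Finset γ} {R : Type*} [DecidableEq R] (f : γ → R) {d : γ} (hd : d ∈ D) :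
    0 < cls D f d := Finset.card_pos.2 ⟨d, Finset.mem_filter.2 ⟨hd, rfl⟩⟩

theorem cls_posR {D : Finset γ} {R : Type*} [DecidableEq R] (f : γ → R) {d : γ} (hd : d ∈ D) :
    (0 : ℝ) < cls D f d := Nat.cast_pos.2 (cls_pos f hd)

theorem cls_congr {D : Finset γ} {R : Type*} [DecidableEq R] (f : γ → R) {d e : γ}
    (h : f d = f e) : cls D f d = cls D f e := by
  unfold cls
  rw [h]

/-- the sum of the inverses of the sizes over a class is at most `1` -/
theorem sum_inv_cls (D : Finset γ) {R : Type*} [DecidableEq R] (f : γ → R) (y : R) :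
    ∑ d ∈ D.filter (fun d => f d = y), (1 : ℝ) / cls D f d ≤ 1 := by
  rcases (D.filter (fun d => f d = y)).eq_empty_or_nonempty with h | ⟨d₀, hd₀⟩
  · rw [h, Finset.sum_empty]
    exact zero_le_one
  · have h1 : ∀ d ∈ D.filter (fun d => f d = y), (1 : ℝ) / cls D f d =
        1 / ((D.filter fun d => f d = y).card : ℝ) := by
      intro d hd
      have h2 := (Finset.mem_filter.1 hd).2
      unfold cls
      rw [h2]
      have h3 : (D.filter fun e => y = f e) = D.filter fun d => f d = y :=
        Finset.filter_congr fun e _ => eq_comm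
      rw [h3]
    rw [Finset.sum_congr rfl h1, Finset.sum_const, nsmul_eq_mul, mul_one_div_cancel]
    exact_mod_cast (Finset.card_pos.2 ⟨d₀, hd₀⟩).ne'

/-- submodularity -/
theorem submod (D : Finset γ) (ρ : γ → R) (p : γ → P) (x : γ → X)
    (hp : ∀ d ∈ D, ∀ e ∈ D, ρ d = ρ e → p d = p e) :
    ∑ d ∈ D, (Real.log (cls D ρ d) - Real.log (cls D (fun d => (ρ d, x d)) d)) ≤
      ∑ d ∈ D, (Real.log (cls D p d) - Real.log (cls D (fun d => (p d, x d)) d)) := by
  classical
  rcases D.eq_empty_or_nonempty with rfl | hD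
  · simp
  obtain ⟨q, hq⟩ : ∃ q : γ → ℝ, q = fun d => (cls D ρ d : ℝ) * cls D (fun d => (p d, x d)) d /
    (cls D (fun d => (ρ d, x d)) d * cls D p d) := ⟨_, rfl⟩
  have hqpos : ∀ d ∈ D, 0 < q d := by
    intro d hd
    rw [hq]
    exact div_pos (mul_pos (Nat.cast_pos.2 (cls_pos _ hd)) (Nat.cast_pos.2 (cls_pos _ hd)))
      (mul_pos (Nat.cast_pos.2 (cls_pos _ hd)) (Nat.cast_pos.2 (cls_pos _ hd)))
  have h1 := sum_log_le hD q hqpos
  have hDc : (0 : ℝ) < D.card := by exact_mod_cast Finset.card_pos.2 hD
  have h2 : ∑ d ∈ D, q d ≤ D.card := by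
    have h3 : ∀ d ∈ D, q d = ∑ e ∈ D, if ρ d = ρ e then
        (∑ g ∈ D, if p e = p g ∧ x d = x g then
          (1 : ℝ) / cls D (fun d => (ρ d, x d)) d else 0) / cls D p e else 0 := by
      intro d hd
      rw [← Finset.sum_filter]
      have h4 : ∀ e ∈ D.filter (fun e => ρ d = ρ e),
          (∑ g ∈ D, if p e = p g ∧ x d = x g then
          (1 : ℝ) / cls D (fun d => (ρ d, x d)) d else 0) / cls D p e =
          (cls D (fun d => (p d, x d)) d : ℝ) * (1 / cls D (fun d => (ρ d, x d)) d) /
            cls D p d := by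
        intro e he
        obtain ⟨he1, he2⟩ := Finset.mem_filter.1 he
        have h5 := hp d hd e he1 he2
        rw [← Finset.sum_filter, Finset.sum_const, nsmul_eq_mul, ← h5, cls_congr p h5.symm]
        congr 3
        unfold cls
        congr 1
        ext g
        simp only [Finset.mem_filter, Prod.mk.injEq]
      rw [Finset.sum_congr rfl h4, Finset.sum_const, nsmul_eq_mul, hq]
      have h6 : ((D.filter fun e => ρ d = ρ e).card : ℝ) = cls D ρ d := rfl
      rw [h6]
      rw [mul_one_div, div_div]
      exact mul_div_assoc _ _ _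
    rw [Finset.sum_congr rfl h3, Finset.sum_comm]
    have h9 : ∀ e ∈ D, (∑ d ∈ D, if ρ d = ρ e then
        (∑ g ∈ D, if p e = p g ∧ x d = x g then
          (1 : ℝ) / cls D (fun d => (ρ d, x d)) d else 0) / cls D p e else 0) ≤ 1 := by
      intro e he
      rw [← Finset.sum_filter, ← Finset.sum_div, div_le_one (cls_posR p he), Finset.sum_comm]
      have h10 : ∀ g ∈ D, (∑ d ∈ D.filter (fun d => ρ d = ρ e), if p e = p g ∧ x d = x g then
          (1 : ℝ) / cls D (fun d => (ρ d, x d)) d else 0) ≤ if p e = p g then 1 else 0 := by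
        intro g hg
        by_cases hpg : p e = p g
        · rw [if_pos hpg]
          have h11 := sum_inv_cls D (fun d => (ρ d, x d)) (ρ e, x g)
          refine le_trans (le_of_eq ?_) h11
          rw [← Finset.sum_filter, Finset.filter_filter]
          refine Finset.sum_congr ?_ fun _ _ => rfl
          ext d
          simp only [Finset.mem_filter, Prod.mk.injEq]
          exact ⟨fun h => ⟨h.1, h.2.1, h.2.2.2⟩, fun h => ⟨h.1, h.2.1, hpg, h.2.2⟩⟩
        · rw [if_neg hpg]
          refine (Finset.sum_eq_zero fun d _ => ?_).le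
          rw [if_neg (fun h => hpg h.1)]
      refine (Finset.sum_le_sum h10).trans ?_
      rw [← Finset.sum_filter, Finset.sum_const, nsmul_eq_mul, mul_one]
      exact le_of_eq rfl
    refine (Finset.sum_le_sum h9).trans ?_
    rw [Finset.sum_const, nsmul_eq_mul, mul_one]
  have h12 : ∑ d ∈ D, Real.log (q d) ≤ 0 := by
    refine h1.trans ?_
    have h13 : Real.log (∑ d ∈ D, q d) ≤ Real.log D.card :=
      Real.log_le_log (Finset.sum_pos hqpos hD) h2
    exact mul_nonpos_of_nonneg_of_nonpos hDc.le (by linarith)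
  have h14 : ∑ d ∈ D, Real.log (q d) =
      ∑ d ∈ D, (Real.log (cls D ρ d) - Real.log (cls D (fun d => (ρ d, x d)) d)) -
      ∑ d ∈ D, (Real.log (cls D p d) - Real.log (cls D (fun d => (p d, x d)) d)) := by
    rw [← Finset.sum_sub_distrib]
    refine Finset.sum_congr rfl fun d hd => ?_
    rw [hq]
    have e1 := (cls_posR ρ hd).ne'
    have e2 := (cls_posR (fun d => (ρ d, x d)) hd).ne'
    have e3 := (cls_posR p hd).ne'
    have e4 := (cls_posR (fun d => (p d, x d)) hd).ne'
    rw [Real.log_div (mul_ne_zero e1 e4) (mul_ne_zero e2 e3), Real.log_mul e1 e4,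
      Real.log_mul e2 e3]
    ring
  linarith

end shear

section shearer

variable {W : Type*} [Zero W] [DecidableEq W] {n : ℕ}

/-- the coordinates in `F` -/
def rest (F : Finset (Fin n)) (d : Fin n → W) : Fin n → W := fun i => if i ∈ F then d i else 0

theorem rest_eq_iff {F : Finset (Fin n)} {d e : Fin n → W} :
    rest F d = rest F e ↔ ∀ i ∈ F, d i = e i := by
  constructor
  · intro h i hi
    have := congrFun h i
    unfold rest at this
    rwa [if_pos hi, if_pos hi] at this
  · intro h
    funext i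
    unfold rest
    by_cases hi : i ∈ F
    · rw [if_pos hi, if_pos hi, h i hi]
    · rw [if_neg hi, if_neg hi]

/-- the sum of the logarithms of the sizes of the classes -/
noncomputable def Ent (D : Finset (Fin n → W)) (F : Finset (Fin n)) : ℝ :=
  ∑ d ∈ D, Real.log (cls D (rest F) d)

theorem ent_univ (D : Finset (Fin n → W)) : Ent D univ = 0 := by
  refine Finset.sum_eq_zero fun d hd => ?_
  have h1 : cls D (rest univ) d = 1 := by
    unfold cls
    rw [Finset.card_eq_one]
    refine ⟨d, ?_⟩
    ext e
    rw [Finset.mem_filter, Finset.mem_singleton, rest_eq_iff]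
    constructor
    · rintro ⟨_, h⟩
      exact (funext fun i => h i (mem_univ i)).symm
    · rintro rfl
      exact ⟨hd, fun _ _ => rfl⟩
  rw [h1, Nat.cast_one, Real.log_one]

theorem ent_empty (D : Finset (Fin n → W)) : Ent D ∅ = D.card * Real.log D.card := by
  unfold Ent
  rw [← nsmul_eq_mul, ← Finset.sum_const]
  refine Finset.sum_congr rfl fun d _ => ?_
  congr 2
  unfold cls
  rw [Finset.filter_true_of_mem fun e _ => ?_]
  rw [rest_eq_iff]
  intro i hi
  exact absurd hi (Finset.notMem_empty i)

theorem ent_anti (D : Finset (Fin n → W)) {F F' : Finset (Fin n)} (h : F ⊆ F') :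
    Ent D F' ≤ Ent D F := by
  refine Finset.sum_le_sum fun d hd => ?_
  refine Real.log_le_log (cls_posR _ hd) ?_
  refine Nat.cast_le.2 (Finset.card_le_card fun e he => ?_)
  obtain ⟨h1, h2⟩ := Finset.mem_filter.1 he
  rw [rest_eq_iff] at h2
  exact Finset.mem_filter.2 ⟨h1, rest_eq_iff.2 fun i hi => h2 i (h hi)⟩

theorem cls_insert (D : Finset (Fin n → W)) (F : Finset (Fin n)) (k : Fin n) (d : Fin n → W) :
    cls D (fun d => (rest F d, d k)) d = cls D (rest (insert k F)) d := by
  unfold cls
  congr 1
  refine Finset.filter_congr fun e _ => ?_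
  rw [Prod.mk.injEq, rest_eq_iff, rest_eq_iff, Finset.forall_mem_insert]
  exact and_comm

theorem ent_submod (D : Finset (Fin n → W)) {P F : Finset (Fin n)} (h : P ⊆ F) (k : Fin n) :
    Ent D F - Ent D (insert k F) ≤ Ent D P - Ent D (insert k P) := by
  have h1 := submod D (rest F) (rest P) (fun d => d k) fun d _ e _ hde => by
    rw [rest_eq_iff] at hde ⊢
    exact fun i hi => hde i (h hi)
  rw [Finset.sum_sub_distrib, Finset.sum_sub_distrib] at h1
  simp only [cls_insert] at h1
  exact h1

/-- **Shearer's inequality.** -/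
theorem shearer (D : Finset (Fin n → W)) {T : Type*} (ts : Finset T) (B : T → Finset (Fin n))
    (m : ℝ) (hB : ∀ i, ((ts.filter fun t => i ∈ B t).card : ℝ) ≤ m) :
    ∑ t ∈ ts, Ent D (univ \ B t) ≤ m * (D.card * Real.log D.card) := by
  classical
  obtain ⟨P, hP⟩ : ∃ P : ℕ → Finset (Fin n), P = fun k => univ.filter fun i : Fin n => i.val < k :=
    ⟨_, rfl⟩
  have hmP : ∀ k (i : Fin n), i ∈ P k ↔ i.val < k := by
    intro k i
    rw [hP]
    simp
  have hP0 : P 0 = ∅ := by
    ext i
    simp [hmP]
  have hPn : P n = univ := by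
    ext i
    simp [hmP]
  have hPs : ∀ k : Fin n, P (k.val + 1) = insert k (P k.val) := by
    intro k
    ext i
    rw [hmP, Finset.mem_insert, hmP, Fin.ext_iff]
    omega
  have h1 : ∀ t, Ent D (univ \ B t) ≤
      ∑ k : Fin n, if k ∈ B t then Ent D (P k.val) - Ent D (P (k.val + 1)) else 0 := by
    intro t
    have h2 : Ent D (univ \ B t) = ∑ k ∈ Finset.range n,
        (Ent D (univ \ B t ∪ P k) - Ent D (univ \ B t ∪ P (k + 1))) := by
      rw [Finset.sum_range_sub', hP0, hPn, Finset.union_empty]
      have h3 : univ \ B t ∪ univ = univ := Finset.union_eq_right.2 (Finset.subset_univ _)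
      rw [h3, ent_univ, sub_zero]
    rw [h2, Finset.sum_range]
    refine Finset.sum_le_sum fun k _ => ?_
    rw [hPs k, Finset.union_insert]
    by_cases hk : k ∈ B t
    · rw [if_pos hk]
      exact ent_submod D Finset.subset_union_right k
    · rw [if_neg hk]
      have h4 : insert k (univ \ B t ∪ P k.val) = univ \ B t ∪ P k.val := by
        refine Finset.insert_eq_self.2 (Finset.mem_union_left _ ?_)
        exact Finset.mem_sdiff.2 ⟨mem_univ k, hk⟩
      rw [h4, sub_self]
  refine (Finset.sum_le_sum fun t _ => h1 t).trans ?_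
  rw [Finset.sum_comm]
  have h5 : ∀ k : Fin n, (∑ t ∈ ts, if k ∈ B t then
      Ent D (P k.val) - Ent D (P (k.val + 1)) else 0) ≤
      m * (Ent D (P k.val) - Ent D (P (k.val + 1))) := by
    intro k
    rw [← Finset.sum_filter, Finset.sum_const, nsmul_eq_mul]
    refine mul_le_mul_of_nonneg_right (hB k) ?_
    have h6 : P k.val ⊆ P (k.val + 1) := by
      rw [hPs k]
      exact Finset.subset_insert _ _
    linarith [ent_anti D h6]
  refine (Finset.sum_le_sum fun k _ => h5 k).trans ?_
  rw [← Finset.mul_sum, ← Finset.sum_range (fun k => Ent D (P k) - Ent D (P (k + 1))),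
    Finset.sum_range_sub', hP0, hPn, ent_univ, ent_empty, sub_zero]

end shearer

end Pool.Agent.V7H23.AK
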