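import Pool.Agent.V7H23.AK.Digit
import Pool.Agent.V7H23.AK.Shear

set_option autoImplicit false

/-!
# Few differences in every coordinate
-/

open Finset

namespace Pool.Agent.V7H23.AK

section inj

variable {V : Type*} [AddCommGroup V] [Module ℚ V] [DecidableEq V]

/-- a path is determined by its end points and its differences -/
theorem path_inj {r : ℕ} {A : Finset (V × V)} (h : Fin (r + 1) → ℚ)
    {p q : Fin (r + 1 + 1) → V × V} (hp : p ∈ Paths A (r + 1) fun j => pr (h j))
    (hq : q ∈ Paths A (r + 1) fun j => pr (h j)) (h0 : p 0 = q 0)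
    (hl : p (Fin.last (r + 1)) = q (Fin.last (r + 1)))
    (hD : ∀ j : Fin r, (p (Fin.castSucc (Fin.succ j))).1 - (p (Fin.castSucc (Fin.succ j))).2 =
      (q (Fin.castSucc (Fin.succ j))).1 - (q (Fin.castSucc (Fin.succ j))).2) : p = q := by
  obtain ⟨_, hp4⟩ := mem_paths.1 hp
  obtain ⟨_, hq4⟩ := mem_paths.1 hq
  have key : ∀ i : Fin (r + 1 + 1), p i = q i := by
    intro i
    induction i using Fin.induction with
    | zero => exact h0
    | succ j ih =>
      induction j using Fin.lastCases with
      | last =>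
        rw [Fin.succ_last]
        exact hl
      | cast j =>
        have e1 : pr (h j.castSucc) (p j.castSucc.succ) =
            pr (h j.castSucc) (q j.castSucc.succ) := by
          rw [← hp4 j.castSucc, ← hq4 j.castSucc, ih]
        have e2 := hD j
        rw [← Fin.succ_castSucc] at e2
        unfold pr at e1
        rw [e2] at e1
        have e3 := add_right_cancel e1
        have e4 : (p j.castSucc.succ).1 = (q j.castSucc.succ).1 := by
          rw [e3] at e2
          exact sub_left_injective e2
        exact Prod.ext e4 e3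
  exact funext key

end inj

section ent

variable {W : Type*} [AddCommGroup W] [Module ℚ W] [DecidableEq W] {n : ℕ}

/-- the representations with the coefficients `h j - h (j + 1)` and values in `P` are unique -/
def Good {r : ℕ} (h : Fin (r + 1) → ℚ) (P : Finset W) : Prop :=
  ∀ e e' : Fin r → W, (∀ j, e j ∈ P) → (∀ j, e' j ∈ P) →
    ∑ j, (h j.castSucc - h j.succ) • e j = ∑ j, (h j.castSucc - h j.succ) • e' j → e = e'

theorem ent_bound {r : ℕ} (h : Fin (r + 1) → ℚ) (A : Finset ((Fin n → W) × (Fin n → W)))
    (hA : A.Nonempty) (hinj : ∀ a ∈ A, ∀ b ∈ A, a.1 - a.2 = b.1 - b.2 → a = b)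
    (P : Fin n → Finset W) (hP : ∀ a ∈ A, ∀ i, a.1 i - a.2 i ∈ P i) (B : Finset (Fin n))
    (hB : ∀ i, i ∉ B → Good h (P i)) :
    A.card * (r * Real.log A.card - ∑ j, Real.log ((A.image (pr (h j))).card : ℝ)) ≤
      r * Ent (A.image fun a => a.1 - a.2) (univ \ B) := by
  classical
  obtain ⟨D, hD⟩ : ∃ D : Finset (Fin n → W), D = A.image fun a => a.1 - a.2 := ⟨_, rfl⟩
  obtain ⟨F, hF⟩ : ∃ F : Finset (Fin n), F = univ \ B := ⟨_, rfl⟩
  rw [← hD, ← hF]
  have hmem : ∀ a ∈ A, a.1 - a.2 ∈ D := fun a ha => hD ▸ Finset.mem_image.2 ⟨a, ha, rfl⟩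
  obtain ⟨w, hw⟩ : ∃ w : (Fin n → W) → ℝ, w = fun d => 1 / (cls D (rest F) d : ℝ) := ⟨_, rfl⟩
  have hwpos : ∀ d ∈ D, 0 < w d := by
    intro d hd
    rw [hw]
    exact one_div_pos.2 (cls_posR _ hd)
  obtain ⟨v, hv⟩ : ∃ v : Fin (r + 1) → (Fin n → W) × (Fin n → W) → ℝ,
    v = fun j a => if j = Fin.last r then 1 else w (a.1 - a.2) := ⟨_, rfl⟩
  have hvl : ∀ a, v (Fin.last r) a = 1 := by
    intro a
    rw [hv]
    exact if_pos rfl
  have hvc : ∀ (j : Fin r) a, v j.castSucc a = w (a.1 - a.2) := by
    intro j a
    rw [hv]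
    exact if_neg (Fin.castSucc_lt_last j).ne
  have hvpos : ∀ j, ∀ a ∈ A, 0 < v j a := by
    intro j a ha
    refine Fin.lastCases ?_ (fun j => ?_) j
    · rw [hvl]
      exact one_pos
    · rw [hvc]
      exact hwpos _ (hmem a ha)
  obtain ⟨hpos, hlog⟩ := wsum_log A hA (r + 1) (fun j => pr (h j)) v hvpos
  have hA0 : (0 : ℝ) < A.card := by exact_mod_cast Finset.card_pos.2 hA
  -- the total weight
  have htot : ∑ a ∈ A, wsum A (r + 1) (fun j => pr (h j)) v a ≤ (A.card : ℝ) ^ 2 := by
    have h1 : ∑ a ∈ A, wsum A (r + 1) (fun j => pr (h j)) v a =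
        ∑ p ∈ Paths A (r + 1) (fun j => pr (h j)), ∏ j, v j (p j.succ) := by
      unfold wsum
      exact Finset.sum_fiberwise_of_maps_to (g := fun p : Fin (r + 1 + 1) → _ => p 0)
        (fun p hp => (mem_paths.1 hp).1 0) _
    have h2 : ∑ p ∈ Paths A (r + 1) (fun j => pr (h j)), ∏ j, v j (p j.succ) =
        ∑ y ∈ A ×ˢ A, ∑ p ∈ (Paths A (r + 1) (fun j => pr (h j))).filter
          (fun p => (p 0, p (Fin.last (r + 1))) = y), ∏ j, v j (p j.succ) :=
      (Finset.sum_fiberwise_of_maps_to
        (fun p hp => Finset.mem_product.2 ⟨(mem_paths.1 hp).1 _, (mem_paths.1 hp).1 _⟩) _).symm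
    rw [h1, h2]
    have h3 : ∀ y ∈ A ×ˢ A, ∑ p ∈ (Paths A (r + 1) (fun j => pr (h j))).filter
          (fun p => (p 0, p (Fin.last (r + 1))) = y), ∏ j, v j (p j.succ) ≤ 1 := by
      intro y _
      rcases ((Paths A (r + 1) (fun j => pr (h j))).filter
          (fun p => (p 0, p (Fin.last (r + 1))) = y)).eq_empty_or_nonempty with he | ⟨p₀, hp₀⟩
      · rw [he, Finset.sum_empty]
        exact zero_le_one
      · obtain ⟨hp₀1, hp₀2⟩ := Finset.mem_filter.1 hp₀
        obtain ⟨δ, hδ⟩ : ∃ δ : (Fin (r + 1 + 1) → (Fin n → W) × (Fin n → W)) → Fin r → Fin n → W,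
          δ = fun p j => (p (Fin.castSucc (Fin.succ j))).1 - (p (Fin.castSucc (Fin.succ j))).2 :=
          ⟨_, rfl⟩
        have h4 : ∀ p, ∏ j, v j (p j.succ) = ∏ j : Fin r, w (δ p j) := by
          intro p
          rw [Fin.prod_univ_castSucc, hvl, mul_one]
          refine Finset.prod_congr rfl fun j _ => ?_
          rw [hvc, Fin.succ_castSucc, hδ]
        have h5 : ∀ p ∈ (Paths A (r + 1) (fun j => pr (h j))).filter
            (fun p => (p 0, p (Fin.last (r + 1))) = y), ∀ j, rest F (δ p j) = rest F (δ p₀ j) := by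
          intro p hp j
          obtain ⟨hp1, hp2⟩ := Finset.mem_filter.1 hp
          have h6 := telescope h p (mem_paths.1 hp1).2
          have h7 := telescope h p₀ (mem_paths.1 hp₀1).2
          have h8 := Prod.ext_iff.1 (hp2.trans hp₀2.symm)
          have h9 : p 0 = p₀ 0 := h8.1
          have h10 : p (Fin.last (r + 1)) = p₀ (Fin.last (r + 1)) := h8.2
          rw [h9, h10, ← h7] at h6
          rw [rest_eq_iff]
          intro i hi
          have hiB : i ∉ B := by
            rw [hF] at hi
            exact (Finset.mem_sdiff.1 hi).2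
          have h11 := hB i hiB (fun j => δ p j i) (fun j => δ p₀ j i)
            (fun j => by
              rw [hδ]
              exact hP _ ((mem_paths.1 hp1).1 _) i)
            (fun j => by
              rw [hδ]
              exact hP _ ((mem_paths.1 hp₀1).1 _) i)
            (by
              have h12 := congrFun h6 i
              rw [Finset.sum_apply, Finset.sum_apply] at h12
              rw [hδ]
              exact h12)
          exact congrFun h11 j
        rw [Finset.sum_congr rfl fun p _ => h4 p]
        have hinj2 : Set.InjOn δ ((Paths A (r + 1) (fun j => pr (h j))).filter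
            (fun p => (p 0, p (Fin.last (r + 1))) = y)) := by
          intro p hp q hq hpq
          obtain ⟨hp1, hp2⟩ := Finset.mem_filter.1 (Finset.mem_coe.1 hp)
          obtain ⟨hq1, hq2⟩ := Finset.mem_filter.1 (Finset.mem_coe.1 hq)
          have h8 := Prod.ext_iff.1 (hp2.trans hq2.symm)
          refine path_inj h hp1 hq1 h8.1 h8.2 fun j => ?_
          have := congrFun hpq j
          rw [hδ] at this
          exact this
        rw [← Finset.sum_image (f := fun e : Fin r → Fin n → W => ∏ j : Fin r, w (e j)) hinj2]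
        have h13 : ((Paths A (r + 1) (fun j => pr (h j))).filter
            (fun p => (p 0, p (Fin.last (r + 1))) = y)).image δ ⊆
            Fintype.piFinset fun j => D.filter fun d => rest F d = rest F (δ p₀ j) := by
          intro e he
          obtain ⟨p, hp, rfl⟩ := Finset.mem_image.1 he
          rw [Fintype.mem_piFinset]
          intro j
          refine Finset.mem_filter.2 ⟨?_, h5 p hp j⟩
          rw [hδ]
          exact hmem _ ((mem_paths.1 (Finset.mem_filter.1 hp).1).1 _)
        refine (Finset.sum_le_sum_of_subset_of_nonneg h13 fun e he _ => ?_).trans ?_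
        · refine Finset.prod_nonneg fun j _ => ?_
          rw [Fintype.mem_piFinset] at he
          exact (hwpos _ (Finset.mem_filter.1 (he j)).1).le
        · rw [← Finset.prod_univ_sum]
          refine Finset.prod_le_one (fun j _ => ?_) fun j _ => ?_
          · exact Finset.sum_nonneg fun d hd => (hwpos _ (Finset.mem_filter.1 hd).1).le
          · rw [hw]
            exact sum_inv_cls D (rest F) _
    refine (Finset.sum_le_sum h3).trans ?_
    rw [Finset.sum_const, nsmul_eq_mul, mul_one, Finset.card_product, sq]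
    push_cast
    exact le_rfl
  have hsum := sum_log_le hA (fun a => wsum A (r + 1) (fun j => pr (h j)) v a) hpos
  have h20 : Real.log (∑ a ∈ A, wsum A (r + 1) (fun j => pr (h j)) v a) ≤ 2 * Real.log A.card := by
    have := Real.log_le_log (Finset.sum_pos hpos hA) htot
    rwa [Real.log_pow] at this
  have h21 : ∑ j, ∑ a ∈ A, Real.log (v j a) = -(r * Ent D F) := by
    rw [Fin.sum_univ_castSucc]
    have h22 : ∑ a ∈ A, Real.log (v (Fin.last r) a) = 0 :=
      Finset.sum_eq_zero fun a _ => by rw [hvl, Real.log_one]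
    have h23 : ∀ j : Fin r, ∑ a ∈ A, Real.log (v j.castSucc a) = -Ent D F := by
      intro j
      unfold Ent
      rw [hD, Finset.sum_image fun a ha b hb hab => hinj a ha b hb hab, ← hD,
        ← Finset.sum_neg_distrib]
      refine Finset.sum_congr rfl fun a _ => ?_
      rw [hvc, hw]
      show Real.log (1 / _) = _
      rw [one_div, Real.log_inv]
    rw [h22, Finset.sum_congr rfl fun j _ => h23 j, Finset.sum_const, nsmul_eq_mul, Finset.card_univ,
      Fintype.card_fin, add_zero]
    ring
  rw [h21] at hlog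
  push_cast at hlog
  have h24 : (A.card : ℝ) * (Real.log (∑ a ∈ A, wsum A (r + 1) (fun j => pr (h j)) v a) -
      Real.log A.card) ≤ A.card * Real.log A.card :=
    mul_le_mul_of_nonneg_left (by linarith) hA0.le
  have h25 : (A.card : ℝ) * (r * Real.log A.card -
      ∑ j, Real.log ((A.image (pr (h j))).card : ℝ)) =
      A.card * ((r + 1) * Real.log A.card -
      ∑ j, Real.log ((A.image (pr (h j))).card : ℝ)) - A.card * Real.log A.card := by ring
  rw [h25]
  linarith

/-- few tuples of slopes satisfy a relation -/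
theorem card_rel {r : ℕ} (H : Finset ℚ) (u : Fin r → W) (hu : u ≠ 0) :
    ((Fintype.piFinset fun _ : Fin (r + 1) => H).filter fun h =>
      ∑ j : Fin r, (h j.castSucc - h j.succ) • u j = 0).card ≤ H.card ^ r := by
  classical
  obtain ⟨j₀, hj₀, hmin⟩ := wellFounded_lt.has_min {j : Fin r | u j ≠ 0} (by
    by_contra hcon
    rw [Set.not_nonempty_iff_eq_empty] at hcon
    refine hu (funext fun j => ?_)
    by_contra hj
    exact (Set.eq_empty_iff_forall_notMem.1 hcon j) hj)
  have hmin' : ∀ j, j < j₀ → u j = 0 := by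
    intro j hj
    by_contra hne
    exact hmin j hne hj
  have h1 : (Fintype.piFinset fun _ : Fin r => H).card = H.card ^ r := by
    rw [Fintype.card_piFinset, Finset.prod_const, Finset.card_univ, Fintype.card_fin]
  rw [← h1]
  refine Finset.card_le_card_of_injOn (fun h k => h (j₀.castSucc.succAbove k)) ?_ ?_
  · intro h hh
    have h2 := Fintype.mem_piFinset.1 (Finset.mem_filter.1 (Finset.mem_coe.1 hh)).1
    exact Finset.mem_coe.2 (Fintype.mem_piFinset.2 fun k => h2 _)
  · intro h hh g hg hhg
    have h2 := (Finset.mem_filter.1 (Finset.mem_coe.1 hh)).2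
    have h3 := (Finset.mem_filter.1 (Finset.mem_coe.1 hg)).2
    have hoff : ∀ i : Fin (r + 1), i ≠ j₀.castSucc → h i = g i := by
      intro i hi
      obtain ⟨k, rfl⟩ := Fin.exists_succAbove_eq hi
      exact congrFun hhg k
    have h4 : ∑ j : Fin r, ((h j.castSucc - g j.castSucc) - (h j.succ - g j.succ)) • u j = 0 := by
      have h5 : ∑ j : Fin r, ((h j.castSucc - g j.castSucc) - (h j.succ - g j.succ)) • u j =
          ∑ j : Fin r, (h j.castSucc - h j.succ) • u j -
          ∑ j : Fin r, (g j.castSucc - g j.succ) • u j := by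
        rw [← Finset.sum_sub_distrib]
        refine Finset.sum_congr rfl fun j _ => ?_
        rw [← sub_smul]
        congr 1
        ring
      rw [h5, h2, h3, sub_zero]
    rw [Finset.sum_eq_single j₀ (fun j _ hj => ?_) (fun hn => absurd (mem_univ _) hn)] at h4
    · have h6 : h j₀.succ = g j₀.succ := by
        refine hoff _ fun hcon => ?_
        have := congrArg Fin.val hcon
        simp at this
      rw [h6, sub_self, sub_zero] at h4
      have h7 : h j₀.castSucc - g j₀.castSucc = 0 := (smul_eq_zero.1 h4).resolve_right hj₀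
      funext i
      by_cases hi : i = j₀.castSucc
      · rw [hi]
        exact sub_eq_zero.1 h7
      · exact hoff i hi
    · have h8 : h j.castSucc = g j.castSucc :=
        hoff _ fun hcon => hj (Fin.castSucc_injective _ hcon)
      rcases lt_trichotomy j j₀ with hlt | heq | hgt
      · rw [hmin' j hlt, smul_zero]
      · exact absurd heq hj
      · have h9 : h j.succ = g j.succ := by
          refine hoff _ fun hcon => ?_
          have h10 := congrArg Fin.val hcon
          have h11 : j₀.val < j.val := hgt
          simp at h10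
          omega
        rw [h8, h9, sub_self, sub_self, sub_zero, zero_smul]

/-- few tuples of slopes are bad -/
theorem card_bad {r M : ℕ} (H : Finset ℚ) (P : Finset W) (hP : P.card ≤ M)
    [DecidablePred fun h : Fin (r + 1) → ℚ => ¬ Good h P] :
    ((Fintype.piFinset fun _ : Fin (r + 1) => H).filter fun h => ¬ Good h P).card ≤
      M ^ (2 * r) * H.card ^ r := by
  classical
  obtain ⟨E, hE⟩ : ∃ E : Finset (Fin r → W), E = Fintype.piFinset fun _ => P := ⟨_, rfl⟩
  have hEc : (E ×ˢ E).card ≤ M ^ (2 * r) := by
    rw [Finset.card_product, hE, Fintype.card_piFinset, Finset.prod_const, Finset.card_univ,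
      Fintype.card_fin, ← pow_add, ← two_mul]
    exact Nat.pow_le_pow_left hP _
  have hsub : ((Fintype.piFinset fun _ : Fin (r + 1) => H).filter fun h => ¬ Good h P) ⊆
      ((E ×ˢ E).filter fun x => x.1 ≠ x.2).biUnion fun x =>
        (Fintype.piFinset fun _ : Fin (r + 1) => H).filter fun h =>
          ∑ j : Fin r, (h j.castSucc - h j.succ) • (x.1 - x.2) j = 0 := by
    intro h hh
    obtain ⟨h1, h2⟩ := Finset.mem_filter.1 hh
    unfold Good at h2
    push Not at h2
    obtain ⟨e, e', he, he', heq, hne⟩ := h2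
    refine Finset.mem_biUnion.2 ⟨(e, e'), Finset.mem_filter.2 ⟨Finset.mem_product.2 ⟨?_, ?_⟩, hne⟩,
      Finset.mem_filter.2 ⟨h1, ?_⟩⟩
    · rw [hE]
      exact Fintype.mem_piFinset.2 he
    · rw [hE]
      exact Fintype.mem_piFinset.2 he'
    · have h3 : ∀ j : Fin r, (h j.castSucc - h j.succ) • (e - e') j =
          (h j.castSucc - h j.succ) • e j - (h j.castSucc - h j.succ) • e' j := by
        intro j
        rw [Pi.sub_apply, smul_sub]
      show ∑ j : Fin r, (h j.castSucc - h j.succ) • (e - e') j = 0
      rw [Finset.sum_congr rfl fun j _ => h3 j, Finset.sum_sub_distrib, heq, sub_self]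
  refine (Finset.card_le_card hsub).trans (Finset.card_biUnion_le.trans ?_)
  refine (Finset.sum_le_sum fun x hx => card_rel H (x.1 - x.2)
    (sub_ne_zero.2 (Finset.mem_filter.1 hx).2)).trans ?_
  rw [Finset.sum_const, smul_eq_mul]
  exact Nat.mul_le_mul_right _ ((Finset.card_le_card (Finset.filter_subset _ _)).trans hEc)

end ent

end Pool.Agent.V7H23.AK
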