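import Pool.Agent.V7H23.AK.Node

set_option autoImplicit false

/-!
# The projections of trees with labels in the plane
-/

open Finset

namespace Pool.Agent.V7H23.AK

/-- `val ∞ (x, y) = y` and `val r (x, y) = x + r y`; the slope `∞` is `none` -/
def val (t : Option ℚ) (z : ℤ × ℤ) : ℚ := t.elim (z.2 : ℚ) fun r => (z.1 : ℚ) + r * (z.2 : ℚ)

/-- Two different projections determine a point. -/
theorem val_inj {t t' : Option ℚ} (h : t ≠ t') {p q : ℤ × ℤ} (h1 : val t p = val t q)
    (h2 : val t' p = val t' q) : p = q := by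
  have key : ∀ a b c d : ℤ, (a : ℚ) = b → (c : ℚ) = d → a = b ∧ c = d := by
    intro a b c d h h'
    exact ⟨by exact_mod_cast h, by exact_mod_cast h'⟩
  rcases t with _ | r <;> rcases t' with _ | r'
  · exact absurd rfl h
  · simp only [val, Option.elim_none, Option.elim_some] at h1 h2
    have h3 : (p.1 : ℚ) = q.1 := by rw [h1] at h2; linarith
    obtain ⟨h4, h5⟩ := key _ _ _ _ h3 h1
    exact Prod.ext h4 h5
  · simp only [val, Option.elim_none, Option.elim_some] at h1 h2
    have h3 : (p.1 : ℚ) = q.1 := by rw [h2] at h1; linarith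
    obtain ⟨h4, h5⟩ := key _ _ _ _ h3 h2
    exact Prod.ext h4 h5
  · simp only [val, Option.elim_some] at h1 h2
    have hr : r - r' ≠ 0 := by
      intro h0
      apply h
      rw [show r = r' by linarith]
    have h3 : (r - r') * ((p.2 : ℚ) - q.2) = 0 := by linear_combination h1 - h2
    have h4 : (p.2 : ℚ) = q.2 := by
      rcases mul_eq_zero.1 h3 with h | h
      · exact absurd h hr
      · linarith
    have h5 : (p.1 : ℚ) = q.1 := by rw [h4] at h1; linarith
    obtain ⟨h6, h7⟩ := key _ _ _ _ h5 h4
    exact Prod.ext h6 h7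

/-- the projection of a labelled tree -/
abbrev pj (t : Option ℚ) (D : List Level) (z : Tr (ℤ × ℤ) D) : Tr ℚ D := Tr.map (val t) D z

open Classical in
/-- the slopes of `T` for which the projections of `z`, `z'` are rearrangements of each other -/
noncomputable def merge (T : Finset (Option ℚ)) (D : List Level) (z z' : Tr (ℤ × ℤ) D) :
    Finset (Option ℚ) := T.filter fun t => Same D (pj t D z) (pj t D z')

theorem merge_symm (T : Finset (Option ℚ)) (D : List Level) (z z' : Tr (ℤ × ℤ) D) :
    merge T D z z' = merge T D z' z := by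
  classical
  unfold merge
  exact Finset.filter_congr fun t _ => ⟨Same.symm, Same.symm⟩

/-- Two different projections determine a tree. -/
theorem pj_inj {t t' : Option ℚ} (h : t ≠ t') : ∀ (D : List Level) (z z' : Tr (ℤ × ℤ) D),
    pj t D z = pj t D z' → pj t' D z = pj t' D z' → z = z'
  | [], _, _, h1, h2 => val_inj h h1 h2
  | _ :: D, z, z', h1, h2 => funext fun i =>
      pj_inj h D (z i) (z' i) (congrFun h1 i) (congrFun h2 i)

/-- **The number of slopes for which two different trees have the same projection.** -/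
theorem merge_le (T : Finset (Option ℚ)) (D : List Level) (z z' : Tr (ℤ × ℤ) D)
    (hz : ¬ Same D z z') : (merge T D z z').card ≤ cnt D z := by
  classical
  have h : ∀ t, ∃ w, t ∈ merge T D z z' → Same D z w ∧ pj t D w = pj t D z' := by
    intro t
    by_cases ht : t ∈ merge T D z z'
    · obtain ⟨w, h1, h2⟩ := Same.lift (val t) (Finset.mem_filter.1 ht).2
      exact ⟨w, fun _ => ⟨h1, h2⟩⟩
    · exact ⟨z, fun h => absurd h ht⟩
  choose w hw using h
  rw [cnt_eq]
  refine Finset.card_le_card_of_injOn w (fun t ht => mem_orb.2 (hw t ht).1) ?_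
  intro t ht t' ht' heq
  by_contra hne
  have h1 := (hw t ht).2
  have h2 := (hw t' ht').2
  rw [← heq] at h2
  have h3 := pj_inj hne D _ _ h1 h2
  apply hz
  rw [← h3]
  exact (hw t ht).1

theorem merge_le' (T : Finset (Option ℚ)) (D : List Level) (z z' : Tr (ℤ × ℤ) D)
    (hz : ¬ Same D z z') {B : ℝ} (hB : W D z ≤ B) :
    ((merge T D z z').card : ℝ) ≤ (2 : ℝ) ^ B := by
  have h1 : ((merge T D z z').card : ℝ) ≤ cnt D z := by exact_mod_cast merge_le T D z z' hz
  have h2 : (0 : ℝ) < cnt D z := by exact_mod_cast cnt_pos D z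
  refine h1.trans ?_
  calc (cnt D z : ℝ) = (2 : ℝ) ^ (W D z) := by
        unfold W
        rw [Real.rpow_logb (by norm_num) (by norm_num) h2]
    _ ≤ _ := Real.rpow_le_rpow_of_exponent_le (by norm_num) hB

/-- superadditivity -/
theorem sum_max_le {ι : Type*} [Fintype ι] (w : ι → ℝ) (B : ℝ) (hw : ∀ i, 0 ≤ w i)
    [DecidablePred fun i => B ≤ w i] :
    ∑ i, max (w i - B) 0 + (((univ.filter fun i => B ≤ w i).card - 1 : ℕ) : ℝ) * B ≤
      max (∑ i, w i - B) 0 := by
  have h1 : ∑ i, max (w i - B) 0 = ∑ i ∈ univ.filter (fun i => B ≤ w i), (w i - B) := by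
    rw [Finset.sum_filter]
    refine Finset.sum_congr rfl fun i _ => ?_
    split_ifs with h
    · exact max_eq_left (by linarith)
    · exact max_eq_right (by linarith)
  rw [h1, Finset.sum_sub_distrib, Finset.sum_const, nsmul_eq_mul]
  rcases Nat.eq_zero_or_pos (univ.filter fun i => B ≤ w i).card with h0 | h0
  · rw [Finset.card_eq_zero] at h0
    rw [h0]
    simp
  · have h2 : (((univ.filter fun i => B ≤ w i).card - 1 : ℕ) : ℝ) =
        ((univ.filter fun i => B ≤ w i).card : ℝ) - 1 := by
      rw [Nat.cast_sub h0]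
      simp
    have h3 : ∑ i ∈ univ.filter (fun i => B ≤ w i), w i ≤ ∑ i, w i :=
      Finset.sum_le_sum_of_subset_of_nonneg (Finset.filter_subset _ _) fun i _ _ => hw i
    rw [h2]
    refine le_trans ?_ (le_max_left _ _)
    linarith

end Pool.Agent.V7H23.AK
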