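import Mathlib

set_option autoImplicit false

/-!
# Rearrangements of labelled trees by iterated wreath products
-/

open Finset

namespace Pool.Agent.V7H23.AK

universe u v

/-- One level of a tree: the number `e` of children of the nodes of this level, and a group of
permutations of the children. -/
structure Level where
  /-- the number of children -/
  e : ℕ
  /-- the group of permutations -/
  G : Subgroup (Equiv.Perm (Fin e))

/-- The labellings, with labels from `L`, of the leaves of the rooted tree with the levels `D`: for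
`D = []` a label, for `D = a :: D'` a sequence of `a.e` labelled trees with the levels `D'`. -/
@[reducible] def Tr (L : Type u) : List Level → Type u
  | [] => L
  | a :: D => Fin a.e → Tr L D

/-- The labelled tree with the labels `f l`. -/
def Tr.map {L : Type u} {L' : Type v} (f : L → L') : (D : List Level) → Tr L D → Tr L' D
  | [], z => f z
  | _ :: D, z => fun i => Tr.map f D (z i)

/-- The labelled tree `z'` is a rearrangement of `z`: it is obtained from `z` by permuting the
children of nodes, with permutations from the groups of the levels. -/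
def Same {L : Type u} : (D : List Level) → Tr L D → Tr L D → Prop
  | [], z, z' => z = z'
  | a :: D, z, z' => ∃ σ ∈ a.G, ∀ i, Same D (z (σ i)) (z' i)

section basic

variable {L : Type u} {L' : Type v}

theorem Same.refl : ∀ (D : List Level) (z : Tr L D), Same D z z
  | [], _ => rfl
  | a :: D, z => ⟨1, a.G.one_mem, fun i => Same.refl D (z i)⟩

theorem Same.symm : ∀ {D : List Level} {z z' : Tr L D}, Same D z z' → Same D z' z
  | [], _, _, h => Eq.symm h
  | a :: D, z, z', ⟨σ, hσ, h⟩ => ⟨σ.symm, a.G.inv_mem hσ, fun i => by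
      have := Same.symm (D := D) (h (σ.symm i))
      rwa [σ.apply_symm_apply] at this⟩

theorem Same.trans : ∀ {D : List Level} {z z' z'' : Tr L D}, Same D z z' → Same D z' z'' →
    Same D z z''
  | [], _, _, _, h, h' => Eq.trans h h'
  | a :: D, _, _, _, ⟨σ, hσ, h⟩, ⟨τ, hτ, h'⟩ => ⟨σ * τ, a.G.mul_mem hσ hτ, fun i =>
      Same.trans (D := D) (h (τ i)) (h' i)⟩

theorem Same.map (f : L → L') : ∀ {D : List Level} {z z' : Tr L D}, Same D z z' →
    Same D (Tr.map f D z) (Tr.map f D z')
  | [], _, _, h => congrArg f h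
  | _ :: D, _, _, ⟨σ, hσ, h⟩ => ⟨σ, hσ, fun i => Same.map f (D := D) (h i)⟩

theorem Same.lift (f : L → L') : ∀ {D : List Level} {z : Tr L D} {w : Tr L' D},
    Same D (Tr.map f D z) w → ∃ z', Same D z z' ∧ Tr.map f D z' = w
  | [], z, _, h => ⟨z, rfl, h⟩
  | _ :: D, z, w, ⟨σ, hσ, h⟩ => by
      have h1 : ∀ i, ∃ z', Same D (z (σ i)) z' ∧ Tr.map f D z' = w i := fun i =>
        Same.lift f (D := D) (h i)
      choose z' hz' hw using h1
      exact ⟨z', ⟨σ, hσ, hz'⟩, funext hw⟩

theorem finite_same : ∀ (D : List Level) (z : Tr L D), {z' | Same D z z'}.Finite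
  | [], z => by
      refine (Set.finite_singleton z).subset ?_
      intro z' h
      exact (Eq.symm (h : z = z'))
  | a :: D, z => by
      have h1 : {z' : Tr L (a :: D) | Same (a :: D) z z'} ⊆
          ⋃ σ : Equiv.Perm (Fin a.e), (Set.univ.pi fun i => {w | Same D (z (σ i)) w}) := by
        rintro z' ⟨σ, _, h⟩
        exact Set.mem_iUnion.2 ⟨σ, fun i _ => h i⟩
      refine Set.Finite.subset ?_ h1
      exact Set.finite_iUnion fun σ => Set.Finite.pi fun i => finite_same D (z (σ i))

/-- the rearrangements of a labelled tree -/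
noncomputable def orb (D : List Level) (z : Tr L D) : Finset (Tr L D) := (finite_same D z).toFinset

theorem mem_orb {D : List Level} {z z' : Tr L D} : z' ∈ orb D z ↔ Same D z z' :=
  (finite_same D z).mem_toFinset

/-- The number of rearrangements of a labelled tree. -/
noncomputable def cnt (D : List Level) (z : Tr L D) : ℕ := {z' | Same D z z'}.ncard

theorem cnt_eq (D : List Level) (z : Tr L D) : cnt D z = (orb D z).card :=
  Set.ncard_eq_toFinset_card _ (finite_same D z)

theorem orb_eq_iff {D : List Level} {z z' : Tr L D} : orb D z = orb D z' ↔ Same D z z' := by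
  constructor
  · intro h
    have h1 : z' ∈ orb D z' := mem_orb.2 (Same.refl D z')
    rw [← h] at h1
    exact mem_orb.1 h1
  · intro h
    ext w
    rw [mem_orb, mem_orb]
    exact ⟨fun h' => h.symm.trans h', fun h' => h.trans h'⟩

theorem self_mem_orb {D : List Level} (z : Tr L D) : z ∈ orb D z := mem_orb.2 (Same.refl D z)

theorem cnt_pos (D : List Level) (z : Tr L D) : 0 < cnt D z := by
  rw [cnt_eq]
  exact Finset.card_pos.2 ⟨z, self_mem_orb z⟩

theorem cnt_nil (z : Tr L []) : cnt [] z = 1 := by
  have : {z' | Same [] z z'} = {z} := by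
    ext w
    exact ⟨fun h => (Eq.symm (h : z = w)), fun h => (Eq.symm (h : w = z))⟩
  unfold cnt
  rw [this, Set.ncard_singleton]

/-- the rearranged sequence -/
def pm {X : Type*} {e : ℕ} (f : Fin e → X) (σ : Equiv.Perm (Fin e)) : Fin e → X := fun i => f (σ i)

open Classical in
/-- the elements of a group -/
noncomputable def els {e : ℕ} (G : Subgroup (Equiv.Perm (Fin e))) : Finset (Equiv.Perm (Fin e)) :=
  univ.filter fun σ => σ ∈ G

theorem mem_els {e : ℕ} {G : Subgroup (Equiv.Perm (Fin e))} {σ : Equiv.Perm (Fin e)} :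
    σ ∈ els G ↔ σ ∈ G := by
  classical
  unfold els
  rw [Finset.mem_filter]
  exact ⟨fun h => h.2, fun h => ⟨mem_univ _, h⟩⟩

open Classical in
/-- the number of rearrangements of a sequence -/
noncomputable def rearr {X : Type*} {e : ℕ} (G : Subgroup (Equiv.Perm (Fin e))) (f : Fin e → X) :
    ℕ := ((els G).image (pm f)).card

variable {e : ℕ} {G : Subgroup (Equiv.Perm (Fin e))}

theorem rearr_inst {X : Type*} (f : Fin e → X) (inst : DecidableEq (Fin e → X)) :
    (@Finset.image _ _ inst (pm f) (els G)).card = rearr G f := by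
  have h : ∀ i1 i2 : DecidableEq (Fin e → X), (@Finset.image _ _ i1 (pm f) (els G)).card =
      (@Finset.image _ _ i2 (pm f) (els G)).card := by
    intro i1 i2
    rw [Subsingleton.elim i1 i2]
  exact h _ _

theorem rearr_pos {X : Type*} (f : Fin e → X) : 0 < rearr G f := by
  classical
  unfold rearr
  exact Finset.card_pos.2 ⟨_, Finset.mem_image_of_mem _ (mem_els.2 G.one_mem)⟩

theorem card_els : (els G).card = Nat.card G := by
  classical
  rw [Nat.card_eq_fintype_card, Fintype.card_subtype]
  congr 1

theorem rearr_le {X : Type*} (f : Fin e → X) : rearr G f ≤ Nat.card G := by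
  classical
  unfold rearr
  exact Finset.card_image_le.trans card_els.le

theorem two_le_rearr {X : Type*} (f : Fin e → X) {σ : Equiv.Perm (Fin e)} (hσ : σ ∈ G)
    (h : pm f σ ≠ f) : 2 ≤ rearr G f := by
  classical
  unfold rearr
  have h2 : ({f, pm f σ} : Finset (Fin e → X)) ⊆ ((els G).image (pm f)) := by
    intro w hw
    rw [Finset.mem_insert, Finset.mem_singleton] at hw
    rcases hw with rfl | rfl
    · exact Finset.mem_image.2 ⟨1, mem_els.2 G.one_mem, rfl⟩
    · exact Finset.mem_image.2 ⟨σ, mem_els.2 hσ, rfl⟩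
  calc 2 = ({f, pm f σ} : Finset (Fin e → X)).card := (Finset.card_pair h.symm).symm
    _ ≤ _ := Finset.card_le_card h2

theorem cnt_cons {a : Level} {D : List Level} (z : Tr L (a :: D)) :
    cnt (a :: D) z = rearr a.G (fun i => orb D (z i)) * ∏ i, cnt D (z i) := by
  classical
  have h1 : (orb (a :: D) z : Finset (Fin a.e → Tr L D)) =
      ((els a.G).image (pm fun i => orb D (z i))).biUnion fun f => Fintype.piFinset f := by
    ext w
    rw [Finset.mem_biUnion]
    constructor
    · intro h
      obtain ⟨σ, hσG, hσ⟩ := (mem_orb (z := z) (z' := w)).1 h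
      refine ⟨_, Finset.mem_image_of_mem _ (mem_els.2 hσG), ?_⟩
      rw [Fintype.mem_piFinset]
      exact fun i => mem_orb.2 (hσ i)
    · rintro ⟨f, hf, hw⟩
      obtain ⟨σ, hσG, rfl⟩ := Finset.mem_image.1 hf
      rw [Fintype.mem_piFinset] at hw
      exact (mem_orb (z := z) (z' := w)).2 ⟨σ, mem_els.1 hσG, fun i => mem_orb.1 (hw i)⟩
  rw [cnt_eq]
  change (orb (a :: D) z : Finset (Fin a.e → Tr L D)).card = _
  rw [h1, Finset.card_biUnion]
  · have h2 : ∀ f ∈ ((els a.G).image (pm fun i => orb D (z i))),
        (Fintype.piFinset f).card = ∏ i, cnt D (z i) := by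
      intro f hf
      obtain ⟨σ, _, rfl⟩ := Finset.mem_image.1 hf
      rw [Fintype.card_piFinset]
      simp only [pm, cnt_eq]
      exact Equiv.prod_comp σ fun i => (orb D (z i)).card
    rw [Finset.sum_congr rfl h2, Finset.sum_const, smul_eq_mul]
    exact congrArg (· * ∏ i, cnt D (z i)) (rearr_inst _ _)
  · intro f hf g hg hne
    obtain ⟨σ, _, rfl⟩ := Finset.mem_image.1 (Finset.mem_coe.1 hf)
    obtain ⟨τ, _, rfl⟩ := Finset.mem_image.1 (Finset.mem_coe.1 hg)
    change Disjoint (Fintype.piFinset _) (Fintype.piFinset _)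
    rw [Finset.disjoint_left]
    intro w hw hw'
    rw [Fintype.mem_piFinset] at hw hw'
    apply hne
    funext i
    have h3 := mem_orb.1 (hw i)
    have h4 := mem_orb.1 (hw' i)
    exact orb_eq_iff.2 (h3.trans h4.symm)

theorem cnt_map_le (f : L → L') (D : List Level) (z : Tr L D) :
    cnt D (Tr.map f D z) ≤ cnt D z := by
  classical
  rw [cnt_eq, cnt_eq]
  have h1 : orb D (Tr.map f D z) ⊆ (orb D z).image (Tr.map f D) := by
    intro w hw
    obtain ⟨z', h1, h2⟩ := Same.lift f (mem_orb.1 hw)
    exact Finset.mem_image.2 ⟨z', mem_orb.2 h1, h2⟩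
  exact (Finset.card_le_card h1).trans Finset.card_image_le

open Classical in
theorem orb_map (f : L → L') (D : List Level) (z : Tr L D) :
    orb D (Tr.map f D z) = (orb D z).image (Tr.map f D) := by
  ext w
  rw [Finset.mem_image, mem_orb]
  constructor
  · intro h
    obtain ⟨z', h1, h2⟩ := Same.lift f h
    exact ⟨z', mem_orb.2 h1, h2⟩
  · rintro ⟨z', h1, rfl⟩
    exact (mem_orb.1 h1).map f

/-- the logarithm of the number of rearrangements -/
noncomputable def W (D : List Level) (z : Tr L D) : ℝ := Real.logb 2 (cnt D z)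

theorem W_nonneg (D : List Level) (z : Tr L D) : 0 ≤ W D z := by
  unfold W
  refine Real.logb_nonneg (by norm_num) ?_
  exact_mod_cast cnt_pos D z

theorem W_nil (z : Tr L []) : W [] z = 0 := by
  unfold W
  rw [cnt_nil]
  simp

/-- the logarithm of the number of rearrangements of a sequence -/
noncomputable def lam {X : Type*} (G : Subgroup (Equiv.Perm (Fin e))) (f : Fin e → X) : ℝ :=
  Real.logb 2 (rearr G f)

theorem lam_nonneg {X : Type*} (f : Fin e → X) : 0 ≤ lam G f := by
  unfold lam
  refine Real.logb_nonneg (by norm_num) ?_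
  exact_mod_cast rearr_pos f

theorem one_le_lam {X : Type*} (f : Fin e → X) {σ : Equiv.Perm (Fin e)} (hσ : σ ∈ G)
    (h : pm f σ ≠ f) : 1 ≤ lam G f := by
  unfold lam
  have h1 : (2 : ℝ) ≤ (rearr G f : ℝ) := by exact_mod_cast two_le_rearr f hσ h
  calc (1 : ℝ) = Real.logb 2 2 := (Real.logb_self_eq_one (by norm_num)).symm
    _ ≤ _ := Real.logb_le_logb_of_le (by norm_num) (by norm_num) h1

theorem lam_le {X : Type*} {d : ℕ} (f : Fin e → X) (h : Nat.card G ≤ d) :
    lam G f ≤ Real.logb 2 d := by
  unfold lam
  refine Real.logb_le_logb_of_le (by norm_num) ?_ ?_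
  · exact_mod_cast rearr_pos f
  · exact_mod_cast (rearr_le f).trans h

theorem lam_mono' {X Y : Type*} (f : Fin e → X) (g : Fin e → Y)
    (h : ∀ σ ∈ G, pm g σ = g → pm f σ = f) : lam G f ≤ lam G g := by
  classical
  unfold lam
  refine Real.logb_le_logb_of_le (by norm_num) ?_ ?_
  · exact_mod_cast rearr_pos f
  · have key : ∀ {σ τ : Equiv.Perm (Fin e)}, σ ∈ G → τ ∈ G → pm g σ = pm g τ →
        pm f σ = pm f τ := by
      intro σ τ hσ hτ h1
      have h2 : pm g (σ * τ⁻¹) = g := by
        funext i
        have := congrFun h1 (τ⁻¹ i)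
        simp only [pm] at this
        simp only [pm, Equiv.Perm.mul_apply]
        rw [this]
        exact congrArg g (τ.apply_symm_apply i)
      have h3 := h _ (G.mul_mem hσ (G.inv_mem hτ)) h2
      funext i
      have := congrFun h3 (τ i)
      simp only [pm, Equiv.Perm.mul_apply] at this
      simp only [pm]
      rw [← this]
      exact congrArg f (congrArg σ (τ.symm_apply_apply i).symm)
    have h1 : rearr G f ≤ rearr G g := by
      unfold rearr
      have h4 : ∀ w : Fin e → Y, ∃ u : Fin e → X, ∀ σ ∈ G, pm g σ = w → pm f σ = u := by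
        intro w
        by_cases hw : ∃ σ ∈ G, pm g σ = w
        · obtain ⟨σ, hσ, hσw⟩ := hw
          exact ⟨pm f σ, fun τ hτ hτw => key hτ hσ (hτw.trans hσw.symm)⟩
        · exact ⟨f, fun σ hσ hσw => absurd ⟨σ, hσ, hσw⟩ hw⟩
      choose k hk using h4
      have h2 : ((els G).image (pm f)) = ((els G).image (pm g)).image k := by
        rw [Finset.image_image]
        refine Finset.image_congr fun σ hσ => ?_
        exact hk _ σ (mem_els.1 (Finset.mem_coe.1 hσ)) rfl
      rw [h2]
      exact Finset.card_image_le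
    exact_mod_cast h1

theorem W_cons {a : Level} {D : List Level} (z : Tr L (a :: D)) :
    W (a :: D) z = lam a.G (fun i => orb D (z i)) + ∑ i, W D (z i) := by
  unfold W lam
  rw [cnt_cons]
  push_cast
  rw [Real.logb_mul, Real.logb_prod]
  · intro i _
    exact_mod_cast (cnt_pos D (z i)).ne'
  · exact_mod_cast (rearr_pos _).ne'
  · rw [Finset.prod_ne_zero_iff]
    intro i _
    exact_mod_cast (cnt_pos D (z i)).ne'

end basic

end Pool.Agent.V7H23.AK
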