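import Pool.Agent.V7H23.AK.Lin

set_option autoImplicit false

/-!
# Weighted paths
-/

open Finset

namespace Pool.Agent.V7H23.AK

section wpaths

variable {α : Type*} {β : Type*} [DecidableEq α] [DecidableEq β]

/-- the sum of the weights of the paths from `a` -/
noncomputable def wsum (A : Finset α) (r : ℕ) (f : Fin r → α → β) (v : Fin r → α → ℝ) (a : α) : ℝ :=
  ∑ p ∈ (Paths A r f).filter (fun p => p 0 = a), ∏ j, v j (p j.succ)

theorem wsum_cons (A : Finset α) (r : ℕ) (f : Fin (r + 1) → α → β) (v : Fin (r + 1) → α → ℝ)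
    {a : α} (ha : a ∈ A) :
    wsum A (r + 1) f v a = ∑ b ∈ A.filter (fun b => f 0 a = f 0 b),
      v 0 b * wsum A r (fun j => f j.succ) (fun j => v j.succ) b := by
  have h1 : wsum A (r + 1) f v a =
      ∑ p ∈ (Paths A r fun j => f j.succ).filter (fun p => f 0 a = f 0 (p 0)),
        (v 0 (p 0) * ∏ j : Fin r, v j.succ (p j.succ)) := by
    refine Finset.sum_bij' (fun p _ => Fin.tail p) (fun p _ => Fin.cons a p) ?_ ?_ ?_ ?_ ?_
    · intro p hp
      obtain ⟨hp1, h0⟩ := Finset.mem_filter.1 hp
      obtain ⟨h2, h3⟩ := mem_paths.1 hp1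
      refine Finset.mem_filter.2 ⟨mem_paths.2 ⟨fun i => h2 i.succ, fun j => ?_⟩, ?_⟩
      · have := h3 j.succ
        rw [← Fin.succ_castSucc] at this
        exact this
      · have := h3 0
        rw [← h0]
        exact this
    · intro p hp
      obtain ⟨hp, h0⟩ := Finset.mem_filter.1 hp
      obtain ⟨h2, h3⟩ := mem_paths.1 hp
      refine Finset.mem_filter.2 ⟨mem_paths.2 ⟨fun i => ?_, fun j => ?_⟩, Fin.cons_zero _ _⟩
      · refine Fin.cases ?_ (fun i => ?_) i
        · exact ha
        · exact h2 i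
      · refine Fin.cases ?_ (fun j => ?_) j
        · exact h0
        · rw [← Fin.succ_castSucc, Fin.cons_succ, Fin.cons_succ]
          exact h3 j
    · intro p hp
      obtain ⟨hp1, h0⟩ := Finset.mem_filter.1 hp
      rw [← h0]
      exact Fin.cons_self_tail p
    · intro p hp
      exact Fin.tail_cons _ _
    · intro p hp
      rw [Fin.prod_univ_succ]
      rfl
  rw [h1, ← Finset.sum_fiberwise_of_maps_to (g := fun p : Fin (r + 1) → α => p 0)
    (t := A.filter (fun b => f 0 a = f 0 b))]
  · refine Finset.sum_congr rfl fun b hb => ?_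
    unfold wsum
    rw [Finset.mul_sum]
    have h5 : ((Paths A r fun j => f j.succ).filter (fun p => f 0 a = f 0 (p 0))).filter
        (fun p => p 0 = b) = (Paths A r fun j => f j.succ).filter fun p => p 0 = b := by
      ext p
      simp only [Finset.mem_filter]
      constructor
      · rintro ⟨⟨h2, _⟩, h3⟩
        exact ⟨h2, h3⟩
      · rintro ⟨h2, h3⟩
        refine ⟨⟨h2, ?_⟩, h3⟩
        rw [h3]
        exact (Finset.mem_filter.1 hb).2
    rw [h5]
    refine Finset.sum_congr rfl fun p hp => ?_
    rw [(Finset.mem_filter.1 hp).2]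
  · intro p hp
    obtain ⟨hp, h0⟩ := Finset.mem_filter.1 hp
    exact Finset.mem_filter.2 ⟨(mem_paths.1 hp).1 0, h0⟩

theorem wsum_log (A : Finset α) (hA : A.Nonempty) : ∀ (r : ℕ) (f : Fin r → α → β)
    (v : Fin r → α → ℝ), (∀ j, ∀ a ∈ A, 0 < v j a) →
    (∀ a ∈ A, 0 < wsum A r f v a) ∧
    A.card * (r * Real.log A.card - ∑ j, Real.log ((A.image (f j)).card : ℝ)) +
      ∑ j, ∑ a ∈ A, Real.log (v j a) ≤ ∑ a ∈ A, Real.log (wsum A r f v a) := by
  intro r
  induction r with
  | zero =>
    intro f v _
    have h1 : ∀ a ∈ A, wsum A 0 f v a = 1 := by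
      intro a ha
      have h2 : (Paths A 0 f).filter (fun p => p 0 = a) = {fun _ => a} := by
        ext p
        rw [Finset.mem_filter, mem_paths, Finset.mem_singleton]
        constructor
        · rintro ⟨_, h3⟩
          funext i
          have hi : i = 0 := Fin.ext (by omega)
          rw [hi, h3]
        · intro h3
          rw [h3]
          exact ⟨⟨fun _ => ha, fun j => Fin.elim0 j⟩, rfl⟩
      unfold wsum
      rw [h2, Finset.sum_singleton]
      simp
    refine ⟨fun a ha => by rw [h1 a ha]; exact one_pos, ?_⟩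
    have h2 : ∑ a ∈ A, Real.log (wsum A 0 f v a) = 0 :=
      Finset.sum_eq_zero fun a ha => by rw [h1 a ha, Real.log_one]
    rw [h2]
    simp
  | succ r ih =>
    intro f v hv
    obtain ⟨ih1, ih2⟩ := ih (fun j => f j.succ) (fun j => v j.succ) fun j => hv j.succ
    obtain ⟨N, hN⟩ : ∃ N : α → ℝ, N = fun a =>
      wsum A r (fun j => f j.succ) (fun j => v j.succ) a := ⟨_, rfl⟩
    have hN' : ∀ a, wsum A r (fun j => f j.succ) (fun j => v j.succ) a = N a := by
      intro a
      rw [hN]
    simp only [hN'] at ih1 ih2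
    have hne : ∀ a ∈ A, (A.filter fun b => f 0 a = f 0 b).Nonempty := fun a ha =>
      ⟨a, Finset.mem_filter.2 ⟨ha, rfl⟩⟩
    have hrec : ∀ a ∈ A, wsum A (r + 1) f v a =
        ∑ b ∈ A.filter (fun b => f 0 a = f 0 b), v 0 b * N b := by
      intro a ha
      rw [wsum_cons A r f v ha]
      exact Finset.sum_congr rfl fun b _ => by rw [hN' b]
    refine ⟨fun a ha => ?_, ?_⟩
    · rw [hrec a ha]
      exact Finset.sum_pos (fun b hb => mul_pos (hv 0 b (Finset.mem_filter.1 hb).1)
        (ih1 b (Finset.mem_filter.1 hb).1)) (hne a ha)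
    · have h1 : ∀ a ∈ A, Real.log ((A.filter fun b => f 0 a = f 0 b).card : ℝ) +
          1 / ((A.filter fun b => f 0 a = f 0 b).card : ℝ) *
          ∑ b ∈ A.filter (fun b => f 0 a = f 0 b), Real.log (v 0 b * N b) ≤
          Real.log (wsum A (r + 1) f v a) := by
        intro a ha
        rw [hrec a ha]
        have h2 := sum_log_le (hne a ha) (fun b => v 0 b * N b) fun b hb =>
          mul_pos (hv 0 b (Finset.mem_filter.1 hb).1) (ih1 b (Finset.mem_filter.1 hb).1)
        have hc : (0 : ℝ) < ((A.filter fun b => f 0 a = f 0 b).card : ℝ) :=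
          Nat.cast_pos.2 (Finset.card_pos.2 (hne a ha))
        have h3 := mul_le_mul_of_nonneg_left h2 (one_div_pos.2 hc).le
        rw [← mul_assoc, one_div_mul_cancel hc.ne', one_mul] at h3
        linarith
      have h2 := Finset.sum_le_sum h1
      rw [Finset.sum_add_distrib] at h2
      have h3 : ∑ a ∈ A, 1 / ((A.filter fun b => f 0 a = f 0 b).card : ℝ) *
          ∑ b ∈ A.filter (fun b => f 0 a = f 0 b), Real.log (v 0 b * N b) =
          ∑ b ∈ A, Real.log (v 0 b * N b) := by
        have h4 : ∑ a ∈ A, 1 / ((A.filter fun b => f 0 a = f 0 b).card : ℝ) *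
            ∑ b ∈ A.filter (fun b => f 0 a = f 0 b), Real.log (v 0 b * N b) =
            ∑ a ∈ A, ∑ b ∈ A, if f 0 a = f 0 b then
              1 / ((A.filter fun b => f 0 a = f 0 b).card : ℝ) * Real.log (v 0 b * N b) else 0 := by
          refine Finset.sum_congr rfl fun a _ => ?_
          rw [Finset.mul_sum, Finset.sum_filter]
        rw [h4, Finset.sum_comm]
        refine Finset.sum_congr rfl fun b hb => ?_
        rw [← Finset.sum_filter]
        have h5 : ∀ a ∈ A.filter (fun a => f 0 a = f 0 b),
            1 / ((A.filter fun b => f 0 a = f 0 b).card : ℝ) * Real.log (v 0 b * N b) =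
            1 / ((A.filter fun a => f 0 a = f 0 b).card : ℝ) * Real.log (v 0 b * N b) := by
          intro a ha
          have h6 := (Finset.mem_filter.1 ha).2
          have h7 : (A.filter fun b => f 0 a = f 0 b) = (A.filter fun a => f 0 a = f 0 b) := by
            refine Finset.filter_congr fun c _ => ?_
            rw [h6]
            exact eq_comm
          rw [h7]
        rw [Finset.sum_congr rfl h5, Finset.sum_const, nsmul_eq_mul, ← mul_assoc,
          mul_one_div_cancel, one_mul]
        have h8 : 0 < (A.filter fun a => f 0 a = f 0 b).card :=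
          Finset.card_pos.2 ⟨b, Finset.mem_filter.2 ⟨hb, rfl⟩⟩
        exact_mod_cast h8.ne'
      rw [h3] at h2
      have h4 := sum_log_class hA (f 0)
      have h5 : ∑ b ∈ A, Real.log (v 0 b * N b) = ∑ b ∈ A, Real.log (v 0 b) +
          ∑ b ∈ A, Real.log (N b) := by
        rw [← Finset.sum_add_distrib]
        exact Finset.sum_congr rfl fun b hb => Real.log_mul (hv 0 b hb).ne' (ih1 b hb).ne'
      rw [Fin.sum_univ_succ, Fin.sum_univ_succ (f := fun j => ∑ a ∈ A, Real.log (v j a))]
      push_cast
      linarith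

end wpaths

end Pool.Agent.V7H23.AK
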